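import Mathlib
import Pool.Agent.Y109.PI.Mat

/-! Sums of symbols over the field with two elements. -/

set_option autoImplicit false
set_option linter.all false

open Matrix

namespace Pool.Agent.HX84.PI

open Pool.Agent.Y109.PI

abbrev F2 := ZMod 2

theorem f2_add_self {M : Type*} [AddCommGroup M] [Module F2 M] (x : M) : x + x = 0 := by
  have h : (2 : F2) = 0 := by decide
  rw [← two_smul F2 x, h, zero_smul]

section

variable {G B : Type*} [AddCommGroup G] [AddCommGroup B] [Module F2 G] [Module F2 B]
  (s : G →ₗ[F2] G →ₗ[F2] B) {I : Type*} [Fintype I]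

/-- the quadratic part -/
def frm (z : I → G) (a : I → I → F2) : B := ∑ q : I × I, a q.1 q.2 • s (z q.1) (z q.2)

/-- the linear part -/
def lw (z : I → G) (h : I → G) : B := ∑ u, s (h u) (z u)

/-- monomials -/
def mn (z : I → G) (y : I → F2) : G := ∑ u, y u • z u

theorem mn_add (z : I → G) (x y : I → F2) : mn z (x + y) = mn z x + mn z y := by
  simp only [mn, Pi.add_apply, add_smul, Finset.sum_add_distrib]

theorem mn_smul (z : I → G) (c : F2) (x : I → F2) : mn z (c • x) = c • mn z x := by
  simp only [mn, Pi.smul_apply, smul_eq_mul, mul_smul, Finset.smul_sum]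

/-- monomials as a linear map -/
def mnL (z : I → G) : (I → F2) →ₗ[F2] G where
  toFun := mn z
  map_add' := mn_add z
  map_smul' := mn_smul z

theorem symm_of_alt (hs : ∀ x, s x x = 0) (x y : G) : s x y = s y x := by
  have h := hs (x + y)
  simp only [map_add, LinearMap.add_apply, hs, zero_add, add_zero] at h
  have h2 := f2_add_self (s y x)
  have h3 : s x y = -(s y x) := eq_neg_of_add_eq_zero_right h
  rw [h3]
  exact neg_eq_of_add_eq_zero_left h2

theorem frm_add (z : I → G) (a b : I → I → F2) : frm s z (a + b) = frm s z a + frm s z b := by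
  simp only [frm, Pi.add_apply, add_smul, Finset.sum_add_distrib]

theorem frm_outer (z : I → G) (e f : I → F2) : frm s z (fun u v => e u * f v) = s (mn z e) (mn z f) := by
  have h1 : s (mn z e) = ∑ u, e u • s (z u) := by
    rw [mn, map_sum]
    exact Finset.sum_congr rfl fun u _ => map_smul _ _ _
  rw [frm, Fintype.sum_prod_type, h1, LinearMap.sum_apply]
  refine Finset.sum_congr rfl fun u _ => ?_
  rw [LinearMap.smul_apply, mn, map_sum, Finset.smul_sum]
  refine Finset.sum_congr rfl fun v _ => ?_
  rw [map_smul, mul_smul]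

theorem frm_sum {κ : Type*} (z : I → G) (S : Finset κ) (a : κ → I → I → F2) :
    frm s z (∑ k ∈ S, a k) = ∑ k ∈ S, frm s z (a k) := by
  classical
  induction S using Finset.induction_on with
  | empty => simp [frm]
  | insert x S hx ih => rw [Finset.sum_insert hx, Finset.sum_insert hx, frm_add, ih]

theorem frm_sym (hs : ∀ x, s x x = 0) (z : I → G) (a : I → I → F2) (ha : ∀ u v, a u v = a v u) :
    frm s z a = 0 := by
  rw [frm]
  refine Finset.sum_involution (fun q _ => (q.2, q.1)) ?_ ?_ ?_ ?_
  · rintro ⟨u, v⟩ _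
    simp only
    rw [ha v u, symm_of_alt s hs (z v) (z u)]
    exact f2_add_self _
  · rintro ⟨u, v⟩ _ h h'
    simp only [Prod.mk.injEq] at h'
    apply h
    simp only
    rw [h'.1, hs, smul_zero]
  · intro a _; exact Finset.mem_univ _
  · intro a _; rfl

theorem frm_congr (hs : ∀ x, s x x = 0) (z : I → G) (a b : I → I → F2)
    (h : ∀ u v, a u v + a v u = b u v + b v u) : frm s z a = frm s z b := by
  have h1 := frm_sym s hs z (a + b) (fun u v => by
    simp only [Pi.add_apply]
    have h2 := h u v
    have h3 : ∀ p q r t : F2, p + q = r + t → p + r = q + t := by decide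
    exact h3 _ _ _ _ h2)
  rw [frm_add] at h1
  have h2 := f2_add_self (frm s z b)
  calc frm s z a = frm s z a + (frm s z b + frm s z b) := by rw [h2, add_zero]
    _ = (frm s z a + frm s z b) + frm s z b := by rw [add_assoc]
    _ = frm s z b := by rw [h1, zero_add]

theorem frm_decomp (hs : ∀ x, s x x = 0) (z : I → G) (a : I → I → F2) (r : ℕ) (e f : Fin r → I → F2)
    (h : (Matrix.of fun u v => a u v + a v u : Matrix I I F2) = ∑ i, wdg (e i) (f i)) :
    frm s z a = ∑ i, s (mn z (e i)) (mn z (f i)) := by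
  have h1 : ∑ i, s (mn z (e i)) (mn z (f i)) = frm s z (∑ i, fun u v => e i u * f i v) := by
    rw [frm_sum]
    exact Finset.sum_congr rfl fun i _ => (frm_outer s z _ _).symm
  rw [h1]
  apply frm_congr s hs
  intro u v
  have h2 := congrFun (congrFun h u) v
  rw [Matrix.of_apply, Matrix.sum_apply] at h2
  rw [h2, Finset.sum_apply, Finset.sum_apply, Finset.sum_apply, Finset.sum_apply, ← Finset.sum_add_distrib]
  refine Finset.sum_congr rfl fun i _ => ?_
  simp only [wdg, Matrix.of_apply]
  have h3 : ∀ p q r t : F2, p * q - r * t = p * q + t * r := by decide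
  exact h3 _ _ _ _

theorem lw_add (z h h' : I → G) : lw s z (h + h') = lw s z h + lw s z h' := by
  simp only [lw, Pi.add_apply, map_add, LinearMap.add_apply, Finset.sum_add_distrib]

/-- the normal form -/
theorem exists_form [DecidableEq I] (hs : ∀ x, s x x = 0) (H : Submodule F2 G) (hH : ∀ x ∈ H, ∀ y ∈ H, s x y = 0)
    (z : I → G) (α : B) (hα : α ∈ AddSubgroup.closure {γ | ∃ x ∈ H ⊔ Submodule.span F2 (Set.range z),
      ∃ y ∈ H ⊔ Submodule.span F2 (Set.range z), γ = s x y}) :
    ∃ (a : I → I → F2) (h : I → G), (∀ u, h u ∈ H) ∧ α = frm s z a + lw s z h := by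
  have hspan : ∀ x ∈ H ⊔ Submodule.span F2 (Set.range z), ∃ h ∈ H, ∃ y : I → F2, x = h + mn z y := by
    intro x hx
    obtain ⟨h, hh, w, hw, rfl⟩ := Submodule.mem_sup.1 hx
    obtain ⟨c, rfl⟩ := (Submodule.mem_span_range_iff_exists_fun F2).1 hw
    exact ⟨h, hh, c, rfl⟩
  induction hα using AddSubgroup.closure_induction with
  | mem γ hγ =>
    obtain ⟨x, hx, y, hy, rfl⟩ := hγ
    obtain ⟨h, hh, p, rfl⟩ := hspan x hx
    obtain ⟨h', hh', q, rfl⟩ := hspan y hy
    refine ⟨fun u v => p u * q v, fun u => q u • h + p u • h', fun u => H.add_mem (H.smul_mem _ hh) (H.smul_mem _ hh'), ?_⟩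
    rw [frm_outer, map_add, map_add, LinearMap.add_apply, LinearMap.add_apply, hH h hh h' hh', zero_add]
    have h1 : s h (mn z q) = lw s z fun u => q u • h := by
      rw [mn, lw, map_sum]
      refine Finset.sum_congr rfl fun u _ => ?_
      rw [map_smul, map_smul, LinearMap.smul_apply]
    have h2 : s (mn z p) h' = lw s z fun u => p u • h' := by
      rw [symm_of_alt s hs, mn, lw, map_sum]
      refine Finset.sum_congr rfl fun u _ => ?_
      rw [map_smul, map_smul, LinearMap.smul_apply]
    have h3 : lw s z (fun u => q u • h + p u • h') = lw s z (fun u => q u • h) + lw s z fun u => p u • h' :=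
      lw_add s z _ _
    rw [h3, h1, h2]
    abel
  | zero =>
    exact ⟨0, 0, fun u => H.zero_mem, by simp [frm, lw]⟩
  | add x y _ _ ihx ihy =>
    obtain ⟨a, h, hh, rfl⟩ := ihx
    obtain ⟨a', h', hh', rfl⟩ := ihy
    refine ⟨a + a', h + h', fun u => H.add_mem (hh u) (hh' u), ?_⟩
    rw [frm_add, lw_add]
    abel
  | neg x _ ih =>
    obtain ⟨a, h, hh, rfl⟩ := ih
    refine ⟨a, h, hh, ?_⟩
    exact neg_eq_of_add_eq_zero_left (f2_add_self _)

end

end Pool.Agent.HX84.PI
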