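import Mathlib
import Pool.Agent.HX84.PI.Abs

/-! Absorbing the linear terms. -/

set_option autoImplicit false
set_option linter.all false

open Matrix

namespace Pool.Agent.HX84.PI

open Pool.Agent.Y109.PI

section

variable {G B : Type*} [AddCommGroup G] [AddCommGroup B] [Module F2 G] [Module F2 B]
  (s : G →ₗ[F2] G →ₗ[F2] B) {I : Type*} [Fintype I] [DecidableEq I]

/-- a sum of `n` symbols -/
def IsSum (n : ℕ) (β : B) : Prop := ∃ x y : Fin n → G, β = ∑ i, s (x i) (y i)

variable {s} in
theorem IsSum.add {n m : ℕ} {β γ : B} (hβ : IsSum s n β) (hγ : IsSum s m γ) : IsSum s (n + m) (β + γ) := by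
  obtain ⟨x, y, rfl⟩ := hβ
  obtain ⟨x', y', rfl⟩ := hγ
  refine ⟨Fin.append x x', Fin.append y y', ?_⟩
  rw [Fin.sum_univ_add]
  simp only [Fin.append_left, Fin.append_right]

variable {s} in
theorem IsSum.mono {n m : ℕ} {β : B} (hβ : IsSum s n β) (h : n ≤ m) : IsSum s m β := by
  obtain ⟨k, rfl⟩ := Nat.exists_eq_add_of_le h
  have h1 : IsSum s k (0 : B) := ⟨0, 0, by simp⟩
  have := hβ.add h1
  rwa [add_zero] at this

/-- the orthogonal complement for the dot product -/
def orth (W : Submodule F2 (I → F2)) : Submodule F2 (I → F2) :=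
  (Matrix.toBilin' (1 : Matrix I I F2)).orthogonal W

theorem mem_orth (W : Submodule F2 (I → F2)) (y : I → F2) : y ∈ orth W ↔ ∀ x ∈ W, x ⬝ᵥ y = 0 := by
  rw [orth, LinearMap.BilinForm.mem_orthogonal_iff]
  refine forall₂_congr fun x _ => ?_
  rw [Matrix.toBilin'_apply', one_mulVec]

theorem finrank_orth (W : Submodule F2 (I → F2)) :
    Module.finrank F2 (orth W) = Fintype.card I - Module.finrank F2 W := by
  rw [orth, LinearMap.BilinForm.finrank_orthogonal, Module.finrank_pi]
  apply LinearMap.BilinForm.nondegenerate_toBilin'_of_det_ne_zero'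
  rw [det_one]
  exact one_ne_zero

theorem lw_orth (z h : I → G) (W : Submodule F2 (I → F2)) (hW : ∀ x ∈ W, ∑ u, x u • h u = 0) :
    ∃ y : I → I → F2, (∀ v, y v ∈ orth W) ∧ lw s z h = ∑ v, s (h v) (mn z (y v)) := by
  obtain ⟨C, hC⟩ := Submodule.exists_isCompl W
  -- the projection to `C` along `W`
  obtain ⟨P, hP1, hP2⟩ : ∃ P : (I → F2) →ₗ[F2] (I → F2), (∀ x, x - P x ∈ W) ∧ ∀ x ∈ W, P x = 0 := by
    refine ⟨C.subtype ∘ₗ (C.projectionOnto W hC.symm), ?_, ?_⟩
    · intro x
      rw [← Submodule.projectionOnto_apply_eq_zero_iff hC.symm, map_sub, LinearMap.comp_apply,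
        Submodule.subtype_apply, Submodule.projectionOnto_apply_left, sub_self]
    · intro x hx
      rw [LinearMap.comp_apply, (Submodule.projectionOnto_apply_eq_zero_iff hC.symm).2 hx, map_zero]
  have hlin : ∀ (f : (I → F2) →ₗ[F2] (I → F2)) (x : I → F2) (v : I), f x v = ∑ u, x u * f (Pi.single u 1) v := by
    intro f x v
    conv_lhs => rw [pi_eq_sum_univ' x]
    rw [map_sum, Finset.sum_apply]
    refine Finset.sum_congr rfl fun u _ => ?_
    rw [map_smul, Pi.smul_apply, smul_eq_mul]
  refine ⟨fun v u => P (Pi.single u 1) v, ?_, ?_⟩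
  · intro v
    rw [mem_orth]
    intro x hx
    rw [dotProduct, ← hlin, hP2 x hx]
    rfl
  · have hh : ∀ u, h u = ∑ v, P (Pi.single u 1) v • h v := by
      intro u
      have h1 := hW _ (hP1 (Pi.single u 1))
      simp only [Pi.sub_apply, sub_smul, Finset.sum_sub_distrib] at h1
      rw [sub_eq_zero] at h1
      rw [← h1, Finset.sum_eq_single u]
      · rw [Pi.single_eq_same, one_smul]
      · intro v _ hv
        rw [Pi.single_eq_of_ne hv, zero_smul]
      · intro h2; exact absurd (Finset.mem_univ _) h2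
    have h3 : ∀ u, s (h u) (z u) = ∑ v, P (Pi.single u 1) v • s (h v) (z u) := by
      intro u
      conv_lhs => rw [hh u]
      rw [map_sum, LinearMap.sum_apply]
      refine Finset.sum_congr rfl fun v _ => ?_
      rw [map_smul, LinearMap.smul_apply]
    rw [lw, Finset.sum_congr rfl fun u _ => h3 u, Finset.sum_comm]
    refine Finset.sum_congr rfl fun v _ => ?_
    rw [mn, map_sum]
    refine Finset.sum_congr rfl fun u _ => ?_
    rw [map_smul]

/-- **Normal form with few symbols.** -/
theorem absorb (hs : ∀ x, s x x = 0) (H : Submodule F2 G) (hH : ∀ x ∈ H, ∀ y ∈ H, s x y = 0) (z h : I → G)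
    (hh : ∀ u, h u ∈ H) (W : Submodule F2 (I → F2)) (hW : ∀ x ∈ W, ∑ u, x u • h u = 0)
    (r : ℕ) (e f : Fin r → I → F2) (he : ∀ i, e i ∈ orth W) (hf : ∀ i, f i ∈ orth W)
    (hli : LinearIndependent F2 (Sum.elim e f)) :
    IsSum s (Fintype.card I - Module.finrank F2 W - r) (∑ i, s (mn z (e i)) (mn z (f i)) + lw s z h) := by
  classical
  obtain ⟨y, hy, hlw⟩ := lw_orth s z h W hW
  let S : Submodule F2 (I → F2) := Submodule.span F2 (Set.range (Sum.elim e f))
  have hSN : S ≤ orth W := by
    rw [Submodule.span_le]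
    rintro _ ⟨i | i, rfl⟩
    · exact he i
    · exact hf i
  have hSr : Module.finrank F2 S = r + r := by
    rw [finrank_span_eq_card hli, Fintype.card_sum, Fintype.card_fin]
  obtain ⟨C, hC⟩ := Submodule.exists_isCompl S
  let C' := C ⊓ orth W
  have hsup : S ⊔ C' = orth W := by
    have h1 : (S ⊔ C) ⊓ orth W = S ⊔ C ⊓ orth W := sup_inf_assoc_of_le C hSN
    rw [← h1, hC.sup_eq_top, top_inf_eq]
  have hinf : S ⊓ C' = ⊥ := by
    rw [eq_bot_iff, ← hC.inf_eq_bot]
    exact inf_le_inf_left _ inf_le_left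
  have hdim := Submodule.finrank_sup_add_finrank_inf_eq S C'
  rw [hsup, hinf, finrank_bot, add_zero, finrank_orth, hSr] at hdim
  let bC := Module.finBasis F2 C'
  have hcoef : ∀ v, ∃ (c : Fin r ⊕ Fin r → F2) (d : Fin (Module.finrank F2 C') → F2),
      y v = ∑ i, c i • Sum.elim e f i + ∑ j, d j • (bC j : I → F2) := by
    intro v
    have h1 := hy v
    rw [← hsup] at h1
    obtain ⟨σ, hσ, t, ht, hst⟩ := Submodule.mem_sup.1 h1
    obtain ⟨c, hc⟩ := (Submodule.mem_span_range_iff_exists_fun F2).1 hσ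
    refine ⟨c, fun j => bC.repr ⟨t, ht⟩ j, ?_⟩
    rw [hc, ← hst]
    congr 1
    have h2 := congrArg Subtype.val (bC.sum_repr ⟨t, ht⟩)
    refine h2.symm.trans ?_
    rw [AddSubmonoidClass.coe_finset_sum]
    rfl
  choose c d hcd using hcoef
  -- the coefficients
  let p : Fin r → G := fun i => ∑ v, c v (Sum.inl i) • h v
  let q : Fin r → G := fun i => ∑ v, c v (Sum.inr i) • h v
  let t : Fin (Module.finrank F2 C') → G := fun j => ∑ v, d v j • h v
  have hp : ∀ i, p i ∈ H := fun i => H.sum_mem fun v _ => H.smul_mem _ (hh v)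
  have hq : ∀ i, q i ∈ H := fun i => H.sum_mem fun v _ => H.smul_mem _ (hh v)
  have hexp : lw s z h = ∑ i, s (p i) (mn z (e i)) + ∑ i, s (q i) (mn z (f i)) +
      ∑ j, s (t j) (mn z (bC j : I → F2)) := by
    have h1 : ∀ v, s (h v) (mn z (y v)) = ∑ i, c v (Sum.inl i) • s (h v) (mn z (e i)) +
        ∑ i, c v (Sum.inr i) • s (h v) (mn z (f i)) + ∑ j, d v j • s (h v) (mn z (bC j : I → F2)) := by
      intro v
      rw [hcd v]
      have h2 : mn z (∑ i, c v i • Sum.elim e f i + ∑ j, d v j • (bC j : I → F2)) =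
          mnL z (∑ i, c v i • Sum.elim e f i + ∑ j, d v j • (bC j : I → F2)) := rfl
      rw [h2, map_add, map_sum, map_sum, map_add, map_sum, map_sum, Fintype.sum_sum_type]
      simp only [map_smul, Sum.elim_inl, Sum.elim_inr]
      rfl
    rw [hlw, Finset.sum_congr rfl fun v _ => h1 v, Finset.sum_add_distrib, Finset.sum_add_distrib]
    congr 1
    · congr 1
      · rw [Finset.sum_comm]
        refine Finset.sum_congr rfl fun i _ => ?_
        rw [map_sum, LinearMap.sum_apply]
        refine Finset.sum_congr rfl fun v _ => ?_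
        rw [map_smul, LinearMap.smul_apply]
      · rw [Finset.sum_comm]
        refine Finset.sum_congr rfl fun i _ => ?_
        rw [map_sum, LinearMap.sum_apply]
        refine Finset.sum_congr rfl fun v _ => ?_
        rw [map_smul, LinearMap.smul_apply]
    · rw [Finset.sum_comm]
      refine Finset.sum_congr rfl fun i _ => ?_
      rw [map_sum, LinearMap.sum_apply]
      refine Finset.sum_congr rfl fun v _ => ?_
      rw [map_smul, LinearMap.smul_apply]
  have h1 : IsSum s r (∑ i, s (mn z (e i)) (mn z (f i)) + (∑ i, s (p i) (mn z (e i)) + ∑ i, s (q i) (mn z (f i)))) := by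
    refine ⟨fun i => mn z (e i) + q i, fun i => mn z (f i) + p i, ?_⟩
    rw [← Finset.sum_add_distrib, ← Finset.sum_add_distrib]
    refine Finset.sum_congr rfl fun i _ => ?_
    simp only [map_add, LinearMap.add_apply]
    rw [hH _ (hq i) _ (hp i), add_zero, symm_of_alt s hs (p i) (mn z (e i))]
    abel
  have h2 : IsSum s (Module.finrank F2 C') (∑ j, s (t j) (mn z (bC j : I → F2))) := ⟨_, _, rfl⟩
  have h3 := h1.add h2
  rw [hexp, ← add_assoc]
  convert h3 using 1
  omega

end

end Pool.Agent.HX84.PI
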