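import Mathlib

/-! Quadratic symbols of the coefficients of diagonal forms with large totally isotropic subspaces. -/

set_option autoImplicit false
set_option linter.all false

namespace Pool.Agent.HX84.PI

/-- the formal properties of quadratic symbols if `-1` is a square -/
structure Quad (K : Type*) {B : Type*} [Field K] [CommGroup B] (s : Kˣ →* Kˣ →* B) : Prop where
  sq : ∀ a b, s a (b ^ 2) = 1
  symm : ∀ a b, s a b = s b a
  self : ∀ a, s a a = 1
  st : ∀ a b : Kˣ, (a : K) + b = 1 → s a b = 1

/-- the product of the symbols of the pairs of members of a list -/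
def hh (K : Type*) {B : Type*} [Field K] [CommGroup B] (s : Kˣ →* Kˣ →* B) : List Kˣ → B
  | [] => 1
  | a :: l => s a l.prod * hh K s l

section

variable {K B : Type*} [Field K] [CommGroup B] {s : Kˣ →* Kˣ →* B}

theorem Quad.tors (h : Quad K s) (a b : Kˣ) : s a b * s a b = 1 := by
  rw [← map_mul, ← pow_two, h.sq]

theorem Quad.inv (h : Quad K s) (a b : Kˣ) : (s a b)⁻¹ = s a b :=
  inv_eq_of_mul_eq_one_left (h.tors a b)

theorem Quad.mul_sq (h : Quad K s) (a b c : Kˣ) : s a (b * c ^ 2) = s a b := by
  rw [map_mul, h.sq, mul_one]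

theorem Quad.sq_left (h : Quad K s) (a b : Kˣ) : s (a ^ 2) b = 1 := by
  rw [h.symm, h.sq]

theorem Quad.add (h : Quad K s) (a b e : Kˣ) (hab : (a : K) + b = e) : s a b = s (a * b) e := by
  have h1 : s (a * e⁻¹) (b * e⁻¹) = 1 := by
    apply h.st
    rw [Units.val_mul, Units.val_mul, ← add_mul, hab, Units.mul_inv]
  simp only [map_mul, MonoidHom.mul_apply, map_inv, MonoidHom.inv_apply, h.inv, h.self] at h1
  rw [map_mul, MonoidHom.mul_apply]
  rw [h.symm e b, inv_one, mul_one, h.inv] at h1
  have h2 := h.tors a e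
  have h3 := h.tors b e
  calc s a b = (s a b * s b e * s a e) * (s a e * s b e) := by
        calc s a b = s a b * (s a e * s a e) * (s b e * s b e) := by rw [h2, h3, mul_one, mul_one]
          _ = _ := by simp only [mul_assoc, mul_comm, mul_left_comm]
    _ = s a e * s b e := by
      have : s a b * s b e * s a e = 1 := h1
      rw [this, one_mul]

theorem hh_perm (h : Quad K s) {l l' : List Kˣ} (hp : l.Perm l') : hh K s l = hh K s l' := by
  induction hp with
  | nil => rfl
  | cons x hp ih => rw [hh, hh, ih, hp.prod_eq]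
  | swap x y l =>
    simp only [hh, List.prod_cons, map_mul]
    rw [h.symm y x]
    simp only [mul_assoc, mul_comm, mul_left_comm]
  | trans _ _ ih1 ih2 => rw [ih1, ih2]

/-- equivalence of two entries -/
theorem hh_two (h : Quad K s) (a b a' b' : Kˣ) (l : List Kˣ) (c : Kˣ) (hc : a * b = a' * b' * c ^ 2)
    (h' : s a b = s a' b') : hh K s (a :: b :: l) = hh K s (a' :: b' :: l) := by
  simp only [hh, List.prod_cons, map_mul]
  have h1 : s a l.prod * s b l.prod = s a' l.prod * s b' l.prod := by
    rw [← MonoidHom.mul_apply, ← map_mul, hc, map_mul, MonoidHom.mul_apply, h.sq_left, mul_one, map_mul,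
      MonoidHom.mul_apply]
  calc s a b * s a l.prod * (s b l.prod * hh K s l) = s a b * (s a l.prod * s b l.prod) * hh K s l := by
        simp only [mul_assoc]
    _ = _ := by rw [h', h1]; simp only [mul_assoc]

/-- all pairings of the columns vanish -/
def Rel {R : ℕ} (l : List (Kˣ × (Fin R → K))) : Prop :=
  ∀ ρ σ : Fin R → K, (l.map fun p => (p.1 : K) * (dotProduct ρ p.2) * (dotProduct σ p.2)).sum = 0

/-- the rank of the columns -/
noncomputable def rk {R : ℕ} (l : List (Kˣ × (Fin R → K))) : ℕ :=
  Module.finrank K (Submodule.span K {c | ∃ p ∈ l, p.2 = c})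

theorem Rel.perm {R : ℕ} {l l' : List (Kˣ × (Fin R → K))} (h : Rel l) (hp : l.Perm l') : Rel l' := by
  intro ρ σ
  rw [← h ρ σ]
  exact (hp.map _).sum_eq.symm

theorem rk_perm {R : ℕ} {l l' : List (Kˣ × (Fin R → K))} (hp : l.Perm l') : rk l = rk l' := by
  rw [rk, rk]
  have : {c | ∃ p ∈ l, p.2 = c} = {c | ∃ p ∈ l', p.2 = c} := by
    ext c
    simp only [Set.mem_setOf_eq, hp.mem_iff]
  rw [this]

theorem extract {α : Type*} (P : α → Bool) (l : List α) (n : ℕ) (h : l.countP P = n + 1) :
    ∃ p r, P p = true ∧ l.Perm (p :: r) ∧ r.countP P = n := by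
  have h0 : 0 < l.countP P := by omega
  obtain ⟨p, hp, hP⟩ := List.countP_pos_iff.1 h0
  classical
  refine ⟨p, l.erase p, hP, List.perm_cons_erase hp, ?_⟩
  have h1 := (List.perm_cons_erase hp).countP_eq P
  rw [List.countP_cons, if_pos hP] at h1
  omega

theorem rk_le_of_mem {R : ℕ} {l l' : List (Kˣ × (Fin R → K))}
    (h : ∀ p ∈ l, p.2 ∈ Submodule.span K {c | ∃ p ∈ l', p.2 = c}) : rk l ≤ rk l' := by
  apply Submodule.finrank_mono
  rw [Submodule.span_le]
  rintro c ⟨p, hp, rfl⟩
  exact h p hp

/-- the change of two orthogonal basis vectors -/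
theorem move {R : ℕ} (h : Quad K s) (ρ : Fin R → K) (p1 p2 : Kˣ × (Fin R → K)) (l : List (Kˣ × (Fin R → K)))
    (hv1 : dotProduct ρ p1.2 ≠ 0) (hv2 : dotProduct ρ p2.2 ≠ 0)
    (he : (p1.1 : K) * (dotProduct ρ p1.2) ^ 2 + p2.1 * (dotProduct ρ p2.2) ^ 2 ≠ 0) :
    ∃ q1 q2 : Kˣ × (Fin R → K), dotProduct ρ q1.2 ≠ 0 ∧ dotProduct ρ q2.2 = 0 ∧
      (Rel (p1 :: p2 :: l) → Rel (q1 :: q2 :: l)) ∧ rk (p1 :: p2 :: l) ≤ rk (q1 :: q2 :: l) ∧
      hh K s ((p1 :: p2 :: l).map Prod.fst) = hh K s ((q1 :: q2 :: l).map Prod.fst) := by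
  obtain ⟨u1, c1⟩ := p1
  obtain ⟨u2, c2⟩ := p2
  simp only at hv1 hv2 he
  set v1 := dotProduct ρ c1 with hv1d
  set v2 := dotProduct ρ c2 with hv2d
  set e : K := (u1 : K) * v1 ^ 2 + u2 * v2 ^ 2 with hed
  set ε : Kˣ := Units.mk0 e he with hε
  refine ⟨(ε, e⁻¹ • ((u1 * v1) • c1 + (u2 * v2) • c2)), (u1 * u2 * ε, e⁻¹ • (v2 • c1 - v1 • c2)), ?_, ?_, ?_, ?_, ?_⟩
  · simp only [dotProduct_smul, dotProduct_add, smul_eq_mul, ← hv1d, ← hv2d]
    have : e⁻¹ * (↑u1 * v1 * v1 + ↑u2 * v2 * v2) = 1 := by
      rw [show (↑u1 * v1 * v1 + ↑u2 * v2 * v2 : K) = e by rw [hed]; ring, inv_mul_cancel₀ he]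
    rw [this]
    exact one_ne_zero
  · simp only [dotProduct_smul, dotProduct_sub, smul_eq_mul, ← hv1d, ← hv2d]
    ring
  · intro hR ρ' σ'
    rw [← hR ρ' σ']
    simp only [List.map_cons, List.sum_cons, dotProduct_smul, dotProduct_sub, dotProduct_add, smul_eq_mul,
      Units.val_mul, hε, Units.val_mk0]
    rw [← add_assoc, ← add_assoc]
    congr 1
    field_simp
    rw [hed]
    ring
  · apply rk_le_of_mem
    intro p hp
    have m1 : e⁻¹ • ((u1 * v1) • c1 + (u2 * v2) • c2) ∈ Submodule.span K {c | ∃ p ∈
        (ε, e⁻¹ • ((u1 * v1) • c1 + (u2 * v2) • c2)) :: (u1 * u2 * ε, e⁻¹ • (v2 • c1 - v1 • c2)) :: l, p.2 = c} :=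
      Submodule.subset_span ⟨(ε, e⁻¹ • ((u1 * v1) • c1 + (u2 * v2) • c2)), List.mem_cons_self, rfl⟩
    have m2 : e⁻¹ • (v2 • c1 - v1 • c2) ∈ Submodule.span K {c | ∃ p ∈
        (ε, e⁻¹ • ((u1 * v1) • c1 + (u2 * v2) • c2)) :: (u1 * u2 * ε, e⁻¹ • (v2 • c1 - v1 • c2)) :: l, p.2 = c} :=
      Submodule.subset_span ⟨(u1 * u2 * ε, e⁻¹ • (v2 • c1 - v1 • c2)), by simp, rfl⟩
    simp only [List.mem_cons] at hp
    rcases hp with rfl | rfl | hp
    · have e1 : c1 = v1 • (e⁻¹ • ((u1 * v1) • c1 + (u2 * v2) • c2)) + (u2 * v2) • (e⁻¹ • (v2 • c1 - v1 • c2)) := by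
        funext j
        simp only [Pi.add_apply, Pi.smul_apply, Pi.sub_apply, smul_eq_mul]
        field_simp
        rw [hed]
        ring
      have hm := Submodule.add_mem _ (Submodule.smul_mem _ v1 m1) (Submodule.smul_mem _ (u2 * v2) m2)
      rw [← e1] at hm
      exact hm
    · have e1 : c2 = v2 • (e⁻¹ • ((u1 * v1) • c1 + (u2 * v2) • c2)) - (u1 * v1) • (e⁻¹ • (v2 • c1 - v1 • c2)) := by
        funext j
        simp only [Pi.add_apply, Pi.smul_apply, Pi.sub_apply, smul_eq_mul]
        field_simp
        rw [hed]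
        ring
      have hm := Submodule.sub_mem _ (Submodule.smul_mem _ v2 m1) (Submodule.smul_mem _ (u1 * v1) m2)
      rw [← e1] at hm
      exact hm
    · exact Submodule.subset_span ⟨p, by simp [hp], rfl⟩
  · simp only [List.map_cons]
    apply hh_two h _ _ _ _ _ ε⁻¹
    · rw [inv_pow]
      have : ε * (u1 * u2 * ε) * (ε ^ 2)⁻¹ = u1 * u2 * (ε ^ 2 * (ε ^ 2)⁻¹) := by rw [pow_two]; simp only [mul_assoc, mul_comm, mul_left_comm]
      rw [this, mul_inv_cancel, mul_one]
    · have h1 := h.add (u1 * (Units.mk0 v1 hv1) ^ 2) (u2 * (Units.mk0 v2 hv2) ^ 2) ε (by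
        simp only [Units.val_mul, Units.val_pow_eq_pow_val, Units.val_mk0, hε]
        rfl)
      have hL : ∀ x y : Kˣ, s (u1 * x ^ 2) (u2 * y ^ 2) = s u1 u2 := fun x y => by
        rw [h.mul_sq, h.symm, h.mul_sq, h.symm]
      rw [hL] at h1
      have e2 : u1 * (Units.mk0 v1 hv1) ^ 2 * (u2 * (Units.mk0 v2 hv2) ^ 2) = u1 * u2 * (Units.mk0 v1 hv1 * Units.mk0 v2 hv2) ^ 2 := by
        rw [mul_pow]; simp only [mul_assoc, mul_comm, mul_left_comm]
      rw [e2, h.symm _ ε, h.mul_sq] at h1
      rw [h1, map_mul (s ε) (u1 * u2) ε, h.self, mul_one]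

/-- **Diagonal forms with large totally isotropic subspaces have trivial symbol product.** -/
theorem iso_list (h : Quad K s) (h2 : (2 : K) ≠ 0) (hneg : ∃ j : K, j * j = -1) {R : ℕ} :
    ∀ (N : ℕ) (l : List (Kˣ × (Fin R → K))), l.length = N → Rel l → l.length ≤ 2 * rk l + 1 →
      hh K s (l.map Prod.fst) = 1 := by
  intro N
  induction N using Nat.strong_induction_on with
  | _ N IH =>
  intro l hl hR hlen
  by_cases hrk : ∃ p ∈ l, p.2 ≠ 0
  · obtain ⟨p0, hp0, hne⟩ := hrk
    obtain ⟨j, hj⟩ : ∃ j, p0.2 j ≠ 0 := by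
      by_contra hcon
      push Not at hcon
      exact hne (funext hcon)
    classical
    let ρ : Fin R → K := Pi.single j 1
    let P : Kˣ × (Fin R → K) → Bool := fun p => decide (dotProduct ρ p.2 ≠ 0)
    have hP : ∀ p, P p = true ↔ dotProduct ρ p.2 ≠ 0 := fun p => by simp [P]
    have hcount : 0 < l.countP P := by
      rw [List.countP_pos_iff]
      exact ⟨p0, hp0, by rw [hP, single_one_dotProduct]; exact hj⟩
    have inner : ∀ (n : ℕ) (l : List (Kˣ × (Fin R → K))), l.countP P = n + 1 → l.length = N → Rel l →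
        l.length ≤ 2 * rk l + 1 → hh K s (l.map Prod.fst) = 1 := by
      intro n
      induction n with
      | zero =>
        intro l hc hl hR hlen
        exfalso
        obtain ⟨p, r, hp, hperm, hr⟩ := extract P l 0 hc
        have h1 := (hR.perm hperm) ρ ρ
        rw [List.countP_eq_zero] at hr
        have h3 : (r.map fun p => (p.1 : K) * (dotProduct ρ p.2) * (dotProduct ρ p.2)) = r.map fun _ => 0 := by
          apply List.map_congr_left
          intro q hq
          have := hr q hq
          rw [hP, not_not] at this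
          rw [this, mul_zero]
        rw [List.map_cons, List.sum_cons, h3] at h1
        simp only [List.map_const', List.sum_replicate, smul_zero, add_zero] at h1
        have h4 := (hP p).1 hp
        have h5 := p.1.ne_zero
        exact h4 (by simpa [h5] using h1)
      | succ n ih =>
        intro l hc hl hR hlen
        obtain ⟨p1, r1, hp1, hperm1, hr1⟩ := extract P l (n + 1) hc
        obtain ⟨p2, r2, hp2, hperm2, hr2⟩ := extract P r1 n hr1
        have hperm : l.Perm (p1 :: p2 :: r2) := hperm1.trans (hperm2.cons p1)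
        rw [hP] at hp1 hp2
        rcases Nat.eq_zero_or_pos n with rfl | hn
        · -- a hyperbolic plane
          have hR' := hR.perm hperm
          rw [List.countP_eq_zero] at hr2
          have hr0 : ∀ q ∈ r2, dotProduct ρ q.2 = 0 := fun q hq => by
            have := hr2 q hq
            rwa [hP, not_not] at this
          have hσ : ∀ σ : Fin R → K, (p1.1 : K) * (dotProduct ρ p1.2) * (dotProduct σ p1.2) +
              p2.1 * (dotProduct ρ p2.2) * (dotProduct σ p2.2) = 0 := by
            intro σ
            have h1 := hR' ρ σ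
            have h3 : (r2.map fun p => (p.1 : K) * (dotProduct ρ p.2) * (dotProduct σ p.2)) = r2.map fun _ => 0 := by
              apply List.map_congr_left
              intro q hq
              rw [hr0 q hq, mul_zero, zero_mul]
            rw [List.map_cons, List.map_cons, List.sum_cons, List.sum_cons, h3] at h1
            simp only [List.map_const', List.sum_replicate, smul_zero, add_zero] at h1
            exact h1
          have hu1 := p1.1.ne_zero
          have hu2 := p2.1.ne_zero
          set v1 := dotProduct ρ p1.2 with hv1d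
          set v2 := dotProduct ρ p2.2 with hv2d
          have hκ : ∀ σ : Fin R → K, dotProduct σ p2.2 = -((p1.1 : K) * v1 / (p2.1 * v2)) * dotProduct σ p1.2 := by
            intro σ
            have h1 := hσ σ
            field_simp
            linear_combination h1
          have h00 : (p1.1 : K) * v1 ^ 2 + p2.1 * v2 ^ 2 = 0 := by
            have h1 := hσ ρ
            rw [← hv1d, ← hv2d] at h1
            linear_combination h1
          have hrel : Rel r2 := by
            intro ρ' σ'
            have h1 := hR' ρ' σ'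
            rw [List.map_cons, List.map_cons, List.sum_cons, List.sum_cons, hκ ρ', hκ σ'] at h1
            have h3 : (p1.1 : K) * (dotProduct ρ' p1.2) * (dotProduct σ' p1.2) +
                p2.1 * (-((p1.1 : K) * v1 / (p2.1 * v2)) * dotProduct ρ' p1.2) *
                  (-((p1.1 : K) * v1 / (p2.1 * v2)) * dotProduct σ' p1.2) = 0 := by
              field_simp
              linear_combination ((p1.1 : K) * (dotProduct ρ' p1.2) * (dotProduct σ' p1.2)) * h00
            rw [← add_assoc, h3, zero_add] at h1
            exact h1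
          have hrk2 : rk l ≤ rk r2 + 1 := by
            rw [rk_perm hperm]
            have hle : Submodule.span K {c | ∃ p ∈ p1 :: p2 :: r2, p.2 = c} ≤
                Submodule.span K {p1.2} ⊔ Submodule.span K {c | ∃ p ∈ r2, p.2 = c} := by
              rw [Submodule.span_le]
              rintro c ⟨p, hp, rfl⟩
              simp only [List.mem_cons] at hp
              rcases hp with rfl | rfl | hp
              · exact (le_sup_left : Submodule.span K {p.2} ≤ _) (Submodule.mem_span_singleton_self _)
              · refine (le_sup_left : Submodule.span K {p1.2} ≤ _) (Submodule.mem_span_singleton.2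
                  ⟨-((p1.1 : K) * v1 / (p.1 * v2)), ?_⟩)
                funext j
                have h1 := hκ (Pi.single j 1)
                rw [single_one_dotProduct, single_one_dotProduct] at h1
                rw [Pi.smul_apply, smul_eq_mul, h1]
              · exact (le_sup_right : Submodule.span K {c | ∃ p ∈ r2, p.2 = c} ≤ _)
                  (Submodule.subset_span ⟨p, hp, rfl⟩)
            calc rk (p1 :: p2 :: r2) ≤ Module.finrank K ↥(Submodule.span K {p1.2} ⊔
                  Submodule.span K {c | ∃ p ∈ r2, p.2 = c}) := Submodule.finrank_mono hle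
              _ ≤ Module.finrank K (Submodule.span K {p1.2}) +
                  Module.finrank K (Submodule.span K {c | ∃ p ∈ r2, p.2 = c}) := Submodule.finrank_add_le_finrank_add_finrank _ _
              _ ≤ 1 + rk r2 := by
                  apply Nat.add_le_add_right
                  have := finrank_span_le_card (R := K) ({p1.2} : Set (Fin R → K))
                  simpa using this
              _ = rk r2 + 1 := add_comm _ _
          have hlen2 : l.length = r2.length + 2 := by
            rw [hperm.length_eq, List.length_cons, List.length_cons]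
          have h5 := IH r2.length (by omega) r2 rfl hrel (by omega)
          rw [hh_perm h (hperm.map Prod.fst), List.map_cons, List.map_cons, hh, hh, h5, mul_one]
          obtain ⟨j, hj⟩ := hneg
          have hv1 : v1 ≠ 0 := hp1
          have hv2 : v2 ≠ 0 := hp2
          have hj0 : j ≠ 0 := by
            rintro rfl
            rw [zero_mul] at hj
            exact neg_ne_zero.2 one_ne_zero hj.symm
          have hw0 : j * v1 / v2 ≠ 0 := div_ne_zero (mul_ne_zero hj0 hv1) hv2
          have e1 : p2.1 = p1.1 * (Units.mk0 _ hw0) ^ 2 := by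
            ext
            rw [Units.val_mul, Units.val_pow_eq_pow_val, Units.val_mk0]
            have : (j * v1 / v2) ^ 2 = - (v1 ^ 2 / v2 ^ 2) := by
              rw [div_pow, mul_pow, pow_two j, hj]; ring
            rw [this]
            field_simp
            linear_combination h00
          rw [e1, List.prod_cons, map_mul, h.mul_sq, h.self, one_mul]
          have e2 : s (p1.1 * (Units.mk0 _ hw0) ^ 2) (List.map Prod.fst r2).prod = s p1.1 (List.map Prod.fst r2).prod := by
            rw [map_mul, MonoidHom.mul_apply, h.sq_left, mul_one]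
          rw [e2, h.tors]
        · -- three non-zero entries
          obtain ⟨m, rfl⟩ : ∃ m, n = m + 1 := ⟨n - 1, by omega⟩
          obtain ⟨p3, r3, hp3, hperm3, hr3⟩ := extract P r2 m hr2
          rw [hP] at hp3
          have key : ∀ a b c : Kˣ × (Fin R → K), dotProduct ρ a.2 ≠ 0 → dotProduct ρ b.2 ≠ 0 →
              dotProduct ρ c.2 ≠ 0 → l.Perm (a :: b :: c :: r3) →
              (a.1 : K) * (dotProduct ρ a.2) ^ 2 + b.1 * (dotProduct ρ b.2) ^ 2 ≠ 0 →
              hh K s (l.map Prod.fst) = 1 := by
            intro a b c ha hb hc hp he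
            obtain ⟨q1, q2, hq1, hq2, hq3, hq4, hq5⟩ := move h ρ a b (c :: r3) ha hb he
            rw [hh_perm h (hp.map Prod.fst), hq5]
            have hlq : (q1 :: q2 :: c :: r3).length = l.length := by
              rw [hp.length_eq]; simp
            apply ih
            · have e1 : P q1 = true := (hP q1).2 hq1
              have e2 : P q2 = false := by
                rw [Bool.eq_false_iff, Ne, hP, not_not]; exact hq2
              have e3 : P c = true := (hP c).2 hc
              rw [List.countP_cons, List.countP_cons, List.countP_cons, hr3, e1, e2, e3]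
              simp
            · rw [hlq, hl]
            · exact hq3 (hR.perm hp)
            · rw [hlq]
              rw [rk_perm hp] at hlen
              omega
          have hpm : l.Perm (p1 :: p2 :: p3 :: r3) := hperm.trans ((hperm3.cons p2).cons p1)
          by_cases h12 : (p1.1 : K) * (dotProduct ρ p1.2) ^ 2 + p2.1 * (dotProduct ρ p2.2) ^ 2 = 0
          · by_cases h13 : (p1.1 : K) * (dotProduct ρ p1.2) ^ 2 + p3.1 * (dotProduct ρ p3.2) ^ 2 = 0
            · refine key p2 p3 p1 hp2 hp3 hp1 (hpm.trans ?_) ?_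
              · exact (List.Perm.swap p2 p1 _).trans ((List.Perm.swap p3 p1 _).cons p2)
              · intro h23
                have h6 : (2 : K) * ((p1.1 : K) * (dotProduct ρ p1.2) ^ 2) = 0 := by
                  linear_combination h12 + h13 - h23
                have h7 := (mul_eq_zero.1 h6).resolve_left h2
                exact hp1 (pow_eq_zero_iff (two_ne_zero) |>.1 ((mul_eq_zero.1 h7).resolve_left p1.1.ne_zero))
            · exact key p1 p3 p2 hp1 hp3 hp2 (hpm.trans ((List.Perm.swap p3 p2 _).cons p1)) h13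
          · exact key p1 p2 p3 hp1 hp2 hp3 hpm h12
    exact inner (l.countP P - 1) l (by omega) hl hR hlen
  · push Not at hrk
    have h0 : rk l = 0 := by
      rw [rk, Submodule.span_eq_bot.2, finrank_bot]
      rintro c ⟨p, hp, rfl⟩
      exact hrk p hp
    rw [h0] at hlen
    match l, hlen with
    | [], _ => rfl
    | [p], _ => simp [hh]
    | _ :: _ :: _, hlen => simp at hlen

end

end Pool.Agent.HX84.PI
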