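import Mathlib
import Pool.Agent.HX84.PI.Iso

/-! The values of the first Mumford polynomial at the branch points: their product is a square. -/

set_option autoImplicit false
set_option linter.all false

namespace Pool.Agent.HX84.PI

open Polynomial

section

variable {K : Type*} [Field K]

theorem coprime_of_eval {N : ℕ} (a : Fin N → K) (U : K[X]) (hne : ∀ i, U.eval (a i) ≠ 0) :
    IsCoprime U (∏ i, (X - C (a i))) := by
  apply IsCoprime.prod_right
  intro i _
  apply IsCoprime.symm
  rw [(irreducible_X_sub_C (a i)).coprime_iff_not_dvd, dvd_iff_isRoot]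
  exact hne i

theorem coprime_UY {N : ℕ} (a : Fin N → K) (U Y : K[X]) (hne : ∀ i, U.eval (a i) ≠ 0)
    (hdvd : U ∣ Y ^ 2 - ∏ i, (X - C (a i))) : IsCoprime U Y := by
  obtain ⟨W, hW⟩ := hdvd
  have h1 := coprime_of_eval a U hne
  have h2 : ∏ i, (X - C (a i)) = Y ^ 2 + U * (-W) := by linear_combination -hW
  rw [h2, IsCoprime.add_mul_left_right_iff] at h1
  exact (IsCoprime.pow_right_iff (by norm_num)).1 h1

theorem prod_eval_sq {N : ℕ} (a : Fin N → K) (U Y : K[X]) (hU : U.Monic) (hneg : ∃ j : K, j * j = -1)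
    (hdvd : U ∣ Y ^ 2 - ∏ i, (X - C (a i))) : ∃ c : K, ∏ i, U.eval (a i) = c ^ 2 := by
  obtain ⟨W, hW⟩ := hdvd
  obtain ⟨j, hj⟩ := hneg
  set m := U.natDegree with hm
  set f : K[X] := ∏ i, (X - C (a i)) with hf
  have hstab : ∀ (g : K[X]) (n : ℕ), g.natDegree ≤ n → resultant U g m n = resultant U g m g.natDegree := by
    intro g n hn
    obtain ⟨k, rfl⟩ := Nat.exists_eq_add_of_le hn
    rw [resultant_add_right_deg _ _ _ _ _ le_rfl]
    have : U.coeff m = 1 := hU
    rw [this, one_pow, one_mul]
  let n := f.natDegree + (Y.natDegree + Y.natDegree) + (W.natDegree + m)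
  have h1 : resultant U (Y * Y) m n = (resultant U Y m Y.natDegree) ^ 2 := by
    rw [hstab (Y * Y) n ((natDegree_mul_le).trans (by simp only [n]; omega)),
      ← hstab (Y * Y) (Y.natDegree + Y.natDegree) natDegree_mul_le, resultant_mul_right _ _ _ _ le_rfl, pow_two]
  have h2 : resultant U (Y * Y) m n = resultant U f m n := by
    have e1 : Y * Y = f + U * W := by linear_combination hW
    rw [e1]
    exact resultant_add_mul_right _ _ _ _ _ (by simp only [n]; omega) le_rfl
  have h3 : resultant U f m n = (-1) ^ (m * N) * ∏ i, U.eval (a i) := by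
    rw [hstab f n (by simp only [n]; omega), hf, resultant_prod_right _ _ _ _ le_rfl (by simp)]
    simp only [natDegree_X_sub_C, resultant_X_sub_C_right _ _ _ le_rfl]
    rw [Finset.prod_mul_distrib, Finset.prod_const, Finset.card_univ, Fintype.card_fin, ← pow_mul]
  refine ⟨j ^ (m * N) * resultant U Y m Y.natDegree, ?_⟩
  rw [mul_pow, ← h1, h2, h3, ← pow_mul, mul_comm (m * N) 2, pow_mul, pow_two j, hj, ← mul_assoc, ← mul_pow]
  norm_num

end

end Pool.Agent.HX84.PI
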