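import Mathlib
import Pool.Agent.HX84.PI.Res

/-! The symbols of the values of a Mumford polynomial at the branch points. -/

set_option autoImplicit false
set_option linter.all false

namespace Pool.Agent.HX84.PI

open Polynomial

section

variable {K : Type*} [Field K]

theorem euler {N : ℕ} (a : Fin N → K) (ha : Function.Injective a) (P : K[X]) (hP : P.natDegree + 1 < N) :
    ∑ i, P.eval (a i) / ∏ j ∈ Finset.univ.erase i, (a i - a j) = 0 := by
  have h1 := Lagrange.coeff_eq_sum (s := Finset.univ) (v := a) ha.injOn (P := P) (by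
    rw [Finset.card_univ, Fintype.card_fin]
    refine lt_of_le_of_lt degree_le_natDegree ?_
    exact_mod_cast (by omega : P.natDegree < N))
  rw [← h1, Finset.card_univ, Fintype.card_fin]
  exact coeff_eq_zero_of_natDegree_lt (by omega)

/-- the polynomial with given coefficients in a range of exponents -/
noncomputable def pl {R : ℕ} (A B : ℕ) (ρ : Fin R → K) : K[X] :=
  ∑ r : Fin R, if A ≤ (r : ℕ) ∧ (r : ℕ) < B then C (ρ r) * X ^ ((r : ℕ) - A) else 0

theorem pl_natDegree {R : ℕ} (A B : ℕ) (ρ : Fin R → K) : (pl A B ρ).natDegree ≤ B - A - 1 := by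
  rw [pl]
  apply natDegree_sum_le_of_forall_le
  intro r _
  split_ifs with h
  · exact (natDegree_C_mul_X_pow_le _ _).trans (by omega)
  · simp

theorem pl_zero {R : ℕ} (A B : ℕ) (hAB : B ≤ A) (ρ : Fin R → K) : pl A B ρ = 0 := by
  rw [pl]
  apply Finset.sum_eq_zero
  intro r _
  rw [if_neg]
  omega

theorem pl_coeff {R : ℕ} (A B : ℕ) (ρ : Fin R → K) (r : Fin R) (h1 : A ≤ (r : ℕ)) (h2 : (r : ℕ) < B) :
    (pl A B ρ).coeff ((r : ℕ) - A) = ρ r := by
  rw [pl, finset_sum_coeff, Finset.sum_eq_single r]
  · rw [if_pos ⟨h1, h2⟩, coeff_C_mul, coeff_X_pow, if_pos rfl, mul_one]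
  · intro r' _ hr'
    split_ifs with h
    · rw [coeff_C_mul, coeff_X_pow, if_neg, mul_zero]
      intro h3
      apply hr'
      ext
      omega
    · simp
  · intro h; exact absurd (Finset.mem_univ _) h

/-- the columns -/
noncomputable def col (g A : ℕ) (x v : K) : Fin g → K := fun r => if (r : ℕ) < A then x ^ (r : ℕ) else x ^ ((r : ℕ) - A) * v

theorem dot_col (g A : ℕ) (ρ : Fin g → K) (x v : K) :
    dotProduct ρ (col g A x v) = (pl 0 A ρ).eval x + (pl A g ρ).eval x * v := by
  rw [pl, pl, eval_finset_sum, eval_finset_sum, Finset.sum_mul, ← Finset.sum_add_distrib, dotProduct]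
  refine Finset.sum_congr rfl fun r _ => ?_
  rw [col]
  have hr := r.2
  by_cases h : (r : ℕ) < A
  · rw [if_pos h, if_pos ⟨Nat.zero_le _, h⟩, if_neg (by omega)]
    simp
  · rw [if_neg h, if_neg (by omega), if_pos ⟨by omega, hr⟩]
    simp
    ring

variable {B : Type*} [CommGroup B] {s : Kˣ →* Kˣ →* B}

theorem hh_sq (h : Quad K s) : ∀ (l l' : List Kˣ), List.Forall₂ (fun x y => ∃ c : Kˣ, x = y * c ^ 2) l l' →
    (∃ c : Kˣ, l.prod = l'.prod * c ^ 2) ∧ hh K s l = hh K s l' := by
  intro l l' hl
  induction hl with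
  | nil => exact ⟨⟨1, by simp⟩, rfl⟩
  | @cons x y l l' hxy _ ih =>
    obtain ⟨c, hc⟩ := hxy
    obtain ⟨⟨d, hd⟩, ih2⟩ := ih
    refine ⟨⟨c * d, ?_⟩, ?_⟩
    · rw [List.prod_cons, List.prod_cons, hc, hd, mul_pow]
      simp only [mul_assoc, mul_comm, mul_left_comm]
    · rw [hh, hh, ih2, hd, hc, h.mul_sq, map_mul, MonoidHom.mul_apply, h.sq_left, mul_one]

/-- **The symbol product of the values of a Mumford polynomial.** -/
theorem hh_mumford (h : Quad K s) (h2 : (2 : K) ≠ 0) (hneg : ∃ j : K, j * j = -1) {g N : ℕ} (hN : N = 2 * g + 1)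
    (a : Fin N → K) (ha : Function.Injective a) (hsq : ∀ i j, i ≠ j → ∃ c : K, a i - a j = c ^ 2)
    (U Y : K[X]) (hU : U.Monic) (hm : U.natDegree ≤ g + 1)
    (hdvd : U ∣ Y ^ 2 - ∏ i, (X - C (a i))) (hne : ∀ i, U.eval (a i) ≠ 0) :
    hh K s (List.ofFn fun i => Units.mk0 (U.eval (a i)) (hne i)) = 1 := by
  classical
  rcases Nat.eq_zero_or_pos g with hg0 | hg0
  · subst hg0
    subst hN
    simp [hh]
  -- reduce `Y`
  wlog hY : U.natDegree = 0 ∧ Y = 0 ∨ Y.natDegree < U.natDegree generalizing Y with H
  · apply H (Y %ₘ U)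
    · have e1 : (Y %ₘ U) ^ 2 - ∏ i, (X - C (a i)) = (Y ^ 2 - ∏ i, (X - C (a i))) - U * ((Y /ₘ U) * (Y + (Y %ₘ U))) := by
        have h3 := modByMonic_add_div Y U
        linear_combination ((Y %ₘ U) + Y) * h3
      rw [e1]
      exact dvd_sub hdvd (dvd_mul_right _ _)
    · by_cases hU0 : U.natDegree = 0
      · left
        refine ⟨hU0, ?_⟩
        have : U = 1 := hU.natDegree_eq_zero.mp hU0
        rw [this, modByMonic_one]
      · right
        exact natDegree_modByMonic_lt Y hU (fun h1 => hU0 (by rw [h1, natDegree_one]))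
  obtain ⟨W, hW⟩ := hdvd
  set m := U.natDegree with hmdef
  set f : K[X] := ∏ i, (X - C (a i)) with hf
  have hfdeg : f.natDegree = N := by
    rw [hf, natDegree_prod _ _ (fun i _ => X_sub_C_ne_zero _)]
    simp
  have hfm : f.Monic := monic_prod_of_monic _ _ fun i _ => monic_X_sub_C _
  have hU0 : U ≠ 0 := hU.ne_zero
  have hYY : (Y ^ 2).natDegree ≤ 2 * g := by
    refine natDegree_pow_le.trans ?_
    rcases hY with ⟨_, rfl⟩ | hY
    · simp
    · omega
  have hWdeg : W.natDegree + m = N := by
    have h3 : (Y ^ 2 - f).natDegree = N := by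
      rw [← hfdeg]
      apply natDegree_sub_eq_right_of_natDegree_lt
      rw [hfdeg]; omega
    have hW0 : W ≠ 0 := by
      rintro rfl
      rw [mul_zero] at hW
      rw [hW, natDegree_zero] at h3
      omega
    rw [hW, natDegree_mul hU0 hW0] at h3
    omega
  -- the data
  set A := (N - m) / 2 with hA
  have hAg : A + m / 2 = g := by omega
  have hprod : ∀ i, ∃ c : Kˣ, ((∏ j ∈ Finset.univ.erase i, (a i - a j))⁻¹ : K) = (c : K) ^ 2 := by
    intro i
    choose c hc using hsq
    have hne' : ∀ j ∈ Finset.univ.erase i, a i - a j ≠ 0 := by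
      intro j hj h0
      exact (Finset.mem_erase.1 hj).1 (ha (sub_eq_zero.1 h0)).symm
    have h3 : ∃ d : K, (∏ j ∈ Finset.univ.erase i, (a i - a j) : K) = d ^ 2 := by
      refine ⟨∏ j ∈ (Finset.univ.erase i).attach, c i j.1 (Finset.ne_of_mem_erase j.2).symm, ?_⟩
      rw [← Finset.prod_pow, ← Finset.prod_attach]
      exact Finset.prod_congr rfl fun j _ => hc i j.1 _
    obtain ⟨d, hd⟩ := h3
    have hd0 : d ≠ 0 := by
      rintro rfl
      rw [zero_pow two_ne_zero] at hd
      exact Finset.prod_ne_zero_iff.2 hne' hd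
    refine ⟨(Units.mk0 d hd0)⁻¹, ?_⟩
    rw [Units.val_inv_eq_inv_val, Units.val_mk0, hd, inv_pow]
  choose w hw using hprod
  let u : Fin N → Kˣ := fun i => Units.mk0 (U.eval (a i)) (hne i)
  let l : List (Kˣ × (Fin g → K)) :=
    List.ofFn fun i => (u i * (w i) ^ 2, col g A (a i) (Y.eval (a i) / U.eval (a i)))
  have hWi : ∀ i, (Y.eval (a i)) ^ 2 = U.eval (a i) * W.eval (a i) := by
    intro i
    have h3 := congrArg (fun p => eval (a i) p) hW
    simp only [eval_sub, eval_pow, eval_mul] at h3
    rw [hf, eval_prod, Finset.prod_eq_zero (Finset.mem_univ i) (by simp), sub_zero] at h3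
    exact h3
  have hsum : ∀ (F : Kˣ × (Fin g → K) → K), (l.map F).sum =
      ∑ i, F (u i * (w i) ^ 2, col g A (a i) (Y.eval (a i) / U.eval (a i))) := by
    intro F
    rw [List.map_ofFn, List.sum_ofFn]
    rfl
  have hrel : Rel l := by
    intro ρ σ
    rw [hsum]
    set G : K[X] := U * (pl 0 A ρ * pl 0 A σ) + (pl 0 A ρ * pl A g σ + pl A g ρ * pl 0 A σ) * Y +
      (pl A g ρ * pl A g σ) * W with hG
    have h3 : ∀ i, ((u i * (w i) ^ 2 : Kˣ) : K) * dotProduct ρ (col g A (a i) (Y.eval (a i) / U.eval (a i))) *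
        dotProduct σ (col g A (a i) (Y.eval (a i) / U.eval (a i))) =
        G.eval (a i) / ∏ j ∈ Finset.univ.erase i, (a i - a j) := by
      intro i
      rw [dot_col, dot_col, div_eq_mul_inv (G.eval (a i)), hw i, Units.val_mul, Units.val_pow_eq_pow_val]
      simp only [u, Units.val_mk0, hG, eval_add, eval_mul]
      have h4 := hWi i
      have h5 := hne i
      field_simp
      linear_combination ((eval (a i) (pl A g ρ)) * (eval (a i) (pl A g σ))) * h4
    simp only [h3]
    apply euler a ha
    have hd1 : ∀ ρ σ : Fin g → K, (U * (pl 0 A ρ * pl 0 A σ)).natDegree ≤ 2 * g - 1 := by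
      intro ρ σ
      rcases Nat.eq_zero_or_pos A with h0 | h0
      · rw [pl_zero 0 A (by omega)]; simp
      · refine natDegree_mul_le.trans ?_
        have h5 := (natDegree_mul_le (p := pl 0 A ρ) (q := pl 0 A σ))
        have h6 := pl_natDegree 0 A ρ
        have h7 := pl_natDegree 0 A σ
        omega
    have hd2 : ∀ ρ σ : Fin g → K, ((pl 0 A ρ * pl A g σ) * Y).natDegree ≤ 2 * g - 1 := by
      intro ρ σ
      rcases hY with ⟨_, rfl⟩ | hY
      · simp
      · refine natDegree_mul_le.trans ?_
        have h5 := (natDegree_mul_le (p := pl 0 A ρ) (q := pl A g σ))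
        have h6 := pl_natDegree 0 A ρ
        have h7 := pl_natDegree A g σ
        omega
    have hd3 : ((pl A g ρ * pl A g σ) * W).natDegree ≤ 2 * g - 1 := by
      rcases Nat.lt_or_ge m 2 with h0 | h0
      · rw [pl_zero A g (by omega)]; simp
      · refine natDegree_mul_le.trans ?_
        have h5 := (natDegree_mul_le (p := pl A g ρ) (q := pl A g σ))
        have h6 := pl_natDegree A g ρ
        have h7 := pl_natDegree A g σ
        omega
    have hd : G.natDegree ≤ 2 * g - 1 := by
      rw [hG, add_mul]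
      refine natDegree_add_le_of_degree_le (natDegree_add_le_of_degree_le (hd1 ρ σ)
        (natDegree_add_le_of_degree_le (hd2 ρ σ) ?_)) hd3
      rw [mul_comm (pl A g ρ)]
      exact hd2 σ ρ
    omega
  have hrk : g ≤ rk l := by
    have htop : Submodule.span K {c | ∃ p ∈ l, p.2 = c} = ⊤ := by
      by_contra hne'
      obtain ⟨φ, hφ0, hφ⟩ := Submodule.exists_le_ker_of_lt_top _ (lt_top_iff_ne_top.2 hne')
      let ρ : Fin g → K := fun r => φ (Pi.single r 1)
      have hφρ : ∀ c : Fin g → K, φ c = dotProduct ρ c := by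
        intro c
        conv_lhs => rw [pi_eq_sum_univ' c]
        rw [map_sum, dotProduct]
        refine Finset.sum_congr rfl fun r _ => ?_
        rw [map_smul, smul_eq_mul, mul_comm]
      have hz : ∀ i, (pl 0 A ρ).eval (a i) + (pl A g ρ).eval (a i) * (Y.eval (a i) / U.eval (a i)) = 0 := by
        intro i
        rw [← dot_col, ← hφρ]
        have hmem : col g A (a i) (Y.eval (a i) / U.eval (a i)) ∈ Submodule.span K {c | ∃ p ∈ l, p.2 = c} :=
          Submodule.subset_span ⟨(u i * (w i) ^ 2, col g A (a i) (Y.eval (a i) / U.eval (a i))),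
            by simp only [l, List.mem_ofFn]; exact ⟨i, rfl⟩, rfl⟩
        exact LinearMap.mem_ker.1 (hφ hmem)
      have hpoly : pl 0 A ρ * U + pl A g ρ * Y = 0 := by
        have hd : (pl 0 A ρ * U + pl A g ρ * Y).natDegree < N := by
          refine lt_of_le_of_lt (natDegree_add_le _ _) (max_lt ?_ ?_)
          · refine lt_of_le_of_lt natDegree_mul_le ?_
            have h6 := pl_natDegree 0 A ρ
            omega
          · refine lt_of_le_of_lt natDegree_mul_le ?_
            have h6 := pl_natDegree A g ρ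
            rcases hY with ⟨_, rfl⟩ | hY
            · rw [natDegree_zero]; omega
            · omega
        by_contra h0
        have h5 := card_roots' (pl 0 A ρ * U + pl A g ρ * Y)
        have h6 : (Finset.univ.image a).val ≤ (pl 0 A ρ * U + pl A g ρ * Y).roots := by
          rw [Multiset.le_iff_subset (Finset.nodup _)]
          intro x hx
          obtain ⟨i, _, rfl⟩ := Finset.mem_image.1 (Finset.mem_def.2 hx)
          rw [mem_roots h0, IsRoot, eval_add, eval_mul, eval_mul]
          have h7 := hz i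
          have h8 := hne i
          field_simp at h7
          linear_combination h7
        have h7 := Multiset.card_le_card h6
        rw [Finset.card_val, Finset.card_image_of_injective _ ha, Finset.card_univ, Fintype.card_fin] at h7
        omega
      have hcop := coprime_UY a U Y hne ⟨W, hW⟩
      have h5 : U ∣ pl A g ρ := by
        apply hcop.dvd_of_dvd_mul_right
        exact ⟨- pl 0 A ρ, by linear_combination hpoly⟩
      have h6 : pl A g ρ = 0 := by
        rcases Nat.eq_zero_or_pos m with h0 | h0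
        · exact pl_zero A g (by omega) ρ
        · by_contra h7
          have h8 := natDegree_le_of_dvd h5 h7
          have h9 := pl_natDegree A g ρ
          omega
      have h7 : pl 0 A ρ = 0 := by
        rw [h6, zero_mul, add_zero] at hpoly
        exact (mul_eq_zero.1 hpoly).resolve_right hU0
      apply hφ0
      refine LinearMap.ext fun c => ?_
      rw [hφρ]
      have hρ : ρ = 0 := by
        funext r
        by_cases hr : (r : ℕ) < A
        · rw [← pl_coeff 0 A ρ r (Nat.zero_le _) hr, h7]; simp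
        · rw [← pl_coeff A g ρ r (by omega) r.2, h6]; simp
      rw [hρ, zero_dotProduct]
      rfl
    rw [rk, htop, finrank_top, Module.finrank_fin_fun]
  have hlen : l.length = N := by simp only [l, List.length_ofFn]
  have hfin := iso_list h h2 hneg N l hlen hrel (by omega)
  rw [← hfin]
  refine (hh_sq h _ _ ?_).2.symm
  simp only [l, List.map_ofFn]
  rw [List.forall₂_iff_get]
  refine ⟨by simp, ?_⟩
  intro i h1 h2
  simp only [List.get_eq_getElem, List.getElem_ofFn, Function.comp]
  exact ⟨w _, rfl⟩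

end

end Pool.Agent.HX84.PI
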