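import Mathlib
import Pool.Agent.HX84.PI.Kum

/-! The symbols of the values of a Mumford polynomial at the branch points: the general case. -/

set_option autoImplicit false
set_option linter.all false

namespace Pool.Agent.HX84.PI

open Polynomial

section

variable {K : Type*} [Field K] {B : Type*} [CommGroup B] {s : Kˣ →* Kˣ →* B}

/-- **The symbol product of the values of a Mumford polynomial.** -/
theorem hh_mumford2 (h : Quad K s) (h2 : (2 : K) ≠ 0) (hneg : ∃ j : K, j * j = -1) {g N : ℕ} (hN : N = 2 * g + 1)
    (a : Fin N → K) (ha : Function.Injective a) (w : Fin N → Kˣ)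
    (hw : ∀ i, ((∏ j ∈ Finset.univ.erase i, (a i - a j))⁻¹ : K) = w i)
    (U Y : K[X]) (hU : U.Monic) (hm : U.natDegree ≤ g + 1)
    (hdvd : U ∣ Y ^ 2 - ∏ i, (X - C (a i))) (hne : ∀ i, U.eval (a i) ≠ 0) :
    hh K s (List.ofFn fun i => Units.mk0 (U.eval (a i)) (hne i) * w i) = 1 := by
  classical
  rcases Nat.eq_zero_or_pos g with hg0 | hg0
  · subst hg0
    subst hN
    simp [hh]
  -- reduce `Y`
  wlog hY : U.natDegree = 0 ∧ Y = 0 ∨ Y.natDegree < U.natDegree generalizing Y with H
  · apply H (Y %ₘ U)
    · have e1 : (Y %ₘ U) ^ 2 - ∏ i, (X - C (a i)) = (Y ^ 2 - ∏ i, (X - C (a i))) - U * ((Y /ₘ U) * (Y + (Y %ₘ U))) := by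
        have h3 := modByMonic_add_div Y U
        linear_combination ((Y %ₘ U) + Y) * h3
      rw [e1]
      exact dvd_sub hdvd (dvd_mul_right _ _)
    · by_cases hU0 : U.natDegree = 0
      · left
        refine ⟨hU0, ?_⟩
        have : U = 1 := hU.natDegree_eq_zero.mp hU0
        rw [this, modByMonic_one]
      · right
        exact natDegree_modByMonic_lt Y hU (fun h1 => hU0 (by rw [h1, natDegree_one]))
  obtain ⟨W, hW⟩ := hdvd
  set m := U.natDegree with hmdef
  set f : K[X] := ∏ i, (X - C (a i)) with hf
  have hfdeg : f.natDegree = N := by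
    rw [hf, natDegree_prod _ _ (fun i _ => X_sub_C_ne_zero _)]
    simp
  have hfm : f.Monic := monic_prod_of_monic _ _ fun i _ => monic_X_sub_C _
  have hU0 : U ≠ 0 := hU.ne_zero
  have hYY : (Y ^ 2).natDegree ≤ 2 * g := by
    refine natDegree_pow_le.trans ?_
    rcases hY with ⟨_, rfl⟩ | hY
    · simp
    · omega
  have hWdeg : W.natDegree + m = N := by
    have h3 : (Y ^ 2 - f).natDegree = N := by
      rw [← hfdeg]
      apply natDegree_sub_eq_right_of_natDegree_lt
      rw [hfdeg]; omega
    have hW0 : W ≠ 0 := by
      rintro rfl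
      rw [mul_zero] at hW
      rw [hW, natDegree_zero] at h3
      omega
    rw [hW, natDegree_mul hU0 hW0] at h3
    omega
  -- the data
  set A := (N - m) / 2 with hA
  have hAg : A + m / 2 = g := by omega
  let u : Fin N → Kˣ := fun i => Units.mk0 (U.eval (a i)) (hne i)
  let l : List (Kˣ × (Fin g → K)) :=
    List.ofFn fun i => (u i * w i, col g A (a i) (Y.eval (a i) / U.eval (a i)))
  have hWi : ∀ i, (Y.eval (a i)) ^ 2 = U.eval (a i) * W.eval (a i) := by
    intro i
    have h3 := congrArg (fun p => eval (a i) p) hW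
    simp only [eval_sub, eval_pow, eval_mul] at h3
    rw [hf, eval_prod, Finset.prod_eq_zero (Finset.mem_univ i) (by simp), sub_zero] at h3
    exact h3
  have hsum : ∀ (F : Kˣ × (Fin g → K) → K), (l.map F).sum =
      ∑ i, F (u i * w i, col g A (a i) (Y.eval (a i) / U.eval (a i))) := by
    intro F
    rw [List.map_ofFn, List.sum_ofFn]
    rfl
  have hrel : Rel l := by
    intro ρ σ
    rw [hsum]
    set G : K[X] := U * (pl 0 A ρ * pl 0 A σ) + (pl 0 A ρ * pl A g σ + pl A g ρ * pl 0 A σ) * Y +
      (pl A g ρ * pl A g σ) * W with hG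
    have h3 : ∀ i, ((u i * w i : Kˣ) : K) * dotProduct ρ (col g A (a i) (Y.eval (a i) / U.eval (a i))) *
        dotProduct σ (col g A (a i) (Y.eval (a i) / U.eval (a i))) =
        G.eval (a i) / ∏ j ∈ Finset.univ.erase i, (a i - a j) := by
      intro i
      rw [dot_col, dot_col, div_eq_mul_inv (G.eval (a i)), hw i, Units.val_mul]
      simp only [u, Units.val_mk0, hG, eval_add, eval_mul]
      have h4 := hWi i
      have h5 := hne i
      field_simp
      linear_combination ((eval (a i) (pl A g ρ)) * (eval (a i) (pl A g σ))) * h4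
    simp only [h3]
    apply euler a ha
    have hd1 : ∀ ρ σ : Fin g → K, (U * (pl 0 A ρ * pl 0 A σ)).natDegree ≤ 2 * g - 1 := by
      intro ρ σ
      rcases Nat.eq_zero_or_pos A with h0 | h0
      · rw [pl_zero 0 A (by omega)]; simp
      · refine natDegree_mul_le.trans ?_
        have h5 := (natDegree_mul_le (p := pl 0 A ρ) (q := pl 0 A σ))
        have h6 := pl_natDegree 0 A ρ
        have h7 := pl_natDegree 0 A σ
        omega
    have hd2 : ∀ ρ σ : Fin g → K, ((pl 0 A ρ * pl A g σ) * Y).natDegree ≤ 2 * g - 1 := by
      intro ρ σ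
      rcases hY with ⟨_, rfl⟩ | hY
      · simp
      · refine natDegree_mul_le.trans ?_
        have h5 := (natDegree_mul_le (p := pl 0 A ρ) (q := pl A g σ))
        have h6 := pl_natDegree 0 A ρ
        have h7 := pl_natDegree A g σ
        omega
    have hd3 : ((pl A g ρ * pl A g σ) * W).natDegree ≤ 2 * g - 1 := by
      rcases Nat.lt_or_ge m 2 with h0 | h0
      · rw [pl_zero A g (by omega)]; simp
      · refine natDegree_mul_le.trans ?_
        have h5 := (natDegree_mul_le (p := pl A g ρ) (q := pl A g σ))
        have h6 := pl_natDegree A g ρ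
        have h7 := pl_natDegree A g σ
        omega
    have hd : G.natDegree ≤ 2 * g - 1 := by
      rw [hG, add_mul]
      refine natDegree_add_le_of_degree_le (natDegree_add_le_of_degree_le (hd1 ρ σ)
        (natDegree_add_le_of_degree_le (hd2 ρ σ) ?_)) hd3
      rw [mul_comm (pl A g ρ)]
      exact hd2 σ ρ
    omega
  have hrk : g ≤ rk l := by
    have htop : Submodule.span K {c | ∃ p ∈ l, p.2 = c} = ⊤ := by
      by_contra hne'
      obtain ⟨φ, hφ0, hφ⟩ := Submodule.exists_le_ker_of_lt_top _ (lt_top_iff_ne_top.2 hne')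
      let ρ : Fin g → K := fun r => φ (Pi.single r 1)
      have hφρ : ∀ c : Fin g → K, φ c = dotProduct ρ c := by
        intro c
        conv_lhs => rw [pi_eq_sum_univ' c]
        rw [map_sum, dotProduct]
        refine Finset.sum_congr rfl fun r _ => ?_
        rw [map_smul, smul_eq_mul, mul_comm]
      have hz : ∀ i, (pl 0 A ρ).eval (a i) + (pl A g ρ).eval (a i) * (Y.eval (a i) / U.eval (a i)) = 0 := by
        intro i
        rw [← dot_col, ← hφρ]
        have hmem : col g A (a i) (Y.eval (a i) / U.eval (a i)) ∈ Submodule.span K {c | ∃ p ∈ l, p.2 = c} :=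
          Submodule.subset_span ⟨(u i * w i, col g A (a i) (Y.eval (a i) / U.eval (a i))),
            by simp only [l, List.mem_ofFn]; exact ⟨i, rfl⟩, rfl⟩
        exact LinearMap.mem_ker.1 (hφ hmem)
      have hpoly : pl 0 A ρ * U + pl A g ρ * Y = 0 := by
        have hd : (pl 0 A ρ * U + pl A g ρ * Y).natDegree < N := by
          refine lt_of_le_of_lt (natDegree_add_le _ _) (max_lt ?_ ?_)
          · refine lt_of_le_of_lt natDegree_mul_le ?_
            have h6 := pl_natDegree 0 A ρ
            omega
          · refine lt_of_le_of_lt natDegree_mul_le ?_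
            have h6 := pl_natDegree A g ρ
            rcases hY with ⟨_, rfl⟩ | hY
            · rw [natDegree_zero]; omega
            · omega
        by_contra h0
        have h5 := card_roots' (pl 0 A ρ * U + pl A g ρ * Y)
        have h6 : (Finset.univ.image a).val ≤ (pl 0 A ρ * U + pl A g ρ * Y).roots := by
          rw [Multiset.le_iff_subset (Finset.nodup _)]
          intro x hx
          obtain ⟨i, _, rfl⟩ := Finset.mem_image.1 (Finset.mem_def.2 hx)
          rw [mem_roots h0, IsRoot, eval_add, eval_mul, eval_mul]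
          have h7 := hz i
          have h8 := hne i
          field_simp at h7
          linear_combination h7
        have h7 := Multiset.card_le_card h6
        rw [Finset.card_val, Finset.card_image_of_injective _ ha, Finset.card_univ, Fintype.card_fin] at h7
        omega
      have hcop := coprime_UY a U Y hne ⟨W, hW⟩
      have h5 : U ∣ pl A g ρ := by
        apply hcop.dvd_of_dvd_mul_right
        exact ⟨- pl 0 A ρ, by linear_combination hpoly⟩
      have h6 : pl A g ρ = 0 := by
        rcases Nat.eq_zero_or_pos m with h0 | h0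
        · exact pl_zero A g (by omega) ρ
        · by_contra h7
          have h8 := natDegree_le_of_dvd h5 h7
          have h9 := pl_natDegree A g ρ
          omega
      have h7 : pl 0 A ρ = 0 := by
        rw [h6, zero_mul, add_zero] at hpoly
        exact (mul_eq_zero.1 hpoly).resolve_right hU0
      apply hφ0
      refine LinearMap.ext fun c => ?_
      rw [hφρ]
      have hρ : ρ = 0 := by
        funext r
        by_cases hr : (r : ℕ) < A
        · rw [← pl_coeff 0 A ρ r (Nat.zero_le _) hr, h7]; simp
        · rw [← pl_coeff A g ρ r (by omega) r.2, h6]; simp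
      rw [hρ, zero_dotProduct]
      rfl
    rw [rk, htop, finrank_top, Module.finrank_fin_fun]
  have hlen : l.length = N := by simp only [l, List.length_ofFn]
  have hfin := iso_list h h2 hneg N l hlen hrel (by omega)
  rw [← hfin]
  simp only [l, List.map_ofFn]
  rfl

end

end Pool.Agent.HX84.PI
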