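import Mathlib
import Pool.Agent.HX84.PI.Euler2

/-! The relations of the polarization and of a point: the general case. -/

set_option autoImplicit false
set_option linter.all false

namespace Pool.Agent.HX84.PI

open Polynomial

section

variable {K : Type*} [Field K] {B : Type*} [CommGroup B] {s : Kˣ →* Kˣ →* B}

theorem hh_w (h : Quad K s) (h2 : (2 : K) ≠ 0) (hneg : ∃ j : K, j * j = -1) {g N : ℕ} (hN : N = 2 * g + 1)
    (a : Fin N → K) (ha : Function.Injective a) (w : Fin N → Kˣ)
    (hw : ∀ i, ((∏ j ∈ Finset.univ.erase i, (a i - a j))⁻¹ : K) = w i) : hh K s (List.ofFn w) = 1 := by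
  have h1 := hh_mumford2 h h2 hneg hN a ha w hw 1 0 monic_one (by rw [natDegree_one]; omega) (one_dvd _)
    (fun i => by rw [eval_one]; exact one_ne_zero)
  rw [← h1]
  congr 2
  funext i
  ext
  rw [Units.val_mul, Units.val_mk0, eval_one, one_mul]

/-- **The relation of the polarization.** -/
theorem p_rel2 (h : Quad K s) (h2 : (2 : K) ≠ 0) (hneg : ∃ j : K, j * j = -1) {g N : ℕ} (hN : N = 2 * g + 1)
    (a : Fin N → K) (ha : Function.Injective a) (w : Fin N → Kˣ)
    (hw : ∀ i, ((∏ j ∈ Finset.univ.erase i, (a i - a j))⁻¹ : K) = w i)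
    (U Y : K[X]) (hU : U.Monic) (hm : U.natDegree ≤ g + 1) (hdvd : U ∣ Y ^ 2 - ∏ i, (X - C (a i)))
    (x : Fin N → Kˣ) (hx : ∀ i, (x i : K) = U.eval (a i)) :
    hh K s (List.ofFn x) = ∏ i, s (x i) (w i) := by
  have hne : ∀ i, U.eval (a i) ≠ 0 := fun i => by rw [← hx]; exact (x i).ne_zero
  have k1 := hh_mumford2 h h2 hneg hN a ha w hw U Y hU hm hdvd hne
  have k1' : hh K s (List.ofFn fun i => x i * w i) = 1 := by
    rw [← k1]
    congr 2
    funext i
    ext
    rw [Units.val_mul, Units.val_mul, Units.val_mk0, hx]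
  obtain ⟨d, hd⟩ := prod_eval_sq a U Y hU hneg hdvd
  have hd0 : d ≠ 0 := by
    rintro rfl
    rw [zero_pow two_ne_zero] at hd
    exact Finset.prod_ne_zero_iff.2 (fun i _ => hne i) hd
  have hprodx : ∏ i, x i = (Units.mk0 d hd0) ^ 2 := by
    ext
    rw [Units.coe_prod, Units.val_pow_eq_pow_val, Units.val_mk0, ← hd]
    exact Finset.prod_congr rfl fun i _ => hx i
  rw [hh_mul_ofFn h x w, hh_w h h2 hneg hN a ha w hw, hprodx, h.sq_left, mul_one, mul_one] at k1'
  rw [eq_inv_of_mul_eq_one_left k1', ← Finset.prod_inv_distrib]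
  exact Finset.prod_congr rfl fun i _ => h.inv _ _

/-- **The relation given by a point of the curve.** -/
theorem kr2 (h : Quad K s) (h2 : (2 : K) ≠ 0) (hneg : ∃ j : K, j * j = -1) {g N : ℕ} (hN : N = 2 * g + 1)
    (a : Fin N → K) (ha : Function.Injective a) (w : Fin N → Kˣ)
    (hw : ∀ i, ((∏ j ∈ Finset.univ.erase i, (a i - a j))⁻¹ : K) = w i)
    (c y : K) (hc : ∀ i, c - a i ≠ 0) (hy : y ^ 2 = ∏ i, (c - a i)) :
    ∀ (m : ℕ) (U Y : K[X]), U.Monic → U.natDegree = m → m ≤ g → U ∣ Y ^ 2 - ∏ i, (X - C (a i)) →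
      ∀ (hne : ∀ i, U.eval (a i) ≠ 0), ∏ i, s (Units.mk0 (U.eval (a i)) (hne i)) (Units.mk0 (c - a i) (hc i)) = 1 := by
  intro m
  induction m using Nat.strong_induction_on with
  | _ m IH =>
  intro U Y hU hUm hm hdvd hne
  obtain ⟨j, hj⟩ := hneg
  have hj0 : j ≠ 0 := by
    rintro rfl
    rw [zero_mul] at hj
    exact neg_ne_zero.2 one_ne_zero hj.symm
  let J : Kˣ := Units.mk0 j hj0
  have hac : ∀ i, a i - c ≠ 0 := fun i h0 => hc i (by rw [← neg_sub, h0, neg_zero])
  by_cases hUc : U.eval c = 0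
  · -- divide by `X - c`
    obtain ⟨U1, hU1⟩ := dvd_iff_isRoot.2 hUc
    have hU1m : U1.Monic := by
      rw [hU1] at hU
      exact (monic_X_sub_C c).of_mul_monic_left hU
    have hdeg : U.natDegree = U1.natDegree + 1 := by
      rw [hU1, natDegree_mul (X_sub_C_ne_zero c) hU1m.ne_zero, natDegree_X_sub_C, add_comm]
    have hval : ∀ i, U.eval (a i) = (a i - c) * U1.eval (a i) := by
      intro i
      rw [hU1, eval_mul, eval_sub, eval_X, eval_C]
    have hne1 : ∀ i, U1.eval (a i) ≠ 0 := by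
      intro i h0
      apply hne i
      rw [hval, h0, mul_zero]
    have h1 := IH U1.natDegree (by omega) U1 Y hU1m rfl (by omega) ((Dvd.intro_left _ hU1.symm).trans hdvd) hne1
    rw [← h1]
    refine Finset.prod_congr rfl fun i _ => ?_
    have e1 : Units.mk0 (U.eval (a i)) (hne i) = Units.mk0 (U1.eval (a i)) (hne1 i) *
        (Units.mk0 (c - a i) (hc i) * J ^ 2) := by
      ext
      rw [Units.val_mul, Units.val_mul, Units.val_pow_eq_pow_val, Units.val_mk0, Units.val_mk0, Units.val_mk0,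
        Units.val_mk0, pow_two, hj, hval]
      ring
    rw [e1, map_mul, MonoidHom.mul_apply, map_mul, MonoidHom.mul_apply, h.self, h.sq_left, mul_one, mul_one]
  · -- multiply by `X - c`
    have hcop : IsCoprime U (X - C c) := by
      apply IsCoprime.symm
      rw [(irreducible_X_sub_C c).coprime_iff_not_dvd, dvd_iff_isRoot]
      exact hUc
    obtain ⟨p, q, hpq⟩ := hcop
    -- `Y' = Y` mod `U`, `Y' = y` mod `X - c`
    let Y' : K[X] := Y * (q * (X - C c)) + C y * (p * U)
    have hY1 : U ∣ Y' - Y := by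
      refine ⟨(C y - Y) * p, ?_⟩
      simp only [Y']
      linear_combination Y * hpq
    have hY2 : (X - C c) ∣ Y' - C y := by
      refine ⟨(Y - C y) * q, ?_⟩
      simp only [Y']
      linear_combination C y * hpq
    have hd1 : U ∣ Y' ^ 2 - ∏ i, (X - C (a i)) := by
      have : Y' ^ 2 - ∏ i, (X - C (a i)) = (Y ^ 2 - ∏ i, (X - C (a i))) + (Y' - Y) * (Y' + Y) := by ring
      rw [this]
      exact dvd_add hdvd (hY1.mul_right _)
    have hd2' : (X - C c) ∣ (C y) ^ 2 - ∏ i, (X - C (a i)) := by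
      rw [dvd_iff_isRoot, IsRoot, eval_sub, eval_pow, eval_C, eval_prod]
      simp only [eval_sub, eval_X, eval_C]
      rw [hy, sub_self]
    have hd2 : (X - C c) ∣ Y' ^ 2 - ∏ i, (X - C (a i)) := by
      have : Y' ^ 2 - ∏ i, (X - C (a i)) = ((C y) ^ 2 - ∏ i, (X - C (a i))) + (Y' - C y) * (Y' + C y) := by ring
      rw [this]
      exact dvd_add hd2' (hY2.mul_right _)
    have hd3 : U * (X - C c) ∣ Y' ^ 2 - ∏ i, (X - C (a i)) :=
      IsCoprime.mul_dvd ⟨p, q, hpq⟩ hd1 hd2
    have hval : ∀ i, (U * (X - C c)).eval (a i) = U.eval (a i) * (a i - c) := by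
      intro i
      rw [eval_mul, eval_sub, eval_X, eval_C]
    have hval2 : ∀ i, (X - C c).eval (a i) = a i - c := by
      intro i
      rw [eval_sub, eval_X, eval_C]
    have hmm : (U * (X - C c)).Monic := hU.mul (monic_X_sub_C c)
    have hdeg : (U * (X - C c)).natDegree = m + 1 := by
      rw [natDegree_mul hU.ne_zero (X_sub_C_ne_zero c), natDegree_X_sub_C, hUm]
    have k1 := hh_mumford2 h h2 ⟨j, hj⟩ hN a ha w hw U Y hU (by omega) hdvd hne
    have k2 := hh_mumford2 h h2 ⟨j, hj⟩ hN a ha w hw (X - C c) (C y) (monic_X_sub_C c)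
      (by rw [natDegree_X_sub_C]; omega) hd2' (fun i => by rw [hval2]; exact hac i)
    have k3 := hh_mumford2 h h2 ⟨j, hj⟩ hN a ha w hw (U * (X - C c)) Y' hmm (by rw [hdeg]; omega) hd3
      (fun i => by rw [hval]; exact mul_ne_zero (hne i) (hac i))
    let x : Fin N → Kˣ := fun i => Units.mk0 (U.eval (a i)) (hne i)
    let z : Fin N → Kˣ := fun i => Units.mk0 (a i - c) (hac i)
    have kd := hh_w h h2 ⟨j, hj⟩ hN a ha w hw
    have k2' : hh K s (List.ofFn fun i => z i * w i) = 1 := by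
      rw [← k2]
      congr 2
      funext i
      ext
      simp only [z, Units.val_mul, Units.val_mk0, hval2]
    have k3' : hh K s (List.ofFn fun i => x i * z i * w i) = 1 := by
      rw [← k3]
      congr 2
      funext i
      ext
      simp only [x, z, Units.val_mul, Units.val_mk0, hval]
    have k1' : hh K s (List.ofFn fun i => x i * w i) = 1 := k1
    have hzc : ∀ i, z i = Units.mk0 (c - a i) (hc i) * J ^ 2 := by
      intro i
      ext
      rw [Units.val_mul, Units.val_pow_eq_pow_val, Units.val_mk0, Units.val_mk0, Units.val_mk0, pow_two, hj]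
      ring
    have hy0 : y ≠ 0 := by
      rintro rfl
      rw [zero_pow two_ne_zero] at hy
      exact Finset.prod_ne_zero_iff.2 (fun i _ => hc i) hy.symm
    have hprod : ∏ i, z i = (Units.mk0 y hy0 * J ^ N) ^ 2 := by
      simp only [hzc]
      rw [Finset.prod_mul_distrib, Finset.prod_const, Finset.card_univ, Fintype.card_fin, mul_pow, ← pow_mul, ← pow_mul,
        mul_comm 2 N]
      congr 1
      ext
      rw [Units.coe_prod, Units.val_pow_eq_pow_val, Units.val_mk0, hy]
      rfl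
    obtain ⟨d, hd⟩ := prod_eval_sq a U Y hU ⟨j, hj⟩ hdvd
    have hd0 : d ≠ 0 := by
      rintro rfl
      rw [zero_pow two_ne_zero] at hd
      exact Finset.prod_ne_zero_iff.2 (fun i _ => hne i) hd
    have hprodx : ∏ i, x i = (Units.mk0 d hd0) ^ 2 := by
      ext
      rw [Units.coe_prod, Units.val_pow_eq_pow_val, Units.val_mk0, ← hd]
      rfl
    have hsz : ∀ p q : Kˣ, s (p ^ 2) q = 1 := h.sq_left
    rw [hh_mul_ofFn h x w, kd, hprodx, hsz, mul_one, mul_one] at k1'
    rw [hh_mul_ofFn h z w, kd, hprod, hsz, mul_one, mul_one] at k2'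
    rw [hh_mul_ofFn h (fun i => x i * z i) w, hh_mul_ofFn h x z, kd, Finset.prod_mul_distrib, hprodx, hprod, ← mul_pow, hsz,
      hsz, mul_one, mul_one, mul_one] at k3'
    have hsplit : ∏ i, s (x i * z i) (w i) = (∏ i, s (x i) (w i)) * ∏ i, s (z i) (w i) := by
      rw [← Finset.prod_mul_distrib]
      refine Finset.prod_congr rfl fun i _ => ?_
      rw [map_mul, MonoidHom.mul_apply]
    rw [hsplit] at k3'
    have k4 : ∏ i, s (x i) (z i) = 1 := by
      calc ∏ i, s (x i) (z i) = (∏ i, s (x i) (z i)) * ((hh K s (List.ofFn x) * ∏ i, s (x i) (w i)) *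
            (hh K s (List.ofFn z) * ∏ i, s (z i) (w i))) := by rw [k1', k2', mul_one, mul_one]
        _ = hh K s (List.ofFn x) * hh K s (List.ofFn z) * (∏ i, s (x i) (z i)) *
            ((∏ i, s (x i) (w i)) * ∏ i, s (z i) (w i)) := by
          simp only [mul_assoc, mul_comm, mul_left_comm]
        _ = 1 := k3'
    rw [← k4]
    refine Finset.prod_congr rfl fun i _ => ?_
    rw [hzc, h.mul_sq]

end

end Pool.Agent.HX84.PI
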