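import Mathlib
import Pool.Agent.HX84.PI.Absorb

/-! Two alternating forms over the field with two elements. -/

set_option autoImplicit false
set_option linter.all false

open Matrix

namespace Pool.Agent.HX84.PI

open Pool.Agent.Y109.PI

section

variable {I : Type*} [Fintype I] [DecidableEq I]

theorem alt_decomp (b : Matrix I I F2) (hb : Alt b) : ∃ (r : ℕ) (e f : Fin r → I → F2),
    b = ∑ i, wdg (e i) (f i) ∧ LinearIndependent F2 (Sum.elim e f) ∧
    Module.finrank F2 (LinearMap.ker b.mulVecLin) + 2 * r = Fintype.card I := by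
  obtain ⟨r, hr⟩ : ∃ r, r = b.rank / 2 := ⟨_, rfl⟩
  obtain ⟨e, f, hef⟩ := decomp (R := F2) (K := F2) (fun x y h => h) r b hb (by
    have : b.map (algebraMap F2 F2) = b := by ext; rfl
    rw [this]; omega)
  have hker := LinearMap.finrank_range_add_finrank_ker b.mulVecLin
  rw [Module.finrank_pi] at hker
  have hle : LinearMap.range b.mulVecLin ≤ Submodule.span F2 (Set.range (Sum.elim e f)) := by
    rintro _ ⟨x, rfl⟩
    rw [Matrix.mulVecLin_apply]
    have h1 : b *ᵥ x = ∑ i, ((f i ⬝ᵥ x) • e i - (e i ⬝ᵥ x) • f i) := by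
      funext u
      rw [hef, Finset.sum_apply, mulVec, dotProduct]
      simp only [Matrix.sum_apply, Finset.sum_mul]
      rw [Finset.sum_comm]
      refine Finset.sum_congr rfl fun i _ => ?_
      simp only [wdg, Matrix.of_apply, Pi.sub_apply, Pi.smul_apply, smul_eq_mul, dotProduct, Finset.sum_mul,
        ← Finset.sum_sub_distrib]
      refine Finset.sum_congr rfl fun v _ => ?_
      ring
    rw [h1]
    refine Submodule.sum_mem _ fun i _ => Submodule.sub_mem _ (Submodule.smul_mem _ _ (Submodule.subset_span ⟨Sum.inl i, rfl⟩))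
      (Submodule.smul_mem _ _ (Submodule.subset_span ⟨Sum.inr i, rfl⟩))
  have h2 : b.rank ≤ Module.finrank F2 (Submodule.span F2 (Set.range (Sum.elim e f))) := Submodule.finrank_mono hle
  have h3 : Module.finrank F2 (Submodule.span F2 (Set.range (Sum.elim e f))) ≤ r + r := by
    have := finrank_range_le_card (R := F2) (Sum.elim e f)
    rwa [Fintype.card_sum, Fintype.card_fin] at this
  refine ⟨r, e, f, hef, ?_, ?_⟩
  · rw [linearIndependent_iff_card_eq_finrank_span, Fintype.card_sum, Fintype.card_fin]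
    change r + r = Module.finrank F2 (Submodule.span F2 (Set.range (Sum.elim e f)))
    exact le_antisymm (by omega) h3
  · have h4 : b.rank = Module.finrank F2 (LinearMap.range b.mulVecLin) := rfl
    omega

/-- kernel vectors are orthogonal to the coefficient vectors -/
theorem ker_orth (b : Matrix I I F2) (r : ℕ) (e f : Fin r → I → F2) (hb : b = ∑ i, wdg (e i) (f i))
    (hli : LinearIndependent F2 (Sum.elim e f)) (x : I → F2) (hx : b *ᵥ x = 0) (i : Fin r) :
    x ⬝ᵥ e i = 0 ∧ x ⬝ᵥ f i = 0 := by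
  have h1 : ∑ j : Fin r ⊕ Fin r, (Sum.elim (fun i => f i ⬝ᵥ x) (fun i => -(e i ⬝ᵥ x)) j) • Sum.elim e f j = 0 := by
    rw [← hx, hb]
    funext u
    rw [Fintype.sum_sum_type, Pi.add_apply, Finset.sum_apply, Finset.sum_apply, mulVec, dotProduct]
    simp only [Matrix.sum_apply, Finset.sum_mul]
    rw [Finset.sum_comm, ← Finset.sum_add_distrib]
    refine Finset.sum_congr rfl fun i _ => ?_
    simp only [Sum.elim_inl, Sum.elim_inr, wdg, Matrix.of_apply, Pi.smul_apply, smul_eq_mul, dotProduct, Finset.sum_mul,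
      ← Finset.sum_neg_distrib, ← Finset.sum_add_distrib]
    refine Finset.sum_congr rfl fun v _ => ?_
    ring
  have h2 := (Fintype.linearIndependent_iff.1 hli) _ h1
  have h3 := h2 (Sum.inl i)
  have h4 := h2 (Sum.inr i)
  simp only [Sum.elim_inl, Sum.elim_inr, neg_eq_zero] at h3 h4
  exact ⟨by rw [dotProduct_comm]; exact h4, by rw [dotProduct_comm]; exact h3⟩

/-- the matrix with ones off the diagonal -/
def om (I : Type*) [DecidableEq I] : Matrix I I F2 := Matrix.of fun u v => if u = v then 0 else 1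

theorem om_mul (g : ℕ) (hI : Fintype.card I = 2 * g) : om I * om I = 1 := by
  ext u v
  rw [Matrix.mul_apply, Matrix.one_apply]
  have h1 : ∀ w, om I u w * om I w v = 1 - (if w = u then 1 else 0) - (if w = v then 1 else 0) +
      (if w = u then (if w = v then 1 else 0) else 0) := by
    intro w
    simp only [om, Matrix.of_apply]
    by_cases h1 : w = u
    · subst h1
      by_cases h2 : w = v
      · subst h2; simp; decide
      · simp [h2]
    · by_cases h2 : w = v
      · subst h2; simp [h1, Ne.symm h1]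
      · simp [h1, h2, Ne.symm h1]
  rw [Finset.sum_congr rfl fun w _ => h1 w, Finset.sum_add_distrib, Finset.sum_sub_distrib, Finset.sum_sub_distrib,
    Finset.sum_const, Finset.card_univ, hI]
  simp only [Finset.sum_ite_eq', Finset.mem_univ, if_true]
  have h3 : (2 * g) • (1 : F2) = 0 := by
    rw [mul_comm, mul_smul]
    have : (2 : ℕ) • (1 : F2) = 0 := by decide
    rw [this, smul_zero]
  rw [h3]
  by_cases huv : u = v
  · rw [if_pos huv]; decide
  · rw [if_neg huv]; decide

theorem om_det (g : ℕ) (hI : Fintype.card I = 2 * g) : (om I).det ≠ 0 := by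
  intro h
  have h1 := congrArg Matrix.det (om_mul g hI)
  rw [det_mul, h, mul_zero, det_one] at h1
  exact zero_ne_one h1

theorem om_symm (u v : I) : om I u v = om I v u := by
  simp only [om, Matrix.of_apply, eq_comm]

theorem om_alt : Alt (om I) := by
  constructor
  · intro u; simp [om]
  · intro u v
    rw [om_symm]
    have : ∀ p : F2, p = -p := by decide
    exact this _

/-- the bilinear form -/
def omB (I : Type*) [Fintype I] [DecidableEq I] : LinearMap.BilinForm F2 (I → F2) := Matrix.toBilin' (om I)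

theorem omB_apply (x y : I → F2) : omB I x y = x ⬝ᵥ (om I *ᵥ y) := by
  rw [omB, Matrix.toBilin'_apply']

theorem omB_symm (x y : I → F2) : omB I x y = omB I y x := by
  rw [omB_apply, omB_apply, dotProduct_mulVec, dotProduct_comm]
  congr 1
  funext u
  rw [vecMul, mulVec, dotProduct, dotProduct]
  refine Finset.sum_congr rfl fun v _ => ?_
  rw [om_symm, mul_comm]

theorem alt_perp {b : Matrix I I F2} (hb : Alt b) (x y : I → F2) (hx : b *ᵥ x = 0) : x ⬝ᵥ (b *ᵥ y) = 0 := by
  rw [alt_dot hb, hx, dotProduct_zero, neg_zero]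

/-- **Choice of the translate.** -/
theorem choice (g : ℕ) (hg : 2 ≤ g) (hI : Fintype.card I = 2 * g) (b0 b1 : Matrix I I F2) (h0 : Alt b0)
    (h1 : Alt b1) (h01 : b0 + om I = b1 ∨ b1 + om I = b0) :
    ∃ b : Matrix I I F2, (b = b0 ∨ b = b1) ∧
      ((Module.finrank F2 (LinearMap.ker b.mulVecLin) + 2 ≤ 2 * (g / 2)) ∨
       (Module.finrank F2 (LinearMap.ker b.mulVecLin) ≤ 2 * (g / 2) ∧
        ∃ m m' : I → F2, b *ᵥ m = 0 ∧ b *ᵥ m' = 0 ∧ m ⬝ᵥ (om I *ᵥ m') = 1)) := by
  wlog hle : Module.finrank F2 (LinearMap.ker b0.mulVecLin) ≤ Module.finrank F2 (LinearMap.ker b1.mulVecLin)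
      generalizing b0 b1 with H
  · obtain ⟨b, hb, h⟩ := H b1 b0 h1 h0 (Or.symm h01) (by omega)
    exact ⟨b, Or.symm hb, h⟩
  obtain ⟨r0, e0, f0, -, -, hr0⟩ := alt_decomp b0 h0
  obtain ⟨r1, e1, f1, -, -, hr1⟩ := alt_decomp b1 h1
  set M0 := LinearMap.ker b0.mulVecLin with hM0
  set M1 := LinearMap.ker b1.mulVecLin with hM1
  have hnd : (omB I).Nondegenerate := LinearMap.BilinForm.nondegenerate_toBilin'_of_det_ne_zero' _ (om_det g hI)
  have hmem0 : ∀ x, x ∈ M0 ↔ b0 *ᵥ x = 0 := fun x => by rw [hM0, LinearMap.mem_ker, Matrix.mulVecLin_apply]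
  have hmem1 : ∀ x, x ∈ M1 ↔ b1 *ᵥ x = 0 := fun x => by rw [hM1, LinearMap.mem_ker, Matrix.mulVecLin_apply]
  have hω : ∀ y, om I *ᵥ y = b0 *ᵥ y + b1 *ᵥ y := by
    intro y
    rw [← add_mulVec]
    congr 1
    rcases h01 with h | h
    · rw [← h]
      ext u v
      simp only [Matrix.add_apply]
      have : ∀ p q : F2, q = p + (p + q) := by decide
      exact this _ _
    · rw [← h]
      ext u v
      simp only [Matrix.add_apply]
      have : ∀ p q : F2, q = (p + q) + p := by decide
      exact this _ _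
  have hperp : ∀ x ∈ M0, ∀ y ∈ M1, omB I x y = 0 := by
    intro x hx y hy
    rw [hmem0] at hx
    rw [hmem1] at hy
    rw [omB_apply, hω, hy, add_zero]
    exact alt_perp h0 x y hx
  have hinf : M0 ⊓ M1 = ⊥ := by
    rw [Submodule.eq_bot_iff]
    intro x hx
    obtain ⟨hx0, hx1⟩ := Submodule.mem_inf.1 hx
    rw [hmem0] at hx0
    rw [hmem1] at hx1
    have h3 : om I *ᵥ x = 0 := by rw [hω, hx0, hx1, add_zero]
    have h4 : (om I * om I) *ᵥ x = 0 := by rw [← mulVec_mulVec, h3, mulVec_zero]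
    rwa [om_mul g hI, one_mulVec] at h4
  have horth : ∀ W : Submodule F2 (I → F2), Module.finrank F2 ((omB I).orthogonal W) = 2 * g - Module.finrank F2 W := by
    intro W
    rw [LinearMap.BilinForm.finrank_orthogonal hnd, Module.finrank_pi, hI]
  have hortho : ∀ (W : Submodule F2 (I → F2)) y, (∀ x ∈ W, omB I x y = 0) → y ∈ (omB I).orthogonal W := by
    intro W y h
    rw [LinearMap.BilinForm.mem_orthogonal_iff]
    exact h
  have hsum := Submodule.finrank_sup_add_finrank_inf_eq M0 M1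
  rw [hinf, finrank_bot, add_zero] at hsum
  have hM1le : M1 ≤ (omB I).orthogonal M0 := fun y hy => hortho M0 y fun x hx => hperp x hx y hy
  have hd1 := Submodule.finrank_mono hM1le
  rw [horth] at hd1
  rw [hI] at hr0 hr1
  have hk0 : Module.finrank F2 ↥(LinearMap.ker b0.mulVecLin) = Module.finrank F2 M0 := rfl
  have hk1 : Module.finrank F2 ↥(LinearMap.ker b1.mulVecLin) = Module.finrank F2 M1 := rfl
  by_cases hc1 : Module.finrank F2 M0 + 2 ≤ 2 * (g / 2)
  · exact ⟨b0, Or.inl rfl, Or.inl hc1⟩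
  by_cases hc2 : ∃ m ∈ M0, ∃ m' ∈ M0, omB I m m' ≠ 0
  · obtain ⟨m, hm, m', hm', hne⟩ := hc2
    refine ⟨b0, Or.inl rfl, Or.inr ⟨by omega, m, m', (hmem0 m).1 hm, (hmem0 m').1 hm', ?_⟩⟩
    rw [← omB_apply]
    have : ∀ p : F2, p ≠ 0 → p = 1 := by decide
    exact this _ hne
  push Not at hc2
  have hM0le : M0 ≤ (omB I).orthogonal M0 := fun y hy => hortho M0 y fun x hx => hc2 x hx y hy
  have hd2 := Submodule.finrank_mono (sup_le hM0le hM1le)
  rw [horth, hsum] at hd2
  by_cases hc3 : ∃ m ∈ M1, ∃ m' ∈ M1, omB I m m' ≠ 0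
  · obtain ⟨m, hm, m', hm', hne⟩ := hc3
    refine ⟨b1, Or.inr rfl, Or.inr ⟨by omega, m, m', (hmem1 m).1 hm, (hmem1 m').1 hm', ?_⟩⟩
    rw [← omB_apply]
    have : ∀ p : F2, p ≠ 0 → p = 1 := by decide
    exact this _ hne
  push Not at hc3
  exfalso
  have hM1o : M0 ⊔ M1 ≤ (omB I).orthogonal (M0 ⊔ M1) := by
    intro y hy
    apply hortho
    intro x hx
    obtain ⟨y0, hy0, y1, hy1, rfl⟩ := Submodule.mem_sup.1 hy
    obtain ⟨x0, hx0, x1, hx1, rfl⟩ := Submodule.mem_sup.1 hx
    rw [map_add, map_add, LinearMap.add_apply, LinearMap.add_apply, hc2 _ hx0 _ hy0, hc3 _ hx1 _ hy1,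
      hperp _ hx0 _ hy1, omB_symm x1 y0, hperp _ hy0 _ hx1]
    simp
  have hd3 := Submodule.finrank_mono hM1o
  rw [horth, hsum] at hd3
  omega

end

end Pool.Agent.HX84.PI
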