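import Mathlib
import Pool.Agent.HX84.PI.Ker
import Pool.Agent.HX84.PI.Iso

/-! Square classes as a vector space over the field with two elements. -/

set_option autoImplicit false
set_option linter.all false

namespace Pool.Agent.HX84.PI

theorem f2_cases (c : F2) : c = 0 ∨ c = 1 := by
  revert c; decide

section

variable (K : Type*) [Field K]

/-- squares -/
def sqs : Subgroup Kˣ := (powMonoidHom 2 : Kˣ →* Kˣ).range

/-- square classes -/
def GG := Additive (Kˣ ⧸ sqs K)

instance : AddCommGroup (GG K) := inferInstanceAs (AddCommGroup (Additive (Kˣ ⧸ sqs K)))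

variable {K}

/-- the class of a unit -/
def cl (x : Kˣ) : GG K := Additive.ofMul (QuotientGroup.mk x)

theorem cl_surj : Function.Surjective (cl : Kˣ → GG K) := by
  intro x
  obtain ⟨y, hy⟩ := QuotientGroup.mk_surjective (Additive.toMul (α := Kˣ ⧸ sqs K) x)
  exact ⟨y, by rw [cl, hy]; rfl⟩

theorem cl_mul (x y : Kˣ) : cl (x * y) = cl x + cl y := rfl

theorem cl_one : cl (1 : Kˣ) = 0 := rfl

theorem cl_eq_iff (x y : Kˣ) : cl x = cl y ↔ ∃ c : Kˣ, y = x * c ^ 2 := by
  constructor
  · intro h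
    have h1 : (QuotientGroup.mk x : Kˣ ⧸ sqs K) = QuotientGroup.mk y := h
    rw [QuotientGroup.eq] at h1
    obtain ⟨c, hc⟩ := h1
    refine ⟨c, ?_⟩
    have h2 : c ^ 2 = x⁻¹ * y := hc
    rw [h2, mul_inv_cancel_left]
  · rintro ⟨c, rfl⟩
    change (Additive.ofMul (QuotientGroup.mk x : Kˣ ⧸ sqs K)) = Additive.ofMul (QuotientGroup.mk (x * c ^ 2) : Kˣ ⧸ sqs K)
    congr 1
    rw [QuotientGroup.eq, inv_mul_cancel_left]
    exact ⟨c, rfl⟩

theorem cl_eq_zero (x : Kˣ) : cl x = 0 ↔ ∃ c : Kˣ, c ^ 2 = x := by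
  rw [eq_comm, ← cl_one, cl_eq_iff]
  simp only [one_mul, eq_comm]

theorem cl_sq (x : Kˣ) : cl (x ^ 2) = 0 := (cl_eq_zero _).2 ⟨x, rfl⟩

theorem cl_prod {ι : Type*} (S : Finset ι) (f : ι → Kˣ) : cl (∏ i ∈ S, f i) = ∑ i ∈ S, cl (f i) := by
  classical
  induction S using Finset.induction_on with
  | empty => rfl
  | insert x S hx ih => rw [Finset.prod_insert hx, Finset.sum_insert hx, cl_mul, ih]

theorem two_GG (x : GG K) : 2 • x = 0 := by
  obtain ⟨y, rfl⟩ := cl_surj x
  rw [two_nsmul, ← cl_mul, ← pow_two, cl_sq]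

noncomputable instance : Module F2 (GG K) := AddCommGroup.zmodModule two_GG

end

section

variable (Br : Type*) [CommGroup Br]

/-- elements of order dividing two -/
def tb : Subgroup Br := (powMonoidHom 2 : Br →* Br).ker

/-- the additive version -/
def BB := Additive (tb Br)

instance : AddCommGroup (BB Br) := inferInstanceAs (AddCommGroup (Additive (tb Br)))

variable {Br}

/-- the underlying element -/
def br (x : BB Br) : Br := (Additive.toMul (α := tb Br) x : tb Br)

theorem br_add (x y : BB Br) : br (x + y) = br x * br y := rfl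

theorem br_zero : br (0 : BB Br) = 1 := rfl

theorem br_inj {x y : BB Br} (h : br x = br y) : x = y := Subtype.ext h

theorem br_sum {ι : Type*} (S : Finset ι) (f : ι → BB Br) : br (∑ i ∈ S, f i) = ∏ i ∈ S, br (f i) := by
  classical
  induction S using Finset.induction_on with
  | empty => rfl
  | insert x S hx ih => rw [Finset.prod_insert hx, Finset.sum_insert hx, br_add, ih]

theorem two_BB (x : BB Br) : 2 • x = 0 := by
  apply br_inj
  rw [two_nsmul, br_add, br_zero]
  have h : br x ∈ (powMonoidHom 2 : Br →* Br).ker := (Additive.toMul (α := tb Br) x).2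
  rw [MonoidHom.mem_ker] at h
  rw [← pow_two]
  exact h

noncomputable instance : Module F2 (BB Br) := AddCommGroup.zmodModule two_BB

/-- an element of order dividing two -/
def mkB (x : Br) (hx : x * x = 1) : BB Br := Additive.ofMul ⟨x, by
  change x ∈ (powMonoidHom 2 : Br →* Br).ker
  rw [MonoidHom.mem_ker]
  change x ^ 2 = 1
  rw [pow_two]; exact hx⟩

theorem br_mkB (x : Br) (hx : x * x = 1) : br (mkB x hx) = x := rfl

end

section

variable {K B : Type*} [Field K] [CommGroup B] {σ : Kˣ →* Kˣ →* B}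

/-- a representative -/
noncomputable def rep (x : GG K) : Kˣ := Function.surjInv cl_surj x

theorem cl_rep (x : GG K) : cl (rep x) = x := Function.surjInv_eq cl_surj x

theorem Quad.congr (h : Quad K σ) {x x' y y' : Kˣ} (h1 : cl x = cl x') (h2 : cl y = cl y') : σ x y = σ x' y' := by
  obtain ⟨c, rfl⟩ := (cl_eq_iff _ _).1 h1
  obtain ⟨d, rfl⟩ := (cl_eq_iff _ _).1 h2
  rw [h.mul_sq, map_mul, MonoidHom.mul_apply, h.sq_left, mul_one]

/-- the underlying function of the symbol -/
noncomputable def ssFun (h : Quad K σ) (x y : GG K) : BB B := mkB (σ (rep x) (rep y)) (h.tors _ _)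

theorem br_ssFun (h : Quad K σ) (x y : Kˣ) : br (ssFun h (cl x) (cl y)) = σ x y := by
  rw [ssFun, br_mkB]
  exact h.congr (cl_rep _) (cl_rep _)

theorem ssFun_add_left (h : Quad K σ) (x x' y : GG K) : ssFun h (x + x') y = ssFun h x y + ssFun h x' y := by
  obtain ⟨x, rfl⟩ := cl_surj x
  obtain ⟨x', rfl⟩ := cl_surj x'
  obtain ⟨y, rfl⟩ := cl_surj y
  apply br_inj
  rw [br_add, ← cl_mul, br_ssFun, br_ssFun, br_ssFun, map_mul]
  rfl

theorem ssFun_add_right (h : Quad K σ) (x y y' : GG K) : ssFun h x (y + y') = ssFun h x y + ssFun h x y' := by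
  obtain ⟨x, rfl⟩ := cl_surj x
  obtain ⟨y', rfl⟩ := cl_surj y'
  obtain ⟨y, rfl⟩ := cl_surj y
  apply br_inj
  rw [br_add, ← cl_mul, br_ssFun, br_ssFun, br_ssFun, map_mul]

theorem ssFun_zero_left (h : Quad K σ) (y : GG K) : ssFun h 0 y = 0 := by
  have := ssFun_add_left h 0 0 y
  rw [add_zero] at this
  exact left_eq_add.1 this

theorem ssFun_zero_right (h : Quad K σ) (y : GG K) : ssFun h y 0 = 0 := by
  have := ssFun_add_right h y 0 0
  rw [add_zero] at this
  exact left_eq_add.1 this

/-- the symbol as a bilinear form -/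
noncomputable def ss (h : Quad K σ) : GG K →ₗ[F2] GG K →ₗ[F2] BB B :=
  LinearMap.mk₂ F2 (ssFun h) (ssFun_add_left h)
    (by
      intro c x y
      rcases f2_cases c with rfl | rfl
      · rw [zero_smul, zero_smul, ssFun_zero_left]
      · rw [one_smul, one_smul])
    (ssFun_add_right h)
    (by
      intro c x y
      rcases f2_cases c with rfl | rfl
      · rw [zero_smul, zero_smul, ssFun_zero_right]
      · rw [one_smul, one_smul])

theorem br_ss (h : Quad K σ) (x y : Kˣ) : br (ss h (cl x) (cl y)) = σ x y := br_ssFun h x y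

theorem ss_alt (h : Quad K σ) (x : GG K) : ss h x x = 0 := by
  obtain ⟨x, rfl⟩ := cl_surj x
  apply br_inj
  rw [br_ss, h.self, br_zero]

theorem ss_eq_zero (h : Quad K σ) (x y : Kˣ) : ss h (cl x) (cl y) = 0 ↔ σ x y = 1 := by
  rw [← br_ss h x y, ← br_zero (Br := B)]
  exact ⟨fun e => by rw [e], br_inj⟩

theorem IsSum.rep (h : Quad K σ) {n : ℕ} {β : BB B} (hβ : IsSum (ss h) n β) :
    ∃ x y : Fin n → Kˣ, br β = ∏ i, σ (x i) (y i) := by
  obtain ⟨x, y, rfl⟩ := hβ
  refine ⟨fun i => PI.rep (x i), fun i => PI.rep (y i), ?_⟩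
  rw [br_sum]
  refine Finset.prod_congr rfl fun i _ => ?_
  rw [← br_ss h, cl_rep, cl_rep]

/-- all products of pairs -/
theorem hh_ofFn (s : Kˣ →* Kˣ →* B) : ∀ {n : ℕ} (w : Fin n → Kˣ), hh K s (List.ofFn w) =
    ∏ i, ∏ j, if i < j then s (w i) (w j) else 1 := by
  intro n
  induction n with
  | zero => intro w; simp [hh]
  | succ n ih =>
    intro w
    rw [List.ofFn_succ, hh, ih, Fin.prod_univ_succ]
    congr 1
    · rw [Fin.prod_univ_succ, if_neg (lt_irrefl _), one_mul, List.prod_ofFn, map_prod]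
      refine Finset.prod_congr rfl fun j _ => ?_
      rw [if_pos (Fin.succ_pos j)]
    · refine Finset.prod_congr rfl fun i _ => ?_
      rw [Fin.prod_univ_succ, if_neg (by simp), one_mul]
      refine Finset.prod_congr rfl fun j _ => ?_
      simp only [Fin.succ_lt_succ_iff]

/-- the upper triangular ones -/
def up (n : ℕ) : Fin n → Fin n → F2 := fun u v => if u < v then 1 else 0

theorem frm_up (h : Quad K σ) {n : ℕ} (w : Fin n → Kˣ) :
    br (frm (ss h) (fun u => cl (w u)) (up n)) = hh K σ (List.ofFn w) := by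
  rw [hh_ofFn, frm, br_sum, Fintype.prod_prod_type]
  refine Finset.prod_congr rfl fun i _ => Finset.prod_congr rfl fun j _ => ?_
  simp only [up]
  by_cases hij : i < j
  · rw [if_pos hij, if_pos hij, one_smul, br_ss]
  · rw [if_neg hij, if_neg hij, zero_smul, br_zero]

theorem up_symm (n : ℕ) (u v : Fin n) : up n u v + up n v u = om (Fin n) u v := by
  simp only [up, om, Matrix.of_apply]
  rcases lt_trichotomy u v with h | h | h
  · rw [if_pos h, if_neg (not_lt.2 h.le), if_neg h.ne, add_zero]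
  · subst h; simp
  · rw [if_neg (not_lt.2 h.le), if_pos h, if_neg h.ne', zero_add]

end

end Pool.Agent.HX84.PI
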