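import Mathlib
import Pool.Agent.H552R3.Tsen.Tower

/-! Conics over fields of transcendence degree one. -/

set_option autoImplicit false
set_option linter.all false

namespace Pool.Agent.HX84.PI

universe u

open Polynomial Pool.Agent.H552R3.Tsen

section

/-- a conic over `k[x]` has a point -/
theorem conic_poly {k : Type*} [Field k] [IsAlgClosed k] (P1 P2 P3 : k[X]) :
    ∃ X Y Z : k[X], ¬ (X = 0 ∧ Y = 0 ∧ Z = 0) ∧ P1 * X ^ 2 + P2 * Y ^ 2 = P3 * Z ^ 2 := by
  classical
  let d := P1.natDegree + P2.natDegree + P3.natDegree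
  let σ := Fin 3 × Fin (d + 1)
  let q : Fin 3 → (MvPolynomial σ k)[X] := fun i => ∑ j : Fin (d + 1), C (MvPolynomial.X (i, j)) * X ^ (j : ℕ)
  let E : (MvPolynomial σ k)[X] := P1.map MvPolynomial.C * q 0 ^ 2 + P2.map MvPolynomial.C * q 1 ^ 2 -
    P3.map MvPolynomial.C * q 2 ^ 2
  let qv : (σ → k) → Fin 3 → k[X] := fun v i => ∑ j : Fin (d + 1), C (v (i, j)) * X ^ (j : ℕ)
  have hq : ∀ (v : σ → k) i, (q i).map (MvPolynomial.eval v) = qv v i := by
    intro v i
    simp only [q, qv, Polynomial.map_sum, Polynomial.map_mul, Polynomial.map_pow, map_C, map_X, MvPolynomial.eval_X]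
  have hc : ∀ (v : σ → k) (P : k[X]), (P.map MvPolynomial.C).map (MvPolynomial.eval v) = P := by
    intro v P
    rw [Polynomial.map_map]
    have : (MvPolynomial.eval v).comp MvPolynomial.C = RingHom.id k := by
      ext x; simp
    rw [this, Polynomial.map_id]
  have hE : ∀ v : σ → k, E.map (MvPolynomial.eval v) = P1 * qv v 0 ^ 2 + P2 * qv v 1 ^ 2 - P3 * qv v 2 ^ 2 := by
    intro v
    simp only [E, Polynomial.map_sub, Polynomial.map_add, Polynomial.map_mul, Polynomial.map_pow, hq, hc]
  have hdeg : ∀ v i, (qv v i).natDegree ≤ d := by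
    intro v i
    apply natDegree_sum_le_of_forall_le
    intro j _
    exact (natDegree_C_mul_X_pow_le _ _).trans (by have := j.2; omega)
  obtain ⟨v, hv0, hv⟩ := exists_common_zero (k := k) (σ := σ) (ι := Fin (3 * d + 1)) (fun t => E.coeff (t : ℕ)) (by
    intro t
    have h1 : MvPolynomial.eval 0 (E.coeff (t : ℕ)) = (E.map (MvPolynomial.eval 0)).coeff (t : ℕ) := by
      rw [coeff_map]
    rw [h1, hE]
    have h2 : ∀ i, qv 0 i = 0 := by
      intro i
      simp [qv]
    rw [h2, h2, h2]
    simp) (by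
    simp only [σ, Fintype.card_prod, Fintype.card_fin]
    omega)
  refine ⟨qv v 0, qv v 1, qv v 2, ?_, ?_⟩
  · rintro ⟨h0, h1, h2⟩
    apply hv0
    funext ⟨i, j⟩
    have h3 : ∀ i, qv v i = 0 := by
      intro i
      fin_cases i
      · exact h0
      · exact h1
      · exact h2
    have h4 := congrArg (fun p => coeff p (j : ℕ)) (h3 i)
    simp only [qv, finset_sum_coeff, coeff_C_mul, coeff_X_pow, coeff_zero] at h4
    rw [Finset.sum_eq_single j] at h4
    · simpa using h4
    · intro j' _ hj'
      rw [if_neg, mul_zero]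
      intro h5
      exact hj' (Fin.ext h5.symm)
    · intro h5; exact absurd (Finset.mem_univ _) h5
  · rw [← sub_eq_zero, ← hE]
    ext t
    rw [coeff_zero]
    by_cases ht : t < 3 * d + 1
    · have h1 := hv ⟨t, ht⟩
      simp only at h1
      rw [coeff_map, h1]
    · apply coeff_eq_zero_of_natDegree_lt
      rw [hE]
      have h1 : ∀ i, (qv v i ^ 2).natDegree ≤ 2 * d := fun i => natDegree_pow_le.trans (by have := hdeg v i; omega)
      have hP : P1.natDegree ≤ d ∧ P2.natDegree ≤ d ∧ P3.natDegree ≤ d := by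
        refine ⟨?_, ?_, ?_⟩ <;> (simp only [d]; omega)
      have h2 : (P1 * qv v 0 ^ 2 + P2 * qv v 1 ^ 2 - P3 * qv v 2 ^ 2).natDegree ≤ 3 * d := by
        refine (natDegree_sub_le _ _).trans (max_le ((natDegree_add_le _ _).trans (max_le ?_ ?_)) ?_)
        · exact natDegree_mul_le.trans (by have := h1 0; omega)
        · exact natDegree_mul_le.trans (by have := h1 1; omega)
        · exact natDegree_mul_le.trans (by have := h1 2; omega)
      omega

theorem conic_tower {k E L : Type u} [Field k] [Field E] [Field L] [Algebra k E] [Algebra E L] [Algebra k L]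
    [IsScalarTower k E L] [IsAlgClosed k] [FiniteDimensional E L] (x : E) (hx : Transcendental k x)
    (hE : ∀ c : E, ∃ p q : k[X], aeval x q ≠ 0 ∧ c * aeval x q = aeval x p) (a b : L) :
    ∃ X Y Z : L, ¬ (X = 0 ∧ Y = 0 ∧ Z = 0) ∧ a * X ^ 2 + b * Y ^ 2 = Z ^ 2 := by
  classical
  have hX : Transcendental k (algebraMap E L x) := by
    rwa [transcendental_algebraMap_iff (algebraMap E L).injective]
  let ω := Module.finBasis E L
  have hspan : ∀ z : L, ∃ h : k[X], h ≠ 0 ∧ ∃ p : Fin (Module.finrank E L) → k[X],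
      aeval (algebraMap E L x) h * z = ∑ j, aeval (algebraMap E L x) (p j) * ω j := by
    intro z
    obtain ⟨h, hh, p, hp⟩ := common_denom x hE (fun j => ω.repr z j)
    refine ⟨h, ?_, p, ?_⟩
    · rintro rfl
      exact hh (map_zero _)
    · conv_lhs => rw [← ω.sum_repr z]
      rw [Finset.mul_sum]
      refine Finset.sum_congr rfl fun j _ => ?_
      rw [aeval_algebraMap_apply, aeval_algebraMap_apply, ← hp, map_mul, Algebra.smul_def, mul_assoc]
  have hlin : ∀ p : Fin (Module.finrank E L) → k[X],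
      ∑ j, aeval (algebraMap E L x) (p j) * ω j = 0 → ∀ j, p j = 0 := by
    intro p hp j
    have h1 : ∑ j, (aeval x (p j)) • ω j = 0 := by
      rw [← hp]
      refine Finset.sum_congr rfl fun j _ => ?_
      rw [aeval_algebraMap_apply, Algebra.smul_def]
    have h2 := (Fintype.linearIndependent_iff.1 ω.linearIndependent) _ h1 j
    by_contra h0
    exact hx ⟨p j, h0, h2⟩
  obtain ⟨v, hv0, hv⟩ := exists_zero (algebraMap E L x) ω hX hspan hlin (I := Fin 3)
    (MvPolynomial.C a * MvPolynomial.X 0 ^ 2 + MvPolynomial.C b * MvPolynomial.X 1 ^ 2 - MvPolynomial.X 2 ^ 2) 2 (by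
      refine (MvPolynomial.totalDegree_sub _ _).trans (max_le ((MvPolynomial.totalDegree_add _ _).trans (max_le ?_ ?_)) ?_)
      · refine (MvPolynomial.totalDegree_mul _ _).trans ?_
        rw [MvPolynomial.totalDegree_C, MvPolynomial.totalDegree_X_pow]
      · refine (MvPolynomial.totalDegree_mul _ _).trans ?_
        rw [MvPolynomial.totalDegree_C, MvPolynomial.totalDegree_X_pow]
      · rw [MvPolynomial.totalDegree_X_pow]) (by simp) (by simp)
  refine ⟨v 0, v 1, v 2, ?_, ?_⟩
  · rintro ⟨h0, h1, h2⟩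
    apply hv0
    funext i
    fin_cases i
    · exact h0
    · exact h1
    · exact h2
  · simp only [map_sub, map_add, map_mul, MvPolynomial.eval_C, map_pow, MvPolynomial.eval_X] at hv
    exact sub_eq_zero.1 hv

theorem conic_dep {k K : Type u} [Field k] [IsAlgClosed k] [Field K] [Algebra k K] (L : IntermediateField k K)
    (a b : K) (ha : a ∈ L) (hb : b ∈ L) (hx : Transcendental k a) (h : ¬ AlgebraicIndependent k ![a, b]) :
    ∃ X Y Z : K, X ∈ L ∧ Y ∈ L ∧ Z ∈ L ∧ ¬ (X = 0 ∧ Y = 0 ∧ Z = 0) ∧ a * X ^ 2 + b * Y ^ 2 = Z ^ 2 := by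
  have hy := alg_of_dep a b hx h
  let E := IntermediateField.adjoin k {a}
  let L0 := IntermediateField.adjoin E {b}
  haveI : FiniteDimensional E L0 := IntermediateField.adjoin.finiteDimensional hy.isIntegral
  let xE : E := IntermediateField.AdjoinSimple.gen k a
  have hxE : Transcendental k xE := by
    have h1 : algebraMap E K xE = a := rfl
    rw [← transcendental_algebraMap_iff (A := K) (algebraMap E K).injective, h1]
    exact hx
  have hE : ∀ c : E, ∃ p q : k[X], aeval xE q ≠ 0 ∧ c * aeval xE q = aeval xE p := by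
    intro c
    obtain ⟨p, q, h1⟩ := (IntermediateField.mem_adjoin_simple_iff k (c : K)).1 c.2
    by_cases hq : aeval a q = 0
    · refine ⟨0, 1, by simp, ?_⟩
      rw [hq, div_zero] at h1
      have : c = 0 := Subtype.ext h1
      rw [this, zero_mul, map_zero]
    · have h3 : ∀ p : k[X], ((aeval xE p : E) : K) = aeval a p := by
        intro p
        exact (aeval_algebraMap_apply K xE p).symm
      refine ⟨p, q, ?_, ?_⟩
      · intro h2
        apply hq
        rw [← h3, h2]
        rfl
      · apply Subtype.ext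
        rw [MulMemClass.coe_mul, h3, h3, h1, div_mul_cancel₀ _ hq]
  let aL : L0 := algebraMap E L0 xE
  let bL : L0 := IntermediateField.AdjoinSimple.gen E b
  obtain ⟨X, Y, Z, h0, h1⟩ := conic_tower (L := L0) xE hxE hE aL bL
  have hL0 : L0.restrictScalars k ≤ L := by
    change (IntermediateField.adjoin (IntermediateField.adjoin k {a}) {b}).restrictScalars k ≤ L
    rw [IntermediateField.adjoin_adjoin_left, IntermediateField.adjoin_le_iff]
    rintro c (hc | hc)
    · rw [Set.mem_singleton_iff] at hc; subst hc; exact ha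
    · rw [Set.mem_singleton_iff] at hc; subst hc; exact hb
  have hmem : ∀ w : L0, (w : K) ∈ L := fun w => hL0 w.2
  refine ⟨X, Y, Z, hmem X, hmem Y, hmem Z, ?_, ?_⟩
  · rintro ⟨h2, h3, h4⟩
    exact h0 ⟨Subtype.ext h2, Subtype.ext h3, Subtype.ext h4⟩
  · have h2 := congrArg (fun w : L0 => (w : K)) h1
    have h3 : (aL : K) * (X : K) ^ 2 + (bL : K) * (Y : K) ^ 2 = (Z : K) ^ 2 := by simpa using h2
    exact h3

end

end Pool.Agent.HX84.PI
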