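import Mathlib
import Pool.Agent.HX84.PI.Conic

/-! Odd degree functions on the line with prescribed square classes. -/

set_option autoImplicit false
set_option linter.all false

namespace Pool.Agent.HX84.PI

open Polynomial

theorem odd_factor {K : Type*} [Field K] : ∀ (n : ℕ) (F : K[X]), F.natDegree = n → Odd n →
    ∃ p : K[X], Irreducible p ∧ p ∣ F ∧ Odd p.natDegree := by
  intro n
  induction n using Nat.strong_induction_on with
  | _ n IH =>
  intro F hF hn
  by_cases hirr : Irreducible F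
  · exact ⟨F, hirr, dvd_rfl, by rw [hF]; exact hn⟩
  · have hF0 : F ≠ 0 := by
      rintro rfl
      rw [natDegree_zero] at hF
      subst hF
      simp at hn
    have hnu : ¬ IsUnit F := by
      intro hu
      rw [natDegree_eq_zero_of_isUnit hu] at hF
      subst hF
      simp at hn
    obtain ⟨a, b, hab, ha, hb⟩ : ∃ a b : K[X], F = a * b ∧ ¬ IsUnit a ∧ ¬ IsUnit b := by
      by_contra hcon
      push Not at hcon
      apply hirr
      refine ⟨hnu, fun a b hab => ?_⟩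
      by_cases ha : IsUnit a
      · exact Or.inl ha
      · exact Or.inr (hcon a b hab ha)
    have ha0 : a ≠ 0 := by rintro rfl; rw [zero_mul] at hab; exact hF0 hab
    have hb0 : b ≠ 0 := by rintro rfl; rw [mul_zero] at hab; exact hF0 hab
    have hdeg : a.natDegree + b.natDegree = n := by rw [← hF, hab, natDegree_mul ha0 hb0]
    have ha1 : 0 < a.natDegree := by
      rw [natDegree_pos_iff_degree_pos]
      exact degree_pos_of_ne_zero_of_nonunit ha0 ha
    have hb1 : 0 < b.natDegree := by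
      rw [natDegree_pos_iff_degree_pos]
      exact degree_pos_of_ne_zero_of_nonunit hb0 hb
    rcases Nat.even_or_odd a.natDegree with he | ho
    · have hbo : Odd b.natDegree := by
        rw [← hdeg] at hn
        rcases Nat.even_or_odd b.natDegree with h | h
        · exact absurd (he.add h) (Nat.not_even_iff_odd.2 hn)
        · exact h
      obtain ⟨p, hp, hpb, hpo⟩ := IH b.natDegree (by omega) b rfl hbo
      exact ⟨p, hp, hpb.trans (Dvd.intro_left _ hab.symm), hpo⟩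
    · obtain ⟨p, hp, hpa, hpo⟩ := IH a.natDegree (by omega) a rfl ho
      exact ⟨p, hp, hpa.trans (Dvd.intro _ hab.symm), hpo⟩

section

variable {k : Type*} [Field k] {N : ℕ} (a : Fin N → k)

/-- the monic polynomial with the given simple zeros -/
noncomputable def pw (w : Finset (Fin N)) : k[X] := ∏ i ∈ w, (X - C (a i))

theorem pw_ne_zero (w : Finset (Fin N)) : pw a w ≠ 0 :=
  Finset.prod_ne_zero_iff.2 fun i _ => X_sub_C_ne_zero _

theorem pw_natDegree (w : Finset (Fin N)) : (pw a w).natDegree = w.card := by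
  rw [pw, natDegree_prod _ _ fun i _ => X_sub_C_ne_zero _]
  simp

theorem pw_union (w w' : Finset (Fin N)) (h : Disjoint w w') : pw a (w ∪ w') = pw a w * pw a w' := by
  rw [pw, Finset.prod_union h]; rfl

theorem pw_eval (w : Finset (Fin N)) (c : k) : (pw a w).eval c = ∏ i ∈ w, (c - a i) := by
  rw [pw, eval_prod]
  simp

theorem pw_root (w : Finset (Fin N)) (c : k) (h : (pw a w).eval c = 0) : ∃ i ∈ w, c = a i := by
  rw [pw_eval, Finset.prod_eq_zero_iff] at h
  obtain ⟨i, hi, h⟩ := h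
  exact ⟨i, hi, sub_eq_zero.1 h⟩

variable {a} (ha : Function.Injective a)
include ha

/-- a simple zero -/
theorem pw_split (w : Finset (Fin N)) (c : k) (h : (pw a w).eval c = 0) :
    ∃ p : k[X], pw a w = (X - C c) * p ∧ p.eval c ≠ 0 := by
  classical
  obtain ⟨i, hi, rfl⟩ := pw_root a w c h
  refine ⟨pw a (w.erase i), ?_, ?_⟩
  · exact (Finset.mul_prod_erase w (fun i => X - C (a i)) hi).symm
  · intro h2
    obtain ⟨j, hj, h3⟩ := pw_root a _ _ h2
    exact (Finset.mem_erase.1 hj).1 (ha h3).symm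

theorem pw_square (w : Finset (Fin N)) (A B : k[X]) (hA : A ≠ 0) (h : pw a w * A ^ 2 = B ^ 2) : w = ∅ := by
  classical
  by_contra hw
  obtain ⟨i, hi⟩ := Finset.nonempty_iff_ne_empty.2 hw
  have hz : (pw a w).eval (a i) = 0 := by
    rw [pw_eval]
    exact Finset.prod_eq_zero hi (sub_self _)
  obtain ⟨p, hp, hp0⟩ := pw_split ha w (a i) hz
  have hB : B ≠ 0 := by
    rintro rfl
    rw [zero_pow two_ne_zero] at h
    exact mul_ne_zero (pw_ne_zero a w) (pow_ne_zero _ hA) h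
  have h1 := congrArg (rootMultiplicity (a i)) h
  rw [rootMultiplicity_mul (mul_ne_zero (pw_ne_zero a w) (pow_ne_zero _ hA)), pow_two, pow_two,
    rootMultiplicity_mul (mul_ne_zero hA hA), rootMultiplicity_mul (mul_ne_zero hB hB)] at h1
  have h2 : rootMultiplicity (a i) (pw a w) = 1 := by
    rw [hp, rootMultiplicity_mul (by rw [← hp]; exact pw_ne_zero a w), rootMultiplicity_X_sub_C_self,
      rootMultiplicity_eq_zero hp0]
  rw [h2] at h1
  omega

omit ha in
theorem third (P1 P2 P3 X1 Y1 Z1 : k[X]) (c : k) (h : P1 * X1 ^ 2 = P2 * Y1 ^ 2 + P3 * Z1 ^ 2) (hY : Y1.eval c = 0)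
    (hZ : Z1.eval c = 0) (hs : P1.eval c = 0 → ∃ p : k[X], P1 = (X - C c) * p ∧ p.eval c ≠ 0) : X1.eval c = 0 := by
  by_cases h1 : P1.eval c = 0
  · obtain ⟨p, rfl, hp⟩ := hs h1
    obtain ⟨y, rfl⟩ := dvd_iff_isRoot.2 hY
    obtain ⟨z, rfl⟩ := dvd_iff_isRoot.2 hZ
    have h2 : (X - C c) * (p * X1 ^ 2) = (X - C c) * ((X - C c) * (P2 * y ^ 2 + P3 * z ^ 2)) := by
      linear_combination h
    have h3 := congrArg (eval c) (mul_left_cancel₀ (X_sub_C_ne_zero c) h2)
    rw [eval_mul, eval_mul, eval_sub, eval_X, eval_C, sub_self, zero_mul, eval_pow] at h3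
    exact pow_eq_zero_iff (two_ne_zero) |>.1 ((mul_eq_zero.1 h3).resolve_left hp)
  · have h3 := congrArg (eval c) h
    rw [eval_mul, eval_add, eval_mul, eval_mul, eval_pow, eval_pow, eval_pow, hY, hZ] at h3
    rw [zero_pow two_ne_zero, mul_zero, mul_zero, add_zero] at h3
    exact pow_eq_zero_iff (two_ne_zero) |>.1 ((mul_eq_zero.1 h3).resolve_left h1)

/-- **Primitive solutions.** -/
theorem exists_fun [IsAlgClosed k] (v v' : Finset (Fin N)) (hodd : Odd (v.card * v'.card + (v ∩ v').card)) :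
    ∃ X1 Y1 Z1 : k[X], X1 ≠ 0 ∧ Y1 ≠ 0 ∧ Z1 ≠ 0 ∧
      pw a (v \ v') * X1 ^ 2 + pw a (v' \ v) * Y1 ^ 2 = pw a (v ∩ v') * Z1 ^ 2 ∧
      ∀ c, ¬ ((pw a (v \ v') * X1 ^ 2).eval c = 0 ∧ (pw a (v ∩ v') * Z1 ^ 2).eval c = 0) := by
  classical
  let S : ℕ → Prop := fun n => ∃ X1 Y1 Z1 : k[X], ¬ (X1 = 0 ∧ Y1 = 0 ∧ Z1 = 0) ∧
    pw a (v \ v') * X1 ^ 2 + pw a (v' \ v) * Y1 ^ 2 = pw a (v ∩ v') * Z1 ^ 2 ∧
    X1.natDegree + Y1.natDegree + Z1.natDegree = n
  have hS : ∃ n, S n := by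
    obtain ⟨X1, Y1, Z1, h0, h1⟩ := conic_poly (pw a (v \ v')) (pw a (v' \ v)) (pw a (v ∩ v'))
    exact ⟨_, X1, Y1, Z1, h0, h1, rfl⟩
  obtain ⟨X1, Y1, Z1, h0, h1, hn⟩ := Nat.find_spec hS
  have hmin : ∀ X2 Y2 Z2 : k[X], ¬ (X2 = 0 ∧ Y2 = 0 ∧ Z2 = 0) →
      pw a (v \ v') * X2 ^ 2 + pw a (v' \ v) * Y2 ^ 2 = pw a (v ∩ v') * Z2 ^ 2 →
      X1.natDegree + Y1.natDegree + Z1.natDegree ≤ X2.natDegree + Y2.natDegree + Z2.natDegree := by
    intro X2 Y2 Z2 h2 h3
    rw [hn]
    exact Nat.find_min' hS ⟨X2, Y2, Z2, h2, h3, rfl⟩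
  have e1 : pw a (v' \ v) * pw a (v ∩ v') = pw a v' := by
    rw [← pw_union a _ _ (by
      rw [Finset.disjoint_left]; intro i hi hi'
      exact (Finset.mem_sdiff.1 hi).2 (Finset.mem_inter.1 hi').1), Finset.inter_comm, Finset.sdiff_union_inter]
  have e2 : pw a (v \ v') * pw a (v ∩ v') = pw a v := by
    rw [← pw_union a _ _ (by
      rw [Finset.disjoint_left]; intro i hi hi'
      exact (Finset.mem_sdiff.1 hi).2 (Finset.mem_inter.1 hi').2), Finset.sdiff_union_inter]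
  have hdisj : Disjoint (v \ v') (v' \ v) := by
    rw [Finset.disjoint_left]; intro i hi hi'
    exact (Finset.mem_sdiff.1 hi).2 (Finset.mem_sdiff.1 hi').1
  have hv : v ≠ ∅ := by
    rintro rfl
    simp at hodd
  have hv' : v' ≠ ∅ := by
    rintro rfl
    simp at hodd
  have hX : X1 ≠ 0 := by
    rintro rfl
    have hY : Y1 ≠ 0 := by
      rintro rfl
      apply h0
      refine ⟨rfl, rfl, ?_⟩
      rw [zero_pow two_ne_zero, mul_zero, mul_zero, zero_add] at h1
      exact pow_eq_zero_iff (two_ne_zero) |>.1 ((mul_eq_zero.1 h1.symm).resolve_left (pw_ne_zero a _))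
    apply hv'
    refine pw_square ha v' Y1 (pw a (v ∩ v') * Z1) hY ?_
    rw [← e1]
    linear_combination pw a (v ∩ v') * h1
  have hY : Y1 ≠ 0 := by
    rintro rfl
    apply hv
    refine pw_square ha v X1 (pw a (v ∩ v') * Z1) hX ?_
    rw [← e2]
    linear_combination pw a (v ∩ v') * h1
  have hZ : Z1 ≠ 0 := by
    rintro rfl
    obtain ⟨j, hj⟩ := IsAlgClosed.exists_pow_nat_eq (-1 : k) (n := 2) (by norm_num)
    have h3 := pw_square ha ((v \ v') ∪ (v' \ v)) X1 (C j * (pw a (v' \ v) * Y1)) hX (by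
      rw [pw_union a _ _ hdisj, mul_pow, ← C_pow, hj, map_neg, map_one]
      linear_combination pw a (v' \ v) * h1)
    rw [Finset.union_eq_empty, Finset.sdiff_eq_empty_iff_subset, Finset.sdiff_eq_empty_iff_subset] at h3
    have h4 : v = v' := Finset.Subset.antisymm h3.1 h3.2
    subst h4
    rw [Finset.inter_self, ← Nat.mul_succ] at hodd
    exact (Nat.not_even_iff_odd.2 hodd) (Nat.even_mul_succ_self _)
  refine ⟨X1, Y1, Z1, hX, hY, hZ, h1, ?_⟩
  rintro c ⟨hc1, hc2⟩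
  have hc3 : (pw a (v' \ v) * Y1 ^ 2).eval c = 0 := by
    have h4 := congrArg (eval c) h1
    rw [eval_add, hc1, hc2, zero_add] at h4
    exact h4
  rw [eval_mul, eval_pow] at hc1 hc2 hc3
  have hdis : ∀ w w' : Finset (Fin N), Disjoint w w' → (pw a w).eval c = 0 → (pw a w').eval c ≠ 0 := by
    intro w w' hw h4 h5
    obtain ⟨i, hi, rfl⟩ := pw_root a _ _ h4
    obtain ⟨j, hj, h6⟩ := pw_root a _ _ h5
    rw [← ha h6] at hj
    exact Finset.disjoint_left.1 hw hi hj
  have hd1 : Disjoint (v \ v') (v ∩ v') := by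
    rw [Finset.disjoint_left]; intro i hi hi'
    exact (Finset.mem_sdiff.1 hi).2 (Finset.mem_inter.1 hi').2
  have hd2 : Disjoint (v' \ v) (v ∩ v') := by
    rw [Finset.disjoint_left]; intro i hi hi'
    exact (Finset.mem_sdiff.1 hi).2 (Finset.mem_inter.1 hi').1
  have hsq0 : ∀ {x y : k}, x * y ^ 2 = 0 → x ≠ 0 → y = 0 := fun h5 h6 =>
    pow_eq_zero_iff (two_ne_zero) |>.1 ((mul_eq_zero.1 h5).resolve_left h6)
  have hall : X1.eval c = 0 ∧ Y1.eval c = 0 ∧ Z1.eval c = 0 := by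
    by_cases c1 : (pw a (v \ v')).eval c = 0
    · have hy := hsq0 hc3 (hdis _ _ hdisj c1)
      have hz := hsq0 hc2 (hdis _ _ hd1 c1)
      exact ⟨third (pw a (v \ v')) (-pw a (v' \ v)) (pw a (v ∩ v')) X1 Y1 Z1 c (by linear_combination h1) hy hz
        (pw_split ha _ c), hy, hz⟩
    · have hx := hsq0 hc1 c1
      by_cases c2 : (pw a (v' \ v)).eval c = 0
      · have hz := hsq0 hc2 (hdis _ _ hd2 c2)
        exact ⟨hx, third (pw a (v' \ v)) (-pw a (v \ v')) (pw a (v ∩ v')) Y1 X1 Z1 c (by linear_combination h1) hx hz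
          (pw_split ha _ c), hz⟩
      · have hy := hsq0 hc3 c2
        exact ⟨hx, hy, third (pw a (v ∩ v')) (pw a (v \ v')) (pw a (v' \ v)) Z1 X1 Y1 c (by linear_combination -h1) hx hy
          (pw_split ha _ c)⟩
  obtain ⟨hx, hy, hz⟩ := hall
  obtain ⟨x, hx⟩ := dvd_iff_isRoot.2 hx
  obtain ⟨y, hy⟩ := dvd_iff_isRoot.2 hy
  obtain ⟨z, hz⟩ := dvd_iff_isRoot.2 hz
  have hx0 : x ≠ 0 := by rintro rfl; rw [mul_zero] at hx; exact hX hx
  have hy0 : y ≠ 0 := by rintro rfl; rw [mul_zero] at hy; exact hY hy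
  have hz0 : z ≠ 0 := by rintro rfl; rw [mul_zero] at hz; exact hZ hz
  have h5 := hmin x y z (fun h => hx0 h.1) (by
    apply mul_left_cancel₀ (pow_ne_zero 2 (X_sub_C_ne_zero c))
    rw [hx, hy, hz] at h1
    linear_combination h1)
  rw [hx, hy, hz, natDegree_mul (X_sub_C_ne_zero c) hx0, natDegree_mul (X_sub_C_ne_zero c) hy0,
    natDegree_mul (X_sub_C_ne_zero c) hz0, natDegree_X_sub_C] at h5
  omega

end

end Pool.Agent.HX84.PI
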