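import Mathlib
import Pool.Agent.HX84.PI.Odd
import Pool.Agent.Y109.PI.Tower

/-! Points of the curve with two prescribed square classes. -/

set_option autoImplicit false
set_option linter.all false

namespace Pool.Agent.HX84.PI

open Polynomial Pool.Agent.H552R3.Tsen Pool.Agent.Y109.PI Pool.Agent.H552R3.SymBr

universe u

section

variable {k K : Type u} [Field k] [IsAlgClosed k] [Field K] [Algebra k K]

theorem not_indep (L : IntermediateField k K) (hL : Algebra.trdeg k L ≤ 1) (a b : K) (ha : a ∈ L) (hb : b ∈ L) :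
    ¬ AlgebraicIndependent k ![a, b] := by
  intro h
  have h1 : AlgebraicIndependent k ![(⟨a, ha⟩ : L), (⟨b, hb⟩ : L)] := by
    apply AlgebraicIndependent.of_comp L.val
    convert h using 1
    funext i
    fin_cases i <;> rfl
  have h2 := h1.lift_cardinalMk_le_trdeg
  have h3 := h2.trans (Cardinal.lift_le.2 hL)
  simp at h3

theorem sq_of_range (x : K) (hx : x ∈ Set.range (algebraMap k K)) : ∃ y ∈ Set.range (algebraMap k K), y ^ 2 = x := by
  obtain ⟨c, rfl⟩ := hx
  obtain ⟨d, hd⟩ := IsAlgClosed.exists_pow_nat_eq c (n := 2) (by norm_num)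
  exact ⟨algebraMap k K d, ⟨d, rfl⟩, by rw [← map_pow, hd]⟩

/-- `(1 - b) / (1 + b)` is not constant -/
theorem moebius (h2 : (2 : K) ≠ 0) (b : K) (hb : b ∉ Set.range (algebraMap k K)) :
    1 + b ≠ 0 ∧ 1 - b ≠ 0 ∧ ((1 - b) / (1 + b)) ^ 2 ∉ Set.range (algebraMap k K) := by
  have h1 : 1 + b ≠ 0 := by
    intro h
    apply hb
    exact ⟨-1, by rw [map_neg, map_one]; linear_combination -h⟩
  have h3 : 1 - b ≠ 0 := by
    intro h
    apply hb
    exact ⟨1, by rw [map_one]; linear_combination h⟩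
  refine ⟨h1, h3, ?_⟩
  intro h
  obtain ⟨y, ⟨c, rfl⟩, hy⟩ := sq_of_range _ h
  have h4 : ∃ d : k, algebraMap k K d = (1 - b) / (1 + b) := by
    have h5 : (algebraMap k K c - (1 - b) / (1 + b)) * (algebraMap k K c + (1 - b) / (1 + b)) = 0 := by
      linear_combination hy
    rcases mul_eq_zero.1 h5 with h6 | h6
    · exact ⟨c, by linear_combination h6⟩
    · exact ⟨-c, by rw [map_neg]; linear_combination -h6⟩
  obtain ⟨d, hd⟩ := h4
  rw [eq_div_iff h1] at hd
  have h7 : (algebraMap k K (1 + d)) * b = algebraMap k K (1 - d) := by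
    rw [map_add, map_sub, map_one]
    linear_combination hd
  have h8 : (1 + d) ≠ 0 := by
    intro h9
    rw [h9, map_zero, zero_mul] at h7
    have h10 : (1 - d) = 0 := by
      apply (algebraMap k K).injective
      rw [map_zero, ← h7]
    have h11 : (2 : k) = 0 := by linear_combination h9 + h10
    apply h2
    have h12 := congrArg (algebraMap k K) h11
    rw [map_zero, map_ofNat] at h12
    exact h12
  apply hb
  refine ⟨(1 + d)⁻¹ * (1 - d), ?_⟩
  rw [map_mul, ← h7, ← mul_assoc, ← map_mul, inv_mul_cancel₀ h8, map_one, one_mul]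

theorem split_one (h2 : (2 : K) ≠ 0) (L : IntermediateField k K) (hL : Algebra.trdeg k L ≤ 1) (a b : K) (ha : a ∈ L)
    (hb : b ∈ L) (ha0 : a ≠ 0) (hb0 : b ≠ 0) (hns : ¬ ((∃ x : K, x ^ 2 = a) ∧ (∃ x : K, x ^ 2 = b))) :
    ∃ f ∈ L, f ∉ Set.range (algebraMap k K) ∧ ∃ l m : K, l ≠ 0 ∧ m ≠ 0 ∧ f = a * l ^ 2 ∧ 1 - f = b * m ^ 2 := by
  obtain ⟨i, hi⟩ := IsAlgClosed.exists_pow_nat_eq (-1 : k) (n := 2) (by norm_num)
  have hj : (algebraMap k K i) ^ 2 = -1 := by rw [← map_pow, hi, map_neg, map_one]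
  set j := algebraMap k K i with hjdef
  have hj0 : j ≠ 0 := by
    intro h
    rw [h, zero_pow two_ne_zero] at hj
    exact neg_ne_zero.2 one_ne_zero hj.symm
  have hrange : ∀ x : K, (¬ ∃ y : K, y ^ 2 = x) → x ∉ Set.range (algebraMap k K) := by
    intro x hx h
    obtain ⟨y, -, hy⟩ := sq_of_range x h
    exact hx ⟨y, hy⟩
  by_cases hsa : ∃ x : K, x ^ 2 = a
  · have hsb : ¬ ∃ x : K, x ^ 2 = b := fun h => hns ⟨hsa, h⟩
    obtain ⟨e, he⟩ := hsa
    have he0 : e ≠ 0 := by rintro rfl; rw [zero_pow two_ne_zero] at he; exact ha0 he.symm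
    obtain ⟨h1, h3, h4⟩ := moebius h2 b (hrange b hsb)
    refine ⟨((1 - b) / (1 + b)) ^ 2, ?_, h4, (1 - b) / (1 + b) / e, 2 / (1 + b), ?_, ?_, ?_, ?_⟩
    · exact pow_mem (L.div_mem (L.sub_mem L.one_mem hb) (L.add_mem L.one_mem hb)) 2
    · exact div_ne_zero (div_ne_zero h3 h1) he0
    · exact div_ne_zero h2 h1
    · rw [← he]; field_simp
    · field_simp; ring
  · by_cases hsb : ∃ x : K, x ^ 2 = b
    · obtain ⟨e, he⟩ := hsb
      have he0 : e ≠ 0 := by rintro rfl; rw [zero_pow two_ne_zero] at he; exact hb0 he.symm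
      obtain ⟨h1, h3, h4⟩ := moebius h2 a (hrange a hsa)
      refine ⟨1 - ((1 - a) / (1 + a)) ^ 2, ?_, ?_, 2 / (1 + a), (1 - a) / (1 + a) / e, ?_, ?_, ?_, ?_⟩
      · exact L.sub_mem L.one_mem (pow_mem (L.div_mem (L.sub_mem L.one_mem ha) (L.add_mem L.one_mem ha)) 2)
      · rintro ⟨c, hc⟩
        apply h4
        exact ⟨1 - c, by rw [map_sub, map_one, hc]; ring⟩
      · exact div_ne_zero h2 h1
      · exact div_ne_zero (div_ne_zero h3 h1) he0
      · field_simp; ring
      · rw [← he]; field_simp; ring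
    · -- both are not squares
      have hta : Transcendental k a := by
        intro h
        obtain ⟨c, hc⟩ := mem_range_of_alg a h
        exact hrange a hsa ⟨c, hc⟩
      obtain ⟨X1, Y1, Z1, hX, hY, hZ, h0, h1⟩ := conic_dep L a b ha hb hta (not_indep L hL a b ha hb)
      have hX0 : X1 ≠ 0 := by
        rintro rfl
        rw [zero_pow two_ne_zero, mul_zero, zero_add] at h1
        by_cases hY0 : Y1 = 0
        · apply h0
          subst hY0
          rw [zero_pow two_ne_zero, mul_zero] at h1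
          exact ⟨rfl, rfl, pow_eq_zero_iff (two_ne_zero) |>.1 h1.symm⟩
        · apply hsb
          exact ⟨Z1 / Y1, by rw [div_pow, ← h1]; field_simp⟩
      have hY0 : Y1 ≠ 0 := by
        rintro rfl
        rw [zero_pow two_ne_zero, mul_zero, add_zero] at h1
        exact hsa ⟨Z1 / X1, by rw [div_pow, ← h1]; field_simp⟩
      by_cases hZ0 : Z1 = 0
      · subst hZ0
        rw [zero_pow two_ne_zero] at h1
        have hba : b = a * (j * (X1 / Y1)) ^ 2 := by
          rw [mul_pow, hj]; field_simp; linear_combination h1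
        obtain ⟨h3, h4, -⟩ := moebius h2 a (hrange a hsa)
        have h5 : a - 1 ≠ 0 := fun h => h4 (by linear_combination -h)
        have h7 : a + 1 ≠ 0 := by rw [add_comm]; exact h3
        refine ⟨a * ((a + 1) / (2 * a)) ^ 2, ?_, ?_, (a + 1) / (2 * a), (a - 1) / (2 * a) / (X1 / Y1), ?_, ?_, rfl, ?_⟩
        · have h2L : (2 : K) ∈ L := by
            rw [← one_add_one_eq_two]; exact L.add_mem L.one_mem L.one_mem
          exact L.mul_mem ha (pow_mem (L.div_mem (L.add_mem ha L.one_mem) (L.mul_mem h2L ha)) 2)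
        · intro h
          obtain ⟨y, -, hy⟩ := sq_of_range _ h
          have h6 : (a + 1) / (2 * a) ≠ 0 := div_ne_zero (by rw [add_comm]; exact h3) (mul_ne_zero h2 ha0)
          exact hsa ⟨y / ((a + 1) / (2 * a)), by rw [div_pow, hy]; field_simp⟩
        · exact div_ne_zero (by rw [add_comm]; exact h3) (mul_ne_zero h2 ha0)
        · exact div_ne_zero (div_ne_zero h5 (mul_ne_zero h2 ha0)) (div_ne_zero hX0 hY0)
        · rw [hba, mul_pow, hj]
          field_simp
          ring
      · refine ⟨a * (X1 / Z1) ^ 2, ?_, ?_, X1 / Z1, Y1 / Z1, div_ne_zero hX0 hZ0, div_ne_zero hY0 hZ0, rfl, ?_⟩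
        · exact L.mul_mem ha (pow_mem (L.div_mem hX hZ) 2)
        · intro h
          obtain ⟨y, -, hy⟩ := sq_of_range _ h
          exact hsa ⟨y / (X1 / Z1), by rw [div_pow, hy]; field_simp⟩
        · field_simp
          linear_combination -h1

end

end Pool.Agent.HX84.PI
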