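import Mathlib
import Pool.Agent.HX84.PI.Match

/-! Points of the curve with two prescribed square classes: the extension. -/

set_option autoImplicit false
set_option linter.all false

namespace Pool.Agent.HX84.PI

open Polynomial Pool.Agent.H552R3.Tsen Pool.Agent.Y109.PI Pool.Agent.H552R3.SymBr

universe u

section

variable {k : Type u} [Field k] [IsAlgClosed k] {N : ℕ} {a : Fin N → k}

theorem fdeg (v v' : Finset (Fin N)) (hodd : Odd (v.card * v'.card + (v ∩ v').card)) (X1 Y1 Z1 : k[X])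
    (hX : X1 ≠ 0) (hY : Y1 ≠ 0) (hZ : Z1 ≠ 0)
    (h1 : pw a (v \ v') * X1 ^ 2 + pw a (v' \ v) * Y1 ^ 2 = pw a (v ∩ v') * Z1 ^ 2) (M : Type u) [Field M] [Algebra k M]
    (f : M) (hf : f ∉ Set.range (algebraMap k M)) :
    Odd ((pw a (v \ v') * X1 ^ 2).map (algebraMap k M) - C f * (pw a (v ∩ v') * Z1 ^ 2).map (algebraMap k M)).natDegree := by
  classical
  have dA : (pw a (v \ v') * X1 ^ 2).natDegree = (v \ v').card + 2 * X1.natDegree := by
    rw [natDegree_mul (pw_ne_zero a _) (pow_ne_zero _ hX), pw_natDegree, natDegree_pow]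
  have dB : (pw a (v' \ v) * Y1 ^ 2).natDegree = (v' \ v).card + 2 * Y1.natDegree := by
    rw [natDegree_mul (pw_ne_zero a _) (pow_ne_zero _ hY), pw_natDegree, natDegree_pow]
  have dC : (pw a (v ∩ v') * Z1 ^ 2).natDegree = (v ∩ v').card + 2 * Z1.natDegree := by
    rw [natDegree_mul (pw_ne_zero a _) (pow_ne_zero _ hZ), pw_natDegree, natDegree_pow]
  have hA0 : pw a (v \ v') * X1 ^ 2 ≠ 0 := mul_ne_zero (pw_ne_zero a _) (pow_ne_zero _ hX)
  have hC0 : pw a (v ∩ v') * Z1 ^ 2 ≠ 0 := mul_ne_zero (pw_ne_zero a _) (pow_ne_zero _ hZ)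
  have c1 : v.card = (v \ v').card + (v ∩ v').card := by
    rw [add_comm, Finset.card_inter_add_card_sdiff]
  have c2 : v'.card = (v' \ v).card + (v ∩ v').card := by
    rw [add_comm, Finset.inter_comm, Finset.card_inter_add_card_sdiff]
  rw [c1, c2] at hodd
  generalize hp : (v \ v').card = p at *
  generalize hq : (v' \ v).card = q at *
  generalize hr : (v ∩ v').card = r at *
  have hf0 : f ≠ 0 := by
    rintro rfl
    exact hf ⟨0, map_zero _⟩
  set A := pw a (v \ v') * X1 ^ 2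
  set B := pw a (v' \ v) * Y1 ^ 2
  set D := pw a (v ∩ v') * Z1 ^ 2
  have hB : B = D - A := by rw [← h1]; ring
  have eA : (A.map (algebraMap k M)).natDegree = A.natDegree := natDegree_map _
  have eD : (C f * D.map (algebraMap k M)).natDegree = D.natDegree := by
    rw [natDegree_C_mul hf0, natDegree_map]
  have par : ((p % 2 = 0 ∨ p % 2 = 1) ∧ (q % 2 = 0 ∨ q % 2 = 1) ∧ (r % 2 = 0 ∨ r % 2 = 1)) := by omega
  have hodd2 : ((p % 2 + r % 2) * (q % 2 + r % 2) + r % 2) % 2 = 1 := by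
    rw [Nat.odd_iff] at hodd
    rw [← hodd]
    simp [Nat.add_mod, Nat.mul_mod]
  rcases lt_trichotomy A.natDegree D.natDegree with hlt | heq | hgt
  · rw [natDegree_sub_eq_right_of_natDegree_lt (by rw [eA, eD]; exact hlt), eD, dC, Nat.odd_iff]
    have hBd : B.natDegree = D.natDegree := by
      rw [hB, natDegree_sub_eq_left_of_natDegree_lt hlt]
    rw [dB, dC] at hBd
    obtain ⟨h3, h4, h5⟩ := par
    have h6 : q % 2 = r % 2 := by omega
    rcases h5 with h5 | h5
    · rcases h3 with h3 | h3 <;> simp [h3, h6, h5] at hodd2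
    · omega
  · have hlead : ((A.map (algebraMap k M)) - C f * D.map (algebraMap k M)).coeff D.natDegree ≠ 0 := by
      rw [coeff_sub, coeff_C_mul, coeff_map, coeff_map, ← heq, coeff_natDegree, heq, coeff_natDegree]
      intro h
      apply hf
      have h3 : algebraMap k M D.leadingCoeff ≠ 0 := by
        rw [Ne, map_eq_zero]
        exact leadingCoeff_ne_zero.2 hC0
      refine ⟨A.leadingCoeff / D.leadingCoeff, ?_⟩
      rw [map_div₀, div_eq_iff h3]
      linear_combination h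
    rw [natDegree_eq_of_le_of_coeff_ne_zero (n := D.natDegree) ((natDegree_sub_le _ _).trans (by
      rw [eA, eD, heq, max_self])) hlead, dC, Nat.odd_iff]
    rw [dA, dC] at heq
    obtain ⟨h3, h4, h5⟩ := par
    have h6 : p % 2 = r % 2 := by omega
    rcases h5 with h5 | h5
    · rcases h4 with h4 | h4 <;> simp [h4, h6, h5] at hodd2
    · omega
  · rw [natDegree_sub_eq_left_of_natDegree_lt (by rw [eA, eD]; exact hgt), eA, dA, Nat.odd_iff]
    have hBd : B.natDegree = A.natDegree := by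
      rw [hB, natDegree_sub_eq_right_of_natDegree_lt hgt]
    rw [dB, dA] at hBd
    obtain ⟨h3, h4, h5⟩ := par
    have h6 : q % 2 = p % 2 := by omega
    rcases h3 with h3 | h3
    · rcases h5 with h5 | h5 <;> simp [h3, h6, h5] at hodd2
    · omega

theorem coprime_k (A D : k[X]) (hD : D ≠ 0) (h : ∀ c, ¬ (A.eval c = 0 ∧ D.eval c = 0)) : IsCoprime A D := by
  rw [Polynomial.isCoprime_iff_aeval_ne_zero_of_isAlgClosed k k]
  intro c
  by_contra hcon
  push Not at hcon
  exact h c ⟨by simpa using hcon.1, by simpa using hcon.2⟩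

end

section

variable {k K : Type u} [Field k] [IsAlgClosed k] [Field K] [Algebra k K] {N : ℕ} {a : Fin N → k}

theorem pw_aeval (w : Finset (Fin N)) {M : Type u} [Field M] [Algebra k M] (c : M) :
    aeval c (pw a w) = ∏ i ∈ w, (c - algebraMap k M (a i)) := by
  rw [pw, map_prod]
  simp

theorem fs1 {M : Type u} [Field M] (P R x z F E1 L : M) (hx : x ≠ 0) (hz : z ≠ 0) (hroot : P * x ^ 2 = F * (R * z ^ 2))
    (hF : F = E1 * L ^ 2) : P * R = E1 * (L * (R * z ^ 2 / (x * z))) ^ 2 := by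
  field_simp
  linear_combination R * hroot + R ^ 2 * z ^ 2 * hF

/-- **Matching.** -/
theorem matching (h2 : (2 : K) ≠ 0) (L : IntermediateField k K) (hL : Algebra.trdeg k L ≤ 1)
    (ha : Function.Injective a) (v v' : Finset (Fin N)) (hodd : Odd (v.card * v'.card + (v ∩ v').card))
    (e1 e2 : K) (he1 : e1 ∈ L) (he2 : e2 ∈ L) (he10 : e1 ≠ 0) (he20 : e2 ≠ 0)
    (hns : ¬ ((∃ x : K, x ^ 2 = e1) ∧ (∃ x : K, x ^ 2 = e2))) :
    ∃ (K' : Type u) (_ : Field K') (_ : Algebra K K') (_ : Algebra k K') (_ : IsScalarTower k K K')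
      (_ : FiniteDimensional K K') (o : ℕ), Odd o ∧ Module.finrank K K' ∣ 2 * o ∧
      ∃ c y l m : K', c ∉ Set.range (algebraMap k K') ∧ c ∈ acl L K' ∧
        y ^ 2 = ∏ i, (c - algebraMap k K' (a i)) ∧ l ≠ 0 ∧ m ≠ 0 ∧
        ∏ i ∈ v, (c - algebraMap k K' (a i)) = algebraMap K K' e1 * l ^ 2 ∧
        ∏ i ∈ v', (c - algebraMap k K' (a i)) = algebraMap K K' e2 * m ^ 2 := by
  classical
  obtain ⟨f, hfL, hfr, l, m, hl, hm, hfl, hfm⟩ := split_one h2 L hL e1 e2 he1 he2 he10 he20 hns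
  obtain ⟨X1, Y1, Z1, hX, hY, hZ, hrel, hcop⟩ := exists_fun ha v v' hodd
  have hD0 : pw a (v ∩ v') * Z1 ^ 2 ≠ 0 := mul_ne_zero (pw_ne_zero a _) (pow_ne_zero _ hZ)
  obtain ⟨s, t, hst⟩ := coprime_k _ _ hD0 hcop
  obtain ⟨p, hp, hpd, hpo⟩ := odd_factor _ _ rfl (fdeg v v' hodd X1 Y1 Z1 hX hY hZ hrel K f hfr)
  haveI : Fact (Irreducible p) := ⟨hp⟩
  let K1 := AdjoinRoot p
  haveI hfin1 : FiniteDimensional K K1 := (AdjoinRoot.powerBasis hp.ne_zero).finite
  have hdeg1 : Module.finrank K K1 = p.natDegree := by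
    rw [(AdjoinRoot.powerBasis hp.ne_zero).finrank, AdjoinRoot.powerBasis_dim]
  let c : K1 := AdjoinRoot.root p
  have hpc : aeval c p = 0 := by rw [AdjoinRoot.aeval_eq, AdjoinRoot.mk_self]
  have hroot : aeval c (pw a (v \ v') * X1 ^ 2) = algebraMap K K1 f * aeval c (pw a (v ∩ v') * Z1 ^ 2) := by
    obtain ⟨q, hq⟩ := hpd
    have h3 := congrArg (aeval c) hq
    rw [map_mul (aeval c) p q, hpc, zero_mul, map_sub, map_mul, aeval_C, aeval_map_algebraMap, aeval_map_algebraMap,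
      sub_eq_zero] at h3
    exact h3
  have hcr : c ∉ Set.range (algebraMap k K1) := by
    rintro ⟨d, hd⟩
    rw [← hd, aeval_algebraMap_apply, aeval_algebraMap_apply] at hroot
    simp only [coe_aeval_eq_eval] at hroot
    have h4 : (pw a (v ∩ v') * Z1 ^ 2).eval d ≠ 0 := by
      intro h5
      rw [h5, map_zero, mul_zero, map_eq_zero] at hroot
      exact hcop d ⟨hroot, h5⟩
    apply hfr
    refine ⟨(pw a (v \ v') * X1 ^ 2).eval d / (pw a (v ∩ v') * Z1 ^ 2).eval d, ?_⟩
    apply (algebraMap K K1).injective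
    rw [← IsScalarTower.algebraMap_apply k K K1, map_div₀, hroot, mul_div_assoc, div_self, mul_one]
    rw [Ne, map_eq_zero]
    exact h4
  have hbez := congrArg (aeval c) hst
  rw [map_add, map_mul (aeval c) s, map_mul (aeval c) t, map_one] at hbez
  have hc0 : aeval c (pw a (v ∩ v') * Z1 ^ 2) ≠ 0 := by
    intro h5
    rw [hroot, h5, mul_zero, mul_zero, mul_zero, add_zero] at hbez
    exact zero_ne_one hbez
  have hne : ∀ P : k[X], P ≠ 0 → aeval c P ≠ 0 := by
    intro P hP h5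
    apply hcr
    obtain ⟨d, hd⟩ := mem_range_of_alg (k := k) c ⟨P, hP, h5⟩
    exact ⟨d, hd⟩
  have hca : c ∈ acl L K1 := by
    rw [mem_acl]
    have hfr' : (⟨f, hfL⟩ : L) ∉ Set.range (algebraMap k L) := by
      rintro ⟨d, hd⟩
      exact hfr ⟨d, congrArg Subtype.val hd⟩
    have ho := fdeg v v' hodd X1 Y1 Z1 hX hY hZ hrel L ⟨f, hfL⟩ hfr'
    refine ⟨(pw a (v \ v') * X1 ^ 2).map (algebraMap k L) - C (⟨f, hfL⟩ : L) * (pw a (v ∩ v') * Z1 ^ 2).map (algebraMap k L),
      ?_, ?_⟩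
    · intro h0
      rw [h0] at ho
      simp at ho
    · rw [map_sub, map_mul (aeval c) (C (⟨f, hfL⟩ : L)), aeval_C, aeval_map_algebraMap, aeval_map_algebraMap, sub_eq_zero]
      exact hroot
  obtain ⟨K2, _, _, hfin2, hdeg2, y, hy⟩ := exists_root (K := K1) 2 Nat.prime_two
    (Units.mk0 (aeval c (pw a Finset.univ)) (hne _ (pw_ne_zero a _)))
  letI : Algebra K K2 := ((algebraMap K1 K2).comp (algebraMap K K1)).toAlgebra
  letI : Algebra k K2 := ((algebraMap K1 K2).comp (algebraMap k K1)).toAlgebra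
  haveI : IsScalarTower K K1 K2 := IsScalarTower.of_algebraMap_eq (fun _ => rfl)
  haveI : IsScalarTower k K1 K2 := IsScalarTower.of_algebraMap_eq (fun _ => rfl)
  haveI : IsScalarTower k K K2 := IsScalarTower.of_algebraMap_eq (fun x => by
    change algebraMap K1 K2 (algebraMap k K1 x) = algebraMap K1 K2 (algebraMap K K1 (algebraMap k K x))
    rw [← IsScalarTower.algebraMap_apply k K K1])
  haveI : FiniteDimensional K K2 := Module.Finite.trans K1 K2
  have hx0 : aeval c X1 ≠ 0 := hne _ hX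
  have hy0 : aeval c Y1 ≠ 0 := hne _ hY
  have hz0 : aeval c Z1 ≠ 0 := hne _ hZ
  have hr0 : aeval c (pw a (v ∩ v')) ≠ 0 := hne _ (pw_ne_zero a _)
  have hfl' : algebraMap K K1 f = algebraMap K K1 e1 * algebraMap K K1 l ^ 2 := by
    rw [← map_pow, ← map_mul, ← hfl]
  have hfm' : 1 - algebraMap K K1 f = algebraMap K K1 e2 * algebraMap K K1 m ^ 2 := by
    rw [← map_pow, ← map_mul, ← hfm, map_sub, map_one]
  have hrel' := congrArg (aeval c) hrel
  rw [map_add, map_mul, map_mul, map_mul, map_pow, map_pow, map_pow] at hrel'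
  rw [map_mul, map_mul, map_pow, map_pow] at hroot
  have hl0 : algebraMap K K1 l ≠ 0 := by rw [Ne, map_eq_zero]; exact hl
  have hm0 : algebraMap K K1 m ≠ 0 := by rw [Ne, map_eq_zero]; exact hm
  have hdis1 : Disjoint (v \ v') (v ∩ v') := by
    rw [Finset.disjoint_left]; intro i hi hi'
    exact (Finset.mem_sdiff.1 hi).2 (Finset.mem_inter.1 hi').2
  have hdis2 : Disjoint (v' \ v) (v ∩ v') := by
    rw [Finset.disjoint_left]; intro i hi hi'
    exact (Finset.mem_sdiff.1 hi).2 (Finset.mem_inter.1 hi').1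
  have eq1 : aeval c (pw a v) = algebraMap K K1 e1 *
      (algebraMap K K1 l * (aeval c (pw a (v ∩ v') * Z1 ^ 2) / (aeval c X1 * aeval c Z1))) ^ 2 := by
    rw [← Finset.sdiff_union_inter v v', pw_union a _ _ hdis1, Finset.sdiff_union_inter, map_mul, map_mul, map_pow]
    exact fs1 _ _ _ _ _ _ _ hx0 hz0 hroot hfl'
  have eq2 : aeval c (pw a v') = algebraMap K K1 e2 *
      (algebraMap K K1 m * (aeval c (pw a (v ∩ v') * Z1 ^ 2) / (aeval c Y1 * aeval c Z1))) ^ 2 := by
    have e3 : v' = (v' \ v) ∪ (v ∩ v') := by rw [Finset.inter_comm, Finset.sdiff_union_inter]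
    have e4 : pw a v' = pw a (v' \ v) * pw a (v ∩ v') := by rw [← pw_union a _ _ hdis2, ← e3]
    rw [e4, map_mul, map_mul, map_pow]
    exact fs1 _ _ _ _ _ _ _ hy0 hz0 (by linear_combination hrel' - hroot) hfm'
  refine ⟨K2, inferInstance, inferInstance, inferInstance, inferInstance, inferInstance, p.natDegree, hpo, ?_,
    algebraMap K1 K2 c, y, algebraMap K1 K2 (algebraMap K K1 l * (aeval c (pw a (v ∩ v') * Z1 ^ 2) / (aeval c X1 * aeval c Z1))),
    algebraMap K1 K2 (algebraMap K K1 m * (aeval c (pw a (v ∩ v') * Z1 ^ 2) / (aeval c Y1 * aeval c Z1))), ?_, ?_, ?_, ?_, ?_,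
    ?_, ?_⟩
  · rw [← Module.finrank_mul_finrank K K1 K2, hdeg1, mul_comm]
    exact Nat.mul_dvd_mul_right hdeg2 _
  · rintro ⟨d, hd⟩
    apply hcr
    exact ⟨d, (algebraMap K1 K2).injective hd⟩
  · rw [mem_acl] at hca ⊢
    exact hca.algebraMap
  · have h5 := congrArg Units.val hy
    rw [Units.val_pow_eq_pow_val] at h5
    rw [h5]
    change algebraMap K1 K2 (aeval c (pw a Finset.univ)) = _
    rw [pw_aeval, map_prod]
    refine Finset.prod_congr rfl fun i _ => ?_
    rw [map_sub, ← IsScalarTower.algebraMap_apply k K1 K2]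
  · rw [Ne, map_eq_zero]
    exact mul_ne_zero hl0 (div_ne_zero hc0 (mul_ne_zero hx0 hz0))
  · rw [Ne, map_eq_zero]
    exact mul_ne_zero hm0 (div_ne_zero hc0 (mul_ne_zero hy0 hz0))
  · have h5 := congrArg (algebraMap K1 K2) eq1
    rw [pw_aeval, map_prod, map_mul, map_pow (algebraMap K1 K2), ← IsScalarTower.algebraMap_apply K K1 K2] at h5
    rw [← h5]
    refine Finset.prod_congr rfl fun i _ => ?_
    rw [map_sub, ← IsScalarTower.algebraMap_apply k K1 K2]
  · have h5 := congrArg (algebraMap K1 K2) eq2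
    rw [pw_aeval, map_prod, map_mul, map_pow (algebraMap K1 K2), ← IsScalarTower.algebraMap_apply K K1 K2] at h5
    rw [← h5]
    refine Finset.prod_congr rfl fun i _ => ?_
    rw [map_sub, ← IsScalarTower.algebraMap_apply k K1 K2]

end

end Pool.Agent.HX84.PI
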