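import Mathlib
import Pool.Agent.HX84.PI.Inst
import Pool.Agent.HX84.PI.Match2
import Pool.Agent.HX84.PI.Kum

/-! The index bound from the normal form. -/

set_option autoImplicit false
set_option linter.all false

open Matrix

namespace Pool.Agent.HX84.PI

open Polynomial Pool.Agent.H552R3.Tsen Pool.Agent.Y109.PI Pool.Agent.H552R3.SymBr Pool.Agent.H552R3.SymPred
  Pool.Agent.Helper18.Br Pool.Agent.Helper346.Bra

universe u

theorem quad_sym {K : Type u} [Field K] {ζ : K} (hn : 0 < 2) (hζ : IsPrimitiveRoot ζ 2) (hneg : ∃ j : K, j * j = -1) :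
    Quad K (symHom hn hζ) := by
  have hsq : ∀ a b : Kˣ, symHom hn hζ a (b ^ 2) = 1 := by
    intro a b
    rw [map_pow]
    exact symCl_tors hn hζ a b
  refine ⟨hsq, ?_, ?_, ?_⟩
  · intro a b
    have h1 := symCl_anti hn hζ a b
    have h2 := symCl_tors hn hζ b a
    rw [pow_two] at h2
    rw [symHom_apply, symHom_apply, h1]
    exact inv_eq_of_mul_eq_one_left h2
  · intro a
    rcases symCl_diag hn hζ a with h | h
    · exact h
    · rw [symHom_apply, h, ← symHom_apply]
      obtain ⟨j, hj⟩ := hneg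
      have hj0 : j ≠ 0 := by
        rintro rfl
        rw [mul_zero] at hj
        exact neg_ne_zero.2 one_ne_zero hj.symm
      have h1 : (-1 : Kˣ) = (Units.mk0 j hj0) ^ 2 := by
        ext
        rw [Units.val_pow_eq_pow_val, Units.val_mk0, pow_two, hj]
        rfl
      rw [h1, hsq]
  · intro a b hab
    exact symCl_steinberg hn hζ b a (by linear_combination hab)

section

variable {k : Type u} [Field k] [IsAlgClosed k] (hζ : IsPrimitiveRoot (-1 : k) 2)

theorem neg_one_sq (M : Type u) [Field M] [Algebra k M] : ∃ j : M, j * j = -1 := by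
  obtain ⟨i, hi⟩ := IsAlgClosed.exists_pow_nat_eq (-1 : k) (n := 2) (by norm_num)
  exact ⟨algebraMap k M i, by rw [← map_mul, ← pow_two, hi, map_neg, map_one]⟩

theorem quad_k (M : Type u) [Field M] [Algebra k M] : Quad M (symHom two_pos (rootK M hζ)) :=
  quad_sym two_pos _ (neg_one_sq (k := k) M)

/-- square classes of elements of a subfield -/
def HL {M : Type u} [Field M] [Algebra k M] (E : IntermediateField k M) : Submodule F2 (GG M) where
  carrier := {y | ∃ x : Mˣ, (x : M) ∈ E ∧ cl x = y}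
  add_mem' := by
    rintro _ _ ⟨x, hx, rfl⟩ ⟨y, hy, rfl⟩
    exact ⟨x * y, by rw [Units.val_mul]; exact E.mul_mem hx hy, cl_mul _ _⟩
  zero_mem' := ⟨1, E.one_mem, cl_one⟩
  smul_mem' := by
    rintro c _ ⟨x, hx, rfl⟩
    rcases f2_cases c with rfl | rfl
    · rw [zero_smul]; exact ⟨1, E.one_mem, cl_one⟩
    · rw [one_smul]; exact ⟨x, hx, rfl⟩

theorem HL_tsen {M : Type u} [Field M] [Algebra k M] (E : IntermediateField k M) (hE : Algebra.trdeg k E ≤ 1) :
    ∀ x ∈ HL E, ∀ y ∈ HL E, ss (quad_k hζ M) x y = 0 := by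
  rintro _ ⟨x, hx, rfl⟩ _ ⟨y, hy, rfl⟩
  rw [ss_eq_zero]
  exact tsen two_pos hζ x y (not_indep E hE _ _ hx hy)

theorem fin_bound (M : Type u) [Field M] [Algebra k M] (E : IntermediateField k M) (hE : Algebra.trdeg k E ≤ 1)
    {I : Type} [Fintype I] [DecidableEq I] (z h : I → GG M) (hh : ∀ u, h u ∈ HL E) (a : I → I → F2) (r : ℕ)
    (e f : Fin r → I → F2) (hdec : (Matrix.of fun u v => a u v + a v u : Matrix I I F2) = ∑ i, wdg (e i) (f i))
    (hli : LinearIndependent F2 (Sum.elim e f)) (W : Submodule F2 (I → F2))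
    (hWk : ∀ x ∈ W, (Matrix.of fun u v => a u v + a v u : Matrix I I F2) *ᵥ x = 0)
    (hW : ∀ x ∈ W, ∑ u, x u • h u = 0) :
    IndDvd (br (frm (ss (quad_k hζ M)) z a + lw (ss (quad_k hζ M)) z h))
      (2 ^ (Fintype.card I - Module.finrank F2 W - r)) := by
  have hs := ss_alt (quad_k hζ M)
  rw [frm_decomp (ss (quad_k hζ M)) hs z a r e f hdec]
  have h1 := absorb (ss (quad_k hζ M)) hs (HL E) (HL_tsen hζ E hE) z h hh W hW r e f
    (fun i => (mem_orth W _).2 fun x hx => (ker_orth _ r e f hdec hli x (hWk x hx) i).1)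
    (fun i => (mem_orth W _).2 fun x hx => (ker_orth _ r e f hdec hli x (hWk x hx) i).2) hli
  obtain ⟨x, y, hxy⟩ := h1.rep
  rw [hxy]
  exact (hasRep_prod two_pos (rootK M hζ) _ x y).indDvd

end

section

variable {G B : Type*} [AddCommGroup G] [AddCommGroup B] [Module F2 G] [Module F2 B] (s : G →ₗ[F2] G →ₗ[F2] B)

theorem lw_om (hs : ∀ x, s x x = 0) {n : ℕ} (z q : Fin (n + 1) → G) (hz : z (Fin.last n) = ∑ u : Fin n, z u.castSucc)
    (hq : q (Fin.last n) = ∑ u : Fin n, q u.castSucc) (h : ∑ i, s (z i) (q i) = 0) :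
    lw s (fun u : Fin n => z u.castSucc) (fun u : Fin n => ∑ v, om (Fin n) u v • q v.castSucc) = 0 := by
  have h2 : s (∑ u : Fin n, z u.castSucc) (∑ v : Fin n, q v.castSucc) =
      ∑ u : Fin n, s (z u.castSucc) (∑ v : Fin n, q v.castSucc) := by
    rw [map_sum s, LinearMap.sum_apply]
  rw [Fin.sum_univ_castSucc, hz, hq, h2, ← Finset.sum_add_distrib] at h
  rw [lw, ← h]
  refine Finset.sum_congr rfl fun u _ => ?_
  rw [map_sum, map_sum, LinearMap.sum_apply]
  have h1 : ∀ v : Fin n, s (om (Fin n) u v • q v.castSucc) (z u.castSucc) =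
      s (z u.castSucc) (q v.castSucc) + if v = u then s (z u.castSucc) (q u.castSucc) else 0 := by
    intro v
    rw [symm_of_alt s hs]
    by_cases hv : v = u
    · subst hv
      rw [if_pos rfl, om, Matrix.of_apply, if_pos rfl, zero_smul, map_zero, f2_add_self]
    · rw [if_neg hv, om, Matrix.of_apply, if_neg (Ne.symm hv), one_smul, add_zero]
  rw [Finset.sum_congr rfl fun v _ => h1 v, Finset.sum_add_distrib, Finset.sum_ite_eq', if_pos (Finset.mem_univ _),
    add_comm]

end

end Pool.Agent.HX84.PI
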