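import Mathlib
import Pool.Agent.HX84.PI.Fin

/-! The main bound. -/

set_option autoImplicit false
set_option linter.all false

open Matrix

namespace Pool.Agent.HX84.PI

open Polynomial Pool.Agent.H552R3.Tsen Pool.Agent.Y109.PI Pool.Agent.H552R3.SymBr Pool.Agent.H552R3.SymPred
  Pool.Agent.Helper18.Br Pool.Agent.Helper346.Bra

universe u

theorem cl_last {M : Type u} [Field M] {n : ℕ} (w : Fin (n + 1) → Mˣ) (c : M) (h : ∏ i, (w i : M) = c ^ 2) :
    cl (w (Fin.last n)) = ∑ u : Fin n, cl (w u.castSucc) := by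
  have hc0 : c ≠ 0 := by
    rintro rfl
    rw [zero_pow two_ne_zero, Finset.prod_eq_zero_iff] at h
    obtain ⟨i, -, hi⟩ := h
    exact (w i).ne_zero hi
  have h1 : cl (∏ i, w i) = 0 := by
    rw [cl_eq_zero]
    refine ⟨Units.mk0 c hc0, ?_⟩
    ext
    rw [Units.val_pow_eq_pow_val, Units.val_mk0, ← h, Units.coe_prod]
  rw [Fin.prod_univ_castSucc, cl_mul, cl_prod] at h1
  have h2 := f2_add_self (cl (w (Fin.last n)))
  exact (add_right_cancel (h1.trans h2.symm)).symm

section

variable {k : Type u} [Field k] [IsAlgClosed k] (hζ : IsPrimitiveRoot (-1 : k) 2)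

include hζ in
theorem two_ne (M : Type u) [Field M] [Algebra k M] : (2 : M) ≠ 0 := by
  have := n_ne_zero two_pos (rootK M hζ)
  exact_mod_cast this

theorem diff_sq (M : Type u) [Field M] [Algebra k M] (x y : k) :
    ∃ c : M, algebraMap k M x - algebraMap k M y = c ^ 2 := by
  obtain ⟨d, hd⟩ := IsAlgClosed.exists_pow_nat_eq (x - y) (n := 2) (by norm_num)
  exact ⟨algebraMap k M d, by rw [← map_pow, hd, map_sub]⟩

/-- the relation of the polarization -/
theorem P_rel (M : Type u) [Field M] [Algebra k M] (g : ℕ) (a : Fin (2 * g + 1) → k) (ha : Function.Injective a)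
    (U Y : M[X]) (hU : U.Monic) (hdeg : U.natDegree ≤ g) (hdvd : U ∣ Y ^ 2 - ∏ i, (X - C (algebraMap k M (a i))))
    (z : Fin (2 * g + 1) → Mˣ) (hz : ∀ i, (z i : M) = U.eval (algebraMap k M (a i))) :
    frm (ss (quad_k hζ M)) (fun u : Fin (2 * g) => cl (z u.castSucc)) (up (2 * g)) = 0 := by
  have h := quad_k hζ M
  have hne : ∀ i, U.eval (algebraMap k M (a i)) ≠ 0 := fun i => by rw [← hz]; exact (z i).ne_zero
  have hzu : (fun i => Units.mk0 (U.eval (algebraMap k M (a i))) (hne i)) = z := by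
    funext i
    ext
    rw [Units.val_mk0, hz]
  have h1 := hh_mumford h (two_ne hζ M) (neg_one_sq (k := k) M) (N := 2 * g + 1) rfl (fun i => algebraMap k M (a i))
    ((algebraMap k M).injective.comp ha) (fun i j _ => diff_sq M (a i) (a j)) U Y hU (by omega) hdvd hne
  rw [hzu, List.ofFn_succ', List.concat_eq_append, hh_perm h (List.perm_append_singleton _ _), hh] at h1
  obtain ⟨c, hc⟩ := prod_eval_sq (fun i => algebraMap k M (a i)) U Y hU (neg_one_sq (k := k) M) hdvd
  have h2 := cl_last z c (by rw [← hc]; exact Finset.prod_congr rfl fun i _ => hz i)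
  have h3 : cl ((List.ofFn fun i : Fin (2 * g) => z i.castSucc).prod) = cl (z (Fin.last (2 * g))) := by
    rw [h2, List.prod_ofFn, cl_prod]
  rw [h.congr (x := z (Fin.last (2 * g))) rfl h3, h.self, one_mul] at h1
  apply br_inj
  rw [frm_up, h1, br_zero]

/-- the relation of a point -/
theorem K_rel (M : Type u) [Field M] [Algebra k M] (g : ℕ) (a : Fin (2 * g + 1) → k) (ha : Function.Injective a)
    (U Y : M[X]) (hU : U.Monic) (hdeg : U.natDegree ≤ g) (hdvd : U ∣ Y ^ 2 - ∏ i, (X - C (algebraMap k M (a i))))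
    (z : Fin (2 * g + 1) → Mˣ) (hz : ∀ i, (z i : M) = U.eval (algebraMap k M (a i))) (c y : M)
    (hy : y ^ 2 = ∏ i, (c - algebraMap k M (a i))) (q : Fin (2 * g + 1) → Mˣ)
    (hq : ∀ i, (q i : M) = c - algebraMap k M (a i)) :
    lw (ss (quad_k hζ M)) (fun u : Fin (2 * g) => cl (z u.castSucc))
      (fun u : Fin (2 * g) => ∑ v, om (Fin (2 * g)) u v • cl (q v.castSucc)) = 0 := by
  have h := quad_k hζ M
  have hne : ∀ i, U.eval (algebraMap k M (a i)) ≠ 0 := fun i => by rw [← hz]; exact (z i).ne_zero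
  have hqe : ∀ i, c - algebraMap k M (a i) ≠ 0 := fun i => by rw [← hq]; exact (q i).ne_zero
  have h1 := kr h (two_ne hζ M) (neg_one_sq (k := k) M) (N := 2 * g + 1) rfl (fun i => algebraMap k M (a i))
    ((algebraMap k M).injective.comp ha) (fun i j _ => diff_sq M (a i) (a j)) c y hqe hy U.natDegree U Y hU rfl hdeg
    hdvd hne
  obtain ⟨d, hd⟩ := prod_eval_sq (fun i => algebraMap k M (a i)) U Y hU (neg_one_sq (k := k) M) hdvd
  refine lw_om (ss (quad_k hζ M)) (ss_alt _) (fun i => cl (z i)) (fun i => cl (q i))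
    (cl_last z d (by rw [← hd]; exact Finset.prod_congr rfl fun i _ => hz i))
    (cl_last q y (by rw [hy]; exact Finset.prod_congr rfl fun i _ => hq i)) ?_
  apply br_inj
  rw [br_sum, br_zero, ← h1]
  refine Finset.prod_congr rfl fun i _ => ?_
  rw [br_ss]
  congr 1
  · congr 1
    ext
    rw [Units.val_mk0, hz]
  · ext
    rw [Units.val_mk0, hq]

theorem br_smul_ss (M : Type u) [Field M] [Algebra k M] (c : F2) (x y : Mˣ) :
    br (c • ss (quad_k hζ M) (cl x) (cl y)) = if c = 0 then 1 else symCl two_pos (rootK M hζ) x y := by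
  rcases f2_cases c with rfl | rfl
  · rw [zero_smul, br_zero, if_pos rfl]
  · rw [one_smul, br_ss, if_neg one_ne_zero]; rfl

theorem res_frm (K K' : Type u) [Field K] [Algebra k K] [Field K'] [Algebra K K'] [Algebra k K'] [IsScalarTower k K K']
    {n : ℕ} (z h : Fin n → Kˣ) (A : Fin n → Fin n → F2) :
    res K' (br (frm (ss (quad_k hζ K)) (fun u => cl (z u)) A + lw (ss (quad_k hζ K)) (fun u => cl (z u)) (fun u => cl (h u)))) =
      br (frm (ss (quad_k hζ K')) (fun u => cl (ι K' (z u))) A +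
        lw (ss (quad_k hζ K')) (fun u => cl (ι K' (z u))) (fun u => cl (ι K' (h u)))) := by
  have hres : ∀ x y : Kˣ, res K' (symCl two_pos (rootK K hζ) x y) = symCl two_pos (rootK K' hζ) (ι K' x) (ι K' y) := by
    intro x y
    rw [res_symCl]
    exact symCl_congr two_pos _ _ (IsScalarTower.algebraMap_apply k K K' (-1)).symm _ _
  rw [br_add, br_add, map_mul, frm, frm, lw, lw, br_sum, br_sum, br_sum, br_sum, map_prod, map_prod]
  congr 1
  · refine Finset.prod_congr rfl fun i _ => ?_
    rw [br_smul_ss hζ, br_smul_ss hζ]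
    by_cases hi : A i.1 i.2 = 0
    · rw [if_pos hi, if_pos hi, map_one]
    · rw [if_neg hi, if_neg hi, hres]
  · refine Finset.prod_congr rfl fun i _ => ?_
    rw [br_ss, br_ss, symHom_apply, symHom_apply, hres]

end

end Pool.Agent.HX84.PI
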