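import Mathlib
import Pool.Agent.HX84.PI.Main

/-! The main bound: assembly. -/

set_option autoImplicit false
set_option linter.all false

open Matrix

namespace Pool.Agent.HX84.PI

open Polynomial Pool.Agent.H552R3.Tsen Pool.Agent.Y109.PI Pool.Agent.H552R3.SymBr Pool.Agent.H552R3.SymPred
  Pool.Agent.Helper18.Br Pool.Agent.Helper346.Bra

universe u

/-- the support of a vector over the field with two elements -/
def supp {n : ℕ} (w : Fin n → F2) : Finset (Fin (n + 1)) :=
  (Finset.univ.filter fun u => w u = 1).map Fin.castSuccEmb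

theorem sum_supp {n : ℕ} (w : Fin n → F2) {G : Type*} [AddCommGroup G] [Module F2 G] (q : Fin (n + 1) → G) :
    ∑ u : Fin n, w u • q u.castSucc = ∑ i ∈ supp w, q i := by
  rw [supp, Finset.sum_map, Finset.sum_filter]
  refine Finset.sum_congr rfl fun u _ => ?_
  rcases f2_cases (w u) with h | h
  · rw [h, zero_smul, if_neg zero_ne_one]
  · rw [h, one_smul, if_pos rfl]; rfl

theorem card_supp {n : ℕ} (w : Fin n → F2) : ((supp w).card : F2) = ∑ u, w u := by
  rw [supp, Finset.card_map, Finset.card_filter, Nat.cast_sum]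
  refine Finset.sum_congr rfl fun u _ => ?_
  rcases f2_cases (w u) with h | h
  · rw [h, if_neg zero_ne_one, Nat.cast_zero]
  · rw [h, if_pos rfl, Nat.cast_one]

theorem card_inter_supp {n : ℕ} (w w' : Fin n → F2) : ((supp w ∩ supp w').card : F2) = w ⬝ᵥ w' := by
  have h1 : supp w ∩ supp w' = supp fun u => w u * w' u := by
    rw [supp, supp, supp, ← Finset.map_inter, ← Finset.filter_and]
    congr 1
    apply Finset.filter_congr
    intro u _
    have : ∀ p q : F2, (p = 1 ∧ q = 1) ↔ p * q = 1 := by decide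
    exact this _ _
  rw [h1, card_supp, dotProduct]

theorem odd_supp {g : ℕ} (m m' : Fin (2 * g) → F2) (h : m ⬝ᵥ (om (Fin (2 * g)) *ᵥ m') = 1) :
    Odd ((supp (om (Fin (2 * g)) *ᵥ m)).card * (supp (om (Fin (2 * g)) *ᵥ m')).card +
      (supp (om (Fin (2 * g)) *ᵥ m) ∩ supp (om (Fin (2 * g)) *ᵥ m')).card) := by
  set w := om (Fin (2 * g)) *ᵥ m with hw
  set w' := om (Fin (2 * g)) *ᵥ m' with hw'
  have hm : m = om (Fin (2 * g)) *ᵥ w := by
    rw [hw, mulVec_mulVec, om_mul g (Fintype.card_fin _), one_mulVec]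
  have h1 : (((supp w).card * (supp w').card + (supp w ∩ supp w').card : ℕ) : F2) = 1 := by
    rw [Nat.cast_add, Nat.cast_mul, card_supp, card_supp, card_inter_supp, ← h]
    conv_rhs => rw [hm]
    rw [dotProduct, dotProduct, Finset.sum_mul_sum]
    have h2 : ∀ u, (om (Fin (2 * g)) *ᵥ w) u * w' u = ∑ v, (w v * w' u + if v = u then w v * w' u else 0) := by
      intro u
      rw [mulVec, dotProduct, Finset.sum_mul]
      refine Finset.sum_congr rfl fun v _ => ?_
      simp only [om, Matrix.of_apply]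
      by_cases hv : v = u
      · subst hv
        rw [if_pos rfl, if_pos rfl, zero_mul, zero_mul, f2_add_self]
      · rw [if_neg (Ne.symm hv), if_neg hv, one_mul, add_zero]
    rw [Finset.sum_congr rfl fun u _ => h2 u, Finset.sum_comm, ← Finset.sum_add_distrib]
    refine Finset.sum_congr rfl fun v _ => ?_
    rw [Finset.sum_add_distrib]
    congr 1
    rw [Finset.sum_ite_eq', if_pos (Finset.mem_univ _)]
  rw [← Nat.not_even_iff_odd, even_iff_two_dvd, ← ZMod.natCast_eq_zero_iff, h1]
  decide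

theorem pow_dvd {d e s o : ℕ} (h1 : d ∣ 2 ^ s) (h2 : d ∣ o * 2 ^ e) (ho : Odd o) : d ∣ 2 ^ e := by
  obtain ⟨t, -, rfl⟩ := (Nat.dvd_prime_pow Nat.prime_two).1 h1
  refine Nat.Coprime.dvd_of_dvd_mul_left ?_ h2
  exact Nat.Coprime.pow_left _ (Nat.coprime_two_left.2 ho)

theorem li_pair {I : Type} [Fintype I] [DecidableEq I] (m m' : I → F2) (h : m ⬝ᵥ (om I *ᵥ m') = 1) :
    Module.finrank F2 (Submodule.span F2 (Set.range ![m, m'])) = 2 := by
  have hself : ∀ x : I → F2, x ⬝ᵥ (om I *ᵥ x) = 0 := by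
    intro x
    have h1 : x ⬝ᵥ (om I *ᵥ x) = ∑ q : I × I, x q.1 * (om I q.1 q.2 * x q.2) := by
      rw [dotProduct, Fintype.sum_prod_type]
      refine Finset.sum_congr rfl fun u _ => ?_
      rw [mulVec, dotProduct, Finset.mul_sum]
    rw [h1]
    refine Finset.sum_involution (fun q _ => (q.2, q.1)) ?_ ?_ ?_ ?_
    · rintro ⟨u, v⟩ _
      simp only
      rw [om_symm v u]
      have : ∀ p q r : F2, p * (q * r) + r * (q * p) = 0 := by decide
      exact this _ _ _
    · rintro ⟨u, v⟩ _ h2 h3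
      simp only [Prod.mk.injEq] at h3
      apply h2
      simp only
      rw [h3.1, om, Matrix.of_apply, if_pos rfl, zero_mul, mul_zero]
    · intro a _; exact Finset.mem_univ _
    · intro a _; rfl
  have hli : LinearIndependent F2 ![m, m'] := by
    rw [LinearIndependent.pair_iff]
    intro s t hst
    have h1 : (s • m + t • m') ⬝ᵥ (om I *ᵥ m') = 0 := by rw [hst, zero_dotProduct]
    rw [add_dotProduct, smul_dotProduct, smul_dotProduct, h, hself, smul_zero, add_zero, smul_eq_mul, mul_one] at h1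
    refine ⟨h1, ?_⟩
    rw [h1, zero_smul, zero_add] at hst
    by_contra ht
    have ht1 : t = 1 := by
      rcases f2_cases t with h | h
      · exact absurd h ht
      · exact h
    rw [ht1, one_smul] at hst
    rw [hst, mulVec_zero, dotProduct_zero] at h
    exact zero_ne_one h
  rw [finrank_span_eq_card hli, Fintype.card_fin]

section

variable {k : Type u} [Field k] [IsAlgClosed k] (hζ : IsPrimitiveRoot (-1 : k) 2)

theorem comb_eq {M : Type u} [Field M] {n : ℕ} (x : Fin n → F2) (w : Fin n → Mˣ) :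
    ∑ u, x u • cl (w u) = cl (∏ u, if x u = 1 then w u else 1) := by
  rw [cl_prod]
  refine Finset.sum_congr rfl fun u _ => ?_
  rcases f2_cases (x u) with h | h
  · rw [h, zero_smul, if_neg zero_ne_one, cl_one]
  · rw [h, one_smul, if_pos rfl]

theorem cl_comb {K : Type u} [Field K] {n : ℕ} (h : Fin n → Kˣ) (x : Fin n → F2) (t : Kˣ) (K' : Type u) [Field K']
    [Algebra K K'] (ht : cl t = ∑ u, x u • cl (h u)) : cl (ι K' t) = ∑ u, x u • cl (ι K' (h u)) := by
  rw [comb_eq] at ht ⊢
  obtain ⟨d, hd⟩ := (cl_eq_iff _ _).1 ht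
  rw [cl_eq_iff]
  refine ⟨ι K' d, ?_⟩
  rw [← map_pow, ← map_mul, ← hd, map_prod]
  refine Finset.prod_congr rfl fun u _ => ?_
  by_cases hu : x u = 1
  · rw [if_pos hu, if_pos hu]
  · rw [if_neg hu, if_neg hu, map_one]

/-- **The main bound.** -/
theorem main_bound (K : Type u) [Field K] [Algebra k K] (L : IntermediateField k K) (hL : Algebra.trdeg k L ≤ 1)
    (g : ℕ) (hg : 2 ≤ g) (a : Fin (2 * g + 1) → k) (ha : Function.Injective a)
    (U Y : K[X]) (hU : U.Monic) (hdeg : U.natDegree ≤ g) (hdvd : U ∣ Y ^ 2 - ∏ i, (X - C (algebraMap k K (a i))))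
    (z : Fin (2 * g + 1) → Kˣ) (hz : ∀ i, (z i : K) = U.eval (algebraMap k K (a i)))
    (A : Fin (2 * g) → Fin (2 * g) → F2) (h : Fin (2 * g) → Kˣ) (hh : ∀ u, (h u : K) ∈ L) :
    IndDvd (br (frm (ss (quad_k hζ K)) (fun u : Fin (2 * g) => cl (z u.castSucc)) A +
      lw (ss (quad_k hζ K)) (fun u : Fin (2 * g) => cl (z u.castSucc)) (fun u => cl (h u)))) (2 ^ (g + g / 2 - 1)) := by
  classical
  have hcard : Fintype.card (Fin (2 * g)) = 2 * g := Fintype.card_fin _
  have halt : ∀ A : Fin (2 * g) → Fin (2 * g) → F2, Alt (Matrix.of fun u v => A u v + A v u : Matrix (Fin (2 * g)) (Fin (2 * g)) F2) := by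
    intro A
    constructor
    · intro u
      rw [Matrix.of_apply]
      exact f2_add_self _
    · intro u v
      rw [Matrix.of_apply, Matrix.of_apply]
      have : ∀ p q : F2, p + q = -(q + p) := by decide
      exact this _ _
  -- choice of the representative
  obtain ⟨b, hb, hchoice⟩ := choice g hg hcard (Matrix.of fun u v => A u v + A v u)
    (Matrix.of fun u v => (A + up (2 * g)) u v + (A + up (2 * g)) v u) (halt A) (halt (A + up (2 * g))) (by
      left
      ext u v
      rw [Matrix.add_apply, Matrix.of_apply, Matrix.of_apply, ← up_symm]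
      simp only [Pi.add_apply]
      ring)
  obtain ⟨A', hA', hfr⟩ : ∃ A' : Fin (2 * g) → Fin (2 * g) → F2, b = Matrix.of (fun u v => A' u v + A' v u) ∧
      frm (ss (quad_k hζ K)) (fun u : Fin (2 * g) => cl (z u.castSucc)) A = frm (ss (quad_k hζ K)) (fun u : Fin (2 * g) => cl (z u.castSucc)) A' := by
    rcases hb with hb | hb
    · exact ⟨A, hb, rfl⟩
    · refine ⟨A + up (2 * g), hb, ?_⟩
      rw [frm_add, P_rel hζ K g a ha U Y hU hdeg hdvd z hz, add_zero]
  rw [hfr]
  clear hfr hb
  subst hA'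
  obtain ⟨r, e, f, hdec, hli, hr⟩ := alt_decomp _ (halt A')
  rw [hcard] at hr
  have hhL : ∀ u, cl (h u) ∈ HL L := fun u => ⟨h u, hh u, rfl⟩
  -- the bound without conditions
  have hbase := fin_bound hζ K L hL (fun u : Fin (2 * g) => cl (z u.castSucc)) (fun u => cl (h u)) hhL A' r e f hdec hli ⊥
    (by
      intro x hx
      rw [Submodule.mem_bot] at hx
      rw [hx, mulVec_zero])
    (by
      intro x hx
      rw [Submodule.mem_bot] at hx
      rw [hx]
      simp)
  rw [finrank_bot, hcard] at hbase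
  rcases hchoice with hc | ⟨hc, m, m', hm, hm', hmm⟩
  · intro D _ _ _ _ hD
    refine (hbase D hD).trans (pow_dvd_pow 2 ?_)
    omega
  -- the linear part
  have hW : ∀ (M : Type u) [Field M] [Algebra k M] (h' : Fin (2 * g) → GG M), ∑ u, m u • h' u = 0 → ∑ u, m' u • h' u = 0 →
      ∀ x ∈ Submodule.span F2 (Set.range ![m, m']), ∑ u, x u • h' u = 0 := by
    intro M _ _ h' h1 h2 x hx
    induction hx using Submodule.span_induction with
    | mem x hx =>
      obtain ⟨i, rfl⟩ := hx
      fin_cases i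
      · exact h1
      · exact h2
    | zero => simp
    | add x y _ _ hx hy =>
      simp only [Pi.add_apply, add_smul, Finset.sum_add_distrib, hx, hy, add_zero]
    | smul c x _ hx =>
      simp only [Pi.smul_apply, smul_eq_mul, mul_smul, ← Finset.smul_sum, hx, smul_zero]
  have hWk : ∀ x ∈ Submodule.span F2 (Set.range ![m, m']),
      (Matrix.of fun u v => A' u v + A' v u : Matrix (Fin (2 * g)) (Fin (2 * g)) F2) *ᵥ x = 0 := by
    intro x hx
    induction hx using Submodule.span_induction with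
    | mem x hx =>
      obtain ⟨i, rfl⟩ := hx
      fin_cases i
      · exact hm
      · exact hm'
    | zero => rw [mulVec_zero]
    | add x y _ _ hx hy => rw [mulVec_add, hx, hy, add_zero]
    | smul c x _ hx => rw [mulVec_smul, hx, smul_zero]
  have hW2 := li_pair m m' hmm
  have hhat : ∀ x : Fin (2 * g) → F2, ∃ t : Kˣ, (t : K) ∈ L ∧ cl t = ∑ u, x u • cl (h u) := by
    intro x
    exact (HL L).sum_mem fun u _ => (HL L).smul_mem _ (hhL u)
  obtain ⟨e1, he1, hce1⟩ := hhat m
  obtain ⟨e2, he2, hce2⟩ := hhat m'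
  by_cases hns : (∃ x : K, x ^ 2 = (e1 : K)) ∧ (∃ x : K, x ^ 2 = (e2 : K))
  · -- everything is a square already
    have hz0 : ∀ t : Kˣ, (∃ x : K, x ^ 2 = (t : K)) → cl t = 0 := by
      rintro t ⟨x, hx⟩
      rw [cl_eq_zero]
      have hx0 : x ≠ 0 := by
        rintro rfl
        rw [zero_pow two_ne_zero] at hx
        exact t.ne_zero hx.symm
      exact ⟨Units.mk0 x hx0, by ext; rw [Units.val_pow_eq_pow_val, Units.val_mk0, hx]⟩
    have h1 := fin_bound hζ K L hL (fun u : Fin (2 * g) => cl (z u.castSucc)) (fun u => cl (h u)) hhL A' r e f hdec hli _ hWk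
      (hW K _ (by rw [← hce1, hz0 _ hns.1]) (by rw [← hce2, hz0 _ hns.2]))
    rw [hW2, hcard] at h1
    intro D _ _ _ _ hD
    refine (h1 D hD).trans (pow_dvd_pow 2 ?_)
    omega
  · -- matching
    obtain ⟨K', _, _, _, _, _, o, ho, hfin, c, y, l1, l2, hcr, hca, hy, hl1, hl2, hv1, hv2⟩ :=
      matching (two_ne hζ K) L hL ha (supp (om (Fin (2 * g)) *ᵥ m)) (supp (om (Fin (2 * g)) *ᵥ m')) (odd_supp m m' hmm) e1 e2 he1 he2
        e1.ne_zero e2.ne_zero hns
    have hq0 : ∀ i, c - algebraMap k K' (a i) ≠ 0 := fun i h0 => hcr ⟨a i, (sub_eq_zero.1 h0).symm⟩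
    let q : Fin (2 * g + 1) → K'ˣ := fun i => Units.mk0 _ (hq0 i)
    have hqE : ∀ i, cl (q i) ∈ HL (acl L K') := fun i =>
      ⟨q i, (acl L K').sub_mem hca ((acl L K').algebraMap_mem (a i)), rfl⟩
    let h' : Fin (2 * g) → GG K' := (fun u => cl (ι K' (h u))) + fun u => ∑ v, om (Fin (2 * g)) u v • cl (q v.castSucc)
    have hh' : ∀ u, h' u ∈ HL (acl L K') := fun u =>
      (HL (acl L K')).add_mem ⟨ι K' (h u), map_mem_acl L K' _ (hh u), rfl⟩
        ((HL (acl L K')).sum_mem fun v _ => (HL (acl L K')).smul_mem _ (hqE _))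
    have hkrel := K_rel hζ K' g a ha (U.map (algebraMap K K')) (Y.map (algebraMap K K')) (hU.map _)
      (by rw [natDegree_map]; exact hdeg) (by
        have h1 := Polynomial.map_dvd (algebraMap K K') hdvd
        rw [Polynomial.map_sub, Polynomial.map_pow, Polynomial.map_prod] at h1
        simpa only [Polynomial.map_sub, map_X, map_C, ← IsScalarTower.algebraMap_apply k K K'] using h1)
      (fun i => ι K' (z i)) (fun i => by
        change algebraMap K K' (z i : K) = _
        rw [hz, IsScalarTower.algebraMap_apply k K K', eval_map, eval₂_at_apply]) c y hy q (fun i => rfl)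
    have hlw : lw (ss (quad_k hζ K')) (fun u : Fin (2 * g) => cl (ι K' (z u.castSucc))) h' =
        lw (ss (quad_k hζ K')) (fun u : Fin (2 * g) => cl (ι K' (z u.castSucc))) (fun u => cl (ι K' (h u))) := by
      rw [lw_add, hkrel, add_zero]
    have hkill : ∀ (x : Fin (2 * g) → F2) (t : Kˣ) (l : K'), cl t = ∑ u, x u • cl (h u) → l ≠ 0 →
        ∏ i ∈ supp (om (Fin (2 * g)) *ᵥ x), (c - algebraMap k K' (a i)) = algebraMap K K' t * l ^ 2 →
        ∑ u, x u • h' u = 0 := by
      intro x t l ht hl hprod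
      have e1 : ∑ u, x u • h' u = ∑ u, x u • cl (ι K' (h u)) + ∑ v, (om (Fin (2 * g)) *ᵥ x) v • cl (q v.castSucc) := by
        simp only [h', Pi.add_apply, smul_add, Finset.sum_add_distrib]
        congr 1
        simp only [Finset.smul_sum, mulVec, dotProduct, Finset.sum_smul]
        rw [Finset.sum_comm]
        refine Finset.sum_congr rfl fun v _ => Finset.sum_congr rfl fun u _ => ?_
        rw [smul_smul, om_symm v u, mul_comm]
      have e2 : cl (ι K' t) = ∑ u, x u • cl (ι K' (h u)) := cl_comb h x t K' ht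
      have e3 : ∏ i ∈ supp (om (Fin (2 * g)) *ᵥ x), q i = ι K' t * (Units.mk0 l hl) ^ 2 := by
        ext
        rw [Units.coe_prod, Units.val_mul, Units.val_pow_eq_pow_val, Units.val_mk0]
        exact hprod
      rw [e1, ← e2, sum_supp (om (Fin (2 * g)) *ᵥ x) (fun i => cl (q i)), ← cl_prod, e3, cl_mul, cl_sq, add_zero, f2_add_self]
    have h1 := fin_bound hζ K' (acl L K') (by rw [trdeg_acl]; exact hL) (fun u : Fin (2 * g) => cl (ι K' (z u.castSucc))) h'
      hh' A' r e f hdec hli _ hWk (hW K' h' (hkill m e1 l1 hce1 hl1 hv1) (hkill m' e2 l2 hce2 hl2 hv2))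
    rw [hW2, hcard, hlw, ← res_frm hζ K K' (fun u : Fin (2 * g) => z u.castSucc) h A'] at h1
    have h2 := IndDvd.of_res K' h1
    intro D _ _ _ _ hD
    refine pow_dvd (hbase D hD) ((h2 D hD).trans ?_) ho
    refine (Nat.mul_dvd_mul_right hfin _).trans ?_
    have h3 : 2 * o * 2 ^ (2 * g - 2 - r) = o * 2 ^ (2 * g - 2 - r + 1) := by rw [pow_succ]; ring
    rw [h3]
    refine Nat.mul_dvd_mul_left o (pow_dvd_pow 2 ?_)
    omega

end

end Pool.Agent.HX84.PI
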