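import Mathlib
import Pool.Agent.HX84.PI.Match

/-! Many points on conics over fields of transcendence degree one. -/

set_option autoImplicit false
set_option linter.all false

namespace Pool.Agent.HX84.PI

open Polynomial Pool.Agent.H552R3.Tsen

universe u

theorem conic_L {k K : Type u} [Field k] [IsAlgClosed k] [Field K] [Algebra k K] (L : IntermediateField k K)
    (hL : Algebra.trdeg k L ≤ 1) (a b c : L) (ha : a ≠ 0) (hb : b ≠ 0) (hc : c ≠ 0) :
    ∃ X Y Z : L, ¬ (X = 0 ∧ Y = 0 ∧ Z = 0) ∧ a * X ^ 2 + b * Y ^ 2 = c * Z ^ 2 := by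
  by_cases ht : Transcendental k ((a / c : L) : K)
  · obtain ⟨X1, Y1, Z1, hX, hY, hZ, h0, h1⟩ := conic_dep L ((a / c : L) : K) ((b / c : L) : K) (a / c : L).2 (b / c : L).2 ht
      (not_indep L hL _ _ (a / c : L).2 (b / c : L).2)
    refine ⟨⟨X1, hX⟩, ⟨Y1, hY⟩, ⟨Z1, hZ⟩, ?_, ?_⟩
    · rintro ⟨e1, e2, e3⟩
      exact h0 ⟨congrArg Subtype.val e1, congrArg Subtype.val e2, congrArg Subtype.val e3⟩
    · have h2 : (a / c) * (⟨X1, hX⟩ : L) ^ 2 + (b / c) * (⟨Y1, hY⟩ : L) ^ 2 = (⟨Z1, hZ⟩ : L) ^ 2 := Subtype.ext h1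
      rw [← h2]
      field_simp
  · rw [Transcendental, not_not] at ht
    obtain ⟨d, hd⟩ := mem_range_of_alg _ ht
    obtain ⟨e, he⟩ := IsAlgClosed.exists_pow_nat_eq d (n := 2) (by norm_num)
    have h1 : (algebraMap k L e) ^ 2 = a / c := by
      apply Subtype.ext
      rw [← hd, ← he]
      simp
    refine ⟨1, 0, algebraMap k L e, fun h => one_ne_zero h.1, ?_⟩
    rw [h1]
    field_simp
    ring

theorem conic_inf {F : Type*} [Field F] [Infinite F] (h2 : (2 : F) ≠ 0) (a b c : F) (ha : a ≠ 0) (hb : b ≠ 0) (hc : c ≠ 0)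
    (h : ∃ X Y Z : F, ¬ (X = 0 ∧ Y = 0 ∧ Z = 0) ∧ a * X ^ 2 + b * Y ^ 2 = c * Z ^ 2) (T : Finset F) :
    ∃ u w : F, a * u ^ 2 + b * w ^ 2 = c ∧ u ^ 2 ∉ T := by
  classical
  obtain ⟨X0, Y0, Z0, h0, h1⟩ := h
  by_cases hZ : Z0 = 0
  · subst hZ
    rw [zero_pow two_ne_zero, mul_zero] at h1
    have hX : X0 ≠ 0 := by
      rintro rfl
      rw [zero_pow two_ne_zero, mul_zero, zero_add] at h1
      exact h0 ⟨rfl, pow_eq_zero_iff (two_ne_zero) |>.1 ((mul_eq_zero.1 h1).resolve_left hb), rfl⟩
    have hY : Y0 ≠ 0 := by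
      rintro rfl
      rw [zero_pow two_ne_zero, mul_zero, add_zero] at h1
      exact h0 ⟨pow_eq_zero_iff (two_ne_zero) |>.1 ((mul_eq_zero.1 h1).resolve_left ha), rfl, rfl⟩
    -- `u = (τ + c / (a τ)) / 2`
    let P : F → F[X] := fun r => (X ^ 2 + C (c / a)) ^ 2 - C (4 * r) * X ^ 2
    have hP : ∀ r, P r ≠ 0 := by
      intro r hr
      have h3 := congrArg (eval 0) hr
      simp only [P, eval_sub, eval_pow, eval_add, eval_mul, eval_X, eval_C, eval_zero] at h3
      have h4 : c / a ≠ 0 := div_ne_zero hc ha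
      apply h4
      have : (c / a) ^ 2 = 0 := by linear_combination h3
      exact pow_eq_zero_iff (two_ne_zero) |>.1 this
    let Q : F[X] := X * ∏ r ∈ T, P r
    have hQ : Q ≠ 0 := mul_ne_zero X_ne_zero (Finset.prod_ne_zero_iff.2 fun r _ => hP r)
    obtain ⟨t, ht⟩ : ∃ t : F, Q.eval t ≠ 0 := by
      by_contra hcon
      push Not at hcon
      exact hQ (Polynomial.funext (by simpa using hcon))
    rw [eval_mul, eval_X, eval_prod] at ht
    have ht0 : t ≠ 0 := left_ne_zero_of_mul ht
    have htP := Finset.prod_ne_zero_iff.1 (right_ne_zero_of_mul ht)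
    refine ⟨(t + c / (a * t)) / 2, (t - c / (a * t)) * (Y0 / X0) / 2, ?_, ?_⟩
    · have h5 : b * (Y0 / X0) ^ 2 = - a := by
        field_simp
        linear_combination h1
      have h6 : a * ((t + c / (a * t)) / 2) ^ 2 + b * ((t - c / (a * t)) * (Y0 / X0) / 2) ^ 2 =
          (a * (t + c / (a * t)) ^ 2 + (b * (Y0 / X0) ^ 2) * (t - c / (a * t)) ^ 2) / 2 ^ 2 := by
        field_simp
      rw [h6, h5]
      field_simp
      ring
    · intro hmem
      apply htP _ hmem
      simp only [P, eval_sub, eval_pow, eval_add, eval_mul, eval_X, eval_C]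
      field_simp
      ring
  · -- affine point
    let u0 := X0 / Z0
    let w0 := Y0 / Z0
    have h3 : a * u0 ^ 2 + b * w0 ^ 2 = c := by
      simp only [u0, w0]
      field_simp
      linear_combination h1
    let P : F → F[X] := fun r => (C (-(a * u0)) - C (2 * b * w0) * X + C (b * u0) * X ^ 2) ^ 2 - C r * (C a + C b * X ^ 2) ^ 2
    have hPe : ∀ r t, (P r).eval t = (-(a * u0) - 2 * b * w0 * t + b * u0 * t ^ 2) ^ 2 - r * (a + b * t ^ 2) ^ 2 := by
      intro r t
      simp only [P, eval_sub, eval_pow, eval_add, eval_mul, eval_X, eval_C]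
    have hP : ∀ r, P r ≠ 0 := by
      intro r hr
      have e0 : (P r).eval 0 = 0 := by rw [hr, eval_zero]
      have e1 : (P r).eval 1 = 0 := by rw [hr, eval_zero]
      have e2 : (P r).eval (-1) = 0 := by rw [hr, eval_zero]
      have e3 : (derivative (P r)).eval 0 = 0 := by rw [hr, derivative_zero, eval_zero]
      rw [hPe] at e0 e1 e2
      simp only [P, derivative_sub, derivative_pow, derivative_add, derivative_mul, derivative_X, derivative_C, eval_sub,
        eval_pow, eval_add, eval_mul, eval_X, eval_C, eval_zero, eval_one, derivative_X_pow, Nat.cast_ofNat, eval_ofNat] at e3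
      have e4 : a * b * (u0 * w0) = 0 := by
        have : (2 : F) ^ 2 * (a * b * (u0 * w0)) = 0 := by linear_combination e3
        exact (mul_eq_zero.1 this).resolve_left (pow_ne_zero _ h2)
      have e5 : u0 ^ 2 = r := by
        have : a ^ 2 * (u0 ^ 2 - r) = 0 := by linear_combination e0
        exact sub_eq_zero.1 ((mul_eq_zero.1 this).resolve_left (pow_ne_zero _ ha))
      have e6 : b * w0 ^ 2 = a * u0 ^ 2 := by
        have : (2 : F) ^ 3 * b * (b * w0 ^ 2 - a * u0 ^ 2) = 0 := by
          rw [← e5] at e1 e2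
          linear_combination e1 + e2
        exact sub_eq_zero.1 ((mul_eq_zero.1 this).resolve_left (mul_ne_zero (pow_ne_zero _ h2) hb))
      have e7 : u0 * w0 = 0 := (mul_eq_zero.1 e4).resolve_left (mul_ne_zero ha hb)
      apply hc
      rcases mul_eq_zero.1 e7 with h | h
      · rw [← h3, e6, h]; ring
      · rw [← h3, ← e6, h]; ring
    let Q : F[X] := (C a + C b * X ^ 2) * ∏ r ∈ T, P r
    have hQ : Q ≠ 0 := by
      refine mul_ne_zero ?_ (Finset.prod_ne_zero_iff.2 fun r _ => hP r)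
      intro h
      have := congrArg (eval 0) h
      simp only [eval_add, eval_mul, eval_C, eval_pow, eval_X, eval_zero] at this
      apply ha
      linear_combination this
    obtain ⟨t, ht⟩ : ∃ t : F, Q.eval t ≠ 0 := by
      by_contra hcon
      push Not at hcon
      exact hQ (Polynomial.funext (by simpa using hcon))
    rw [eval_mul, eval_prod] at ht
    have ht0 : a + b * t ^ 2 ≠ 0 := by
      have := left_ne_zero_of_mul ht
      simpa using this
    have htP := Finset.prod_ne_zero_iff.1 (right_ne_zero_of_mul ht)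
    refine ⟨(-(a * u0) - 2 * b * w0 * t + b * u0 * t ^ 2) / (a + b * t ^ 2),
      (a * w0 - 2 * a * u0 * t - b * w0 * t ^ 2) / (a + b * t ^ 2), ?_, ?_⟩
    · field_simp
      linear_combination (a + b * t ^ 2) ^ 2 * h3
    · intro hmem
      apply htP _ hmem
      rw [hPe]
      field_simp
      ring

end Pool.Agent.HX84.PI
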