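import Mathlib
import Pool.Agent.HX84.PI.Conic2
import Pool.Agent.HX84.PI.Main2

/-! Points of a curve of genus two with two prescribed square classes. -/

set_option autoImplicit false
set_option linter.all false

namespace Pool.Agent.HX84.PI

section

variable {F : Type*} [Field F] [Infinite F] (h2 : (2 : F) ≠ 0)
  (hcon : ∀ a b c : F, a ≠ 0 → b ≠ 0 → c ≠ 0 →
    ∃ X Y Z : F, ¬ (X = 0 ∧ Y = 0 ∧ Z = 0) ∧ a * X ^ 2 + b * Y ^ 2 = c * Z ^ 2)
  {N : ℕ} {a : Fin N → F} (ha : Function.Injective a)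
include h2 hcon ha

theorem type_one (i j : Fin N) (hij : i ≠ j) (e1 e2 : F) (he1 : e1 ≠ 0) (he2 : e2 ≠ 0) :
    ∃ c x y : F, (∀ m, c ≠ a m) ∧ x ≠ 0 ∧ y ≠ 0 ∧ c - a i = e1 * x ^ 2 ∧ c - a j = e2 * y ^ 2 := by
  classical
  have hd : a j - a i ≠ 0 := fun h => hij (ha (sub_eq_zero.1 h)).symm
  obtain ⟨u, w, h, hT⟩ := conic_inf h2 e1 (-e2) (a j - a i) he1 (neg_ne_zero.2 he2) hd
    (hcon _ _ _ he1 (neg_ne_zero.2 he2) hd) (Finset.univ.image fun l => (a l - a i) / e1)
  have hc : ∀ m, a i + e1 * u ^ 2 ≠ a m := by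
    intro m hm
    apply hT
    rw [Finset.mem_image]
    refine ⟨m, Finset.mem_univ _, ?_⟩
    rw [← hm]
    field_simp
    ring
  refine ⟨a i + e1 * u ^ 2, u, w, hc, ?_, ?_, by ring, by linear_combination h⟩
  · rintro rfl
    exact hc i (by ring)
  · rintro rfl
    exact hc j (by linear_combination h)

theorem type_two (i j l : Fin N) (hij : i ≠ j) (hjl : j ≠ l) (hil : i ≠ l) (e1 e2 : F) (he1 : e1 ≠ 0) (he2 : e2 ≠ 0) :
    ∃ c x y : F, (∀ m, c ≠ a m) ∧ x ≠ 0 ∧ y ≠ 0 ∧ (c - a i) * (c - a j) = e1 * x ^ 2 ∧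
      (c - a j) * (c - a l) = e2 * y ^ 2 := by
  classical
  have hd1 : a j - a l ≠ 0 := fun h => hjl (ha (sub_eq_zero.1 h))
  have hd2 : a j - a i ≠ 0 := fun h => hij (ha (sub_eq_zero.1 h)).symm
  have hd3 : a i - a l ≠ 0 := fun h => hil (ha (sub_eq_zero.1 h))
  have hA : (a j - a l) * e1 ≠ 0 := mul_ne_zero hd1 he1
  have hB : -((a j - a i) * e2) ≠ 0 := neg_ne_zero.2 (mul_ne_zero hd2 he2)
  obtain ⟨u, w, h, hT⟩ := conic_inf h2 _ _ _ hA hB hd3 (hcon _ _ _ hA hB hd3)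
    (insert (1 / e1) (Finset.univ.image fun m => ((a i - a j) / (a j - a m) + 1) / e1))
  rw [Finset.mem_insert, not_or] at hT
  have hr0 : e1 * u ^ 2 - 1 ≠ 0 := by
    intro h0
    apply hT.1
    rw [eq_div_iff he1]
    linear_combination h0
  obtain ⟨r, hr⟩ : ∃ r, r = (e1 * u ^ 2 - 1) / (a j - a i) := ⟨_, rfl⟩
  have hr1 : r ≠ 0 := by rw [hr]; exact div_ne_zero hr0 hd2
  have hr2 : (a j - a i) * r = e1 * u ^ 2 - 1 := by rw [hr]; field_simp
  have hr3 : (a j - a l) * r = e2 * w ^ 2 - 1 := by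
    apply mul_left_cancel₀ hd2
    linear_combination (a j - a l) * hr2 + h
  have hc : ∀ m, a j + 1 / r ≠ a m := by
    intro m hm
    by_cases hjm : j = m
    · subst hjm
      have h5 : (1 : F) / r = 0 := by linear_combination hm
      exact (div_ne_zero one_ne_zero hr1) h5
    · have hd4 : a j - a m ≠ 0 := fun h => hjm (ha (sub_eq_zero.1 h))
      apply hT.2
      rw [Finset.mem_image]
      refine ⟨m, Finset.mem_univ _, ?_⟩
      have h5 : (a j - a m) * r = -1 := by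
        have h6 : 1 / r = a m - a j := by linear_combination hm
        have h7 : (1 / r) * r = 1 := by field_simp
        rw [h6] at h7
        linear_combination -h7
      rw [div_eq_iff he1]
      have h8 : (a j - a m) * (e1 * u ^ 2 - 1) = a i - a j := by
        linear_combination (-(a j - a m)) * hr2 + (a j - a i) * h5
      field_simp
      linear_combination -h8
  have hu : u ≠ 0 := by
    rintro rfl
    apply hc i
    have h6 : (a j - a i) * r = -1 := by linear_combination hr2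
    field_simp
    linear_combination h6
  have hw : w ≠ 0 := by
    rintro rfl
    apply hc l
    have h6 : (a j - a l) * r = -1 := by linear_combination hr3
    field_simp
    linear_combination h6
  refine ⟨a j + 1 / r, u / r, w / r, hc, div_ne_zero hu hr1, div_ne_zero hw hr1, ?_, ?_⟩
  · field_simp
    linear_combination hr2
  · field_simp
    linear_combination hr3

end

section

variable {F : Type*} [Field F]

/-- the matching statement for two sets of branch points -/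
def Mt {N : ℕ} (a : Fin N → F) (v v' : Finset (Fin N)) : Prop :=
  ∀ e1 e2 : F, e1 ≠ 0 → e2 ≠ 0 → ∃ c x y : F, (∀ m, c ≠ a m) ∧ x ≠ 0 ∧ y ≠ 0 ∧
    (∏ i ∈ v, (c - a i) = e1 * x ^ 2 ∨ ∏ i ∈ vᶜ, (c - a i) = e1 * x ^ 2) ∧
    (∏ i ∈ v', (c - a i) = e2 * y ^ 2 ∨ ∏ i ∈ v'ᶜ, (c - a i) = e2 * y ^ 2)

theorem Mt.swap {N : ℕ} {a : Fin N → F} {v v' : Finset (Fin N)} (h : Mt a v v') : Mt a v' v := by
  intro e1 e2 he1 he2
  obtain ⟨c, x, y, hc, hx, hy, h1, h3⟩ := h e2 e1 he2 he1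
  exact ⟨c, y, x, hc, hy, hx, h3, h1⟩

theorem Mt.compl {N : ℕ} {a : Fin N → F} {v v' : Finset (Fin N)} (h : Mt a vᶜ v') : Mt a v v' := by
  intro e1 e2 he1 he2
  obtain ⟨c, x, y, hc, hx, hy, h1, h3⟩ := h e1 e2 he1 he2
  rw [compl_compl] at h1
  exact ⟨c, x, y, hc, hx, hy, h1.symm, h3⟩

/-- the parity -/
def par {N : ℕ} (v v' : Finset (Fin N)) : F2 := v.card * v'.card + (v ∩ v').card

theorem par_comm {N : ℕ} (v v' : Finset (Fin N)) : par v v' = par v' v := by
  rw [par, par, Finset.inter_comm, mul_comm]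

theorem par_compl (v v' : Finset (Fin 5)) : par vᶜ v' = par v v' := by
  have h1 : (v ∩ v').card + (vᶜ ∩ v').card = v'.card := by
    rw [Finset.inter_comm v, Finset.inter_comm vᶜ, ← Finset.card_inter_add_card_sdiff v' v]
    congr 1
    rw [Finset.sdiff_eq_inter_compl]
  have h3 : v.card + vᶜ.card = 5 := by rw [Finset.card_add_card_compl, Fintype.card_fin]
  have h4 : ((v ∩ v').card : F2) + ((vᶜ ∩ v').card : F2) = (v'.card : F2) := by exact_mod_cast congrArg (Nat.cast (R := F2)) h1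
  have h5 : (v.card : F2) + (vᶜ.card : F2) = 5 := by exact_mod_cast congrArg (Nat.cast (R := F2)) h3
  rw [par, par]
  have : ∀ p q r s t : F2, p + q = r → s + t = 5 → t * r + q = s * r + p := by decide
  exact this _ _ _ _ _ h4 h5

/-- a set or its complement is small -/
theorem small (v : Finset (Fin 5)) : v = ∅ ∨ v = Finset.univ ∨ (∃ i, v = {i} ∨ vᶜ = {i}) ∨
    (∃ i j, i ≠ j ∧ (v = {i, j} ∨ vᶜ = {i, j})) := by
  have h3 : v.card + vᶜ.card = 5 := by rw [Finset.card_add_card_compl, Fintype.card_fin]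
  have h4 : v.card = 0 ∨ v.card = 1 ∨ v.card = 2 ∨ vᶜ.card = 2 ∨ vᶜ.card = 1 ∨ vᶜ.card = 0 := by omega
  rcases h4 with h | h | h | h | h | h
  · exact Or.inl (Finset.card_eq_zero.1 h)
  · obtain ⟨i, hi⟩ := Finset.card_eq_one.1 h
    exact Or.inr (Or.inr (Or.inl ⟨i, Or.inl hi⟩))
  · obtain ⟨i, j, hij, hi⟩ := Finset.card_eq_two.1 h
    exact Or.inr (Or.inr (Or.inr ⟨i, j, hij, Or.inl hi⟩))
  · obtain ⟨i, j, hij, hi⟩ := Finset.card_eq_two.1 h
    exact Or.inr (Or.inr (Or.inr ⟨i, j, hij, Or.inr hi⟩))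
  · obtain ⟨i, hi⟩ := Finset.card_eq_one.1 h
    exact Or.inr (Or.inr (Or.inl ⟨i, Or.inr hi⟩))
  · right; left
    rw [Finset.card_eq_zero, Finset.compl_eq_empty_iff] at h
    exact h

theorem par_one_one (i j : Fin 5) (h : par {i} {j} = 1) : i ≠ j := by
  revert i j; decide

theorem par_one_two (i p q : Fin 5) (hpq : p ≠ q) (h : par {i} {p, q} = 1) : i = p ∨ i = q := by
  revert i p q; decide

theorem par_two_two (i j p q : Fin 5) (hij : i ≠ j) (hpq : p ≠ q) (h : par {i, j} {p, q} = 1) :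
    (i = p ∧ j ≠ q) ∨ (i = q ∧ j ≠ p) ∨ (j = p ∧ i ≠ q) ∨ (j = q ∧ i ≠ p) := by
  revert i j p q; decide

end

section

variable {F : Type*} [Field F] [Infinite F] (h2 : (2 : F) ≠ 0)
  (hcon : ∀ a b c : F, a ≠ 0 → b ≠ 0 → c ≠ 0 →
    ∃ X Y Z : F, ¬ (X = 0 ∧ Y = 0 ∧ Z = 0) ∧ a * X ^ 2 + b * Y ^ 2 = c * Z ^ 2)
  {a : Fin 5 → F} (ha : Function.Injective a)
include h2 hcon ha

theorem mt_one_one (i j : Fin 5) (hij : i ≠ j) : Mt a {i} {j} := by
  intro e1 e2 he1 he2
  obtain ⟨c, x, y, hc, hx, hy, h1, h3⟩ := type_one h2 hcon ha i j hij e1 e2 he1 he2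
  refine ⟨c, x, y, hc, hx, hy, Or.inl ?_, Or.inl ?_⟩
  · rw [Finset.prod_singleton, h1]
  · rw [Finset.prod_singleton, h3]

theorem mt_one_two (i j : Fin 5) (hij : i ≠ j) : Mt a {i} {i, j} := by
  intro e1 e2 he1 he2
  obtain ⟨c, x, y, hc, hx, hy, h1, h3⟩ := type_one h2 hcon ha i j hij e1 (e1 * e2) he1 (mul_ne_zero he1 he2)
  refine ⟨c, x, e1 * x * y, hc, hx, mul_ne_zero (mul_ne_zero he1 hx) hy, Or.inl ?_, Or.inl ?_⟩
  · rw [Finset.prod_singleton, h1]
  · rw [Finset.prod_pair hij, h1, h3]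
    ring

theorem mt_two_two (i j l : Fin 5) (hij : i ≠ j) (hjl : j ≠ l) (hil : i ≠ l) : Mt a {i, j} {j, l} := by
  intro e1 e2 he1 he2
  obtain ⟨c, x, y, hc, hx, hy, h1, h3⟩ := type_two h2 hcon ha i j l hij hjl hil e1 e2 he1 he2
  refine ⟨c, x, y, hc, hx, hy, Or.inl ?_, Or.inl ?_⟩
  · rw [Finset.prod_pair hij, h1]
  · rw [Finset.prod_pair hjl, h3]

theorem mt_all (v v' : Finset (Fin 5)) (h : par v v' = 1) : Mt a v v' := by
  have key : ∀ w w' : Finset (Fin 5), ((∃ i, w = {i}) ∨ (∃ i j, i ≠ j ∧ w = {i, j})) →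
      ((∃ i, w' = {i}) ∨ (∃ i j, i ≠ j ∧ w' = {i, j})) → par w w' = 1 → Mt a w w' := by
    intro w w' hw hw' hp
    rcases hw with ⟨i, rfl⟩ | ⟨i, j, hij, rfl⟩
    · rcases hw' with ⟨p, rfl⟩ | ⟨p, q, hpq, rfl⟩
      · exact mt_one_one h2 hcon ha i p (par_one_one i p hp)
      · rcases par_one_two i p q hpq hp with rfl | rfl
        · exact mt_one_two h2 hcon ha i q hpq
        · rw [Finset.pair_comm]
          exact mt_one_two h2 hcon ha i p hpq.symm
    · rcases hw' with ⟨p, rfl⟩ | ⟨p, q, hpq, rfl⟩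
      · rw [par_comm] at hp
        rcases par_one_two p i j hij hp with rfl | rfl
        · exact (mt_one_two h2 hcon ha p j hij).swap
        · rw [Finset.pair_comm]
          exact (mt_one_two h2 hcon ha p i hij.symm).swap
      · rcases par_two_two i j p q hij hpq hp with ⟨rfl, h5⟩ | ⟨rfl, h5⟩ | ⟨rfl, h5⟩ | ⟨rfl, h5⟩
        · rw [Finset.pair_comm i j]
          exact mt_two_two h2 hcon ha j i q hij.symm hpq h5
        · rw [Finset.pair_comm i j, Finset.pair_comm p i]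
          exact mt_two_two h2 hcon ha j i p hij.symm hpq.symm h5
        · exact mt_two_two h2 hcon ha i j q hij hpq h5
        · rw [Finset.pair_comm p j]
          exact mt_two_two h2 hcon ha i j p hij hpq.symm h5
  have hsm : ∀ w w' : Finset (Fin 5), par w w' = 1 → (((∃ i, w = {i}) ∨ (∃ i j, i ≠ j ∧ w = {i, j})) ∨
      ((∃ i, wᶜ = {i}) ∨ (∃ i j, i ≠ j ∧ wᶜ = {i, j}))) := by
    intro w w' hp
    rcases small w with rfl | rfl | ⟨i, hi | hi⟩ | ⟨i, j, hij, hi | hi⟩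
    · rw [par, Finset.card_empty, Finset.empty_inter, Finset.card_empty, Nat.cast_zero, zero_mul, zero_add] at hp
      exact absurd hp zero_ne_one
    · rw [← Finset.compl_empty, par_compl, par, Finset.card_empty, Finset.empty_inter, Finset.card_empty, Nat.cast_zero,
        zero_mul, zero_add] at hp
      exact absurd hp zero_ne_one
    · exact Or.inl (Or.inl ⟨i, hi⟩)
    · exact Or.inr (Or.inl ⟨i, hi⟩)
    · exact Or.inl (Or.inr ⟨i, j, hij, hi⟩)
    · exact Or.inr (Or.inr ⟨i, j, hij, hi⟩)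
  rcases hsm v v' h with h5 | h5
  · rcases hsm v' v (by rw [par_comm]; exact h) with h6 | h6
    · exact key v v' h5 h6 h
    · refine (Mt.compl (Mt.swap (key v v'ᶜ h5 h6 ?_))).swap
      rw [par_comm, par_compl, par_comm]; exact h
  · apply Mt.compl
    rcases hsm v' v (by rw [par_comm]; exact h) with h6 | h6
    · refine key vᶜ v' h5 h6 ?_
      rw [par_compl]; exact h
    · refine (Mt.compl (Mt.swap (key vᶜ v'ᶜ h5 h6 ?_))).swap
      rw [par_compl, par_comm, par_compl, par_comm]; exact h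

end

end Pool.Agent.HX84.PI
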