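import Mathlib
import Pool.Agent.HX84.PI.Main2
import Pool.Agent.HX84.PI.Kum2
import Pool.Agent.HX84.PI.Two

/-! The main bound for families of curves. -/

set_option autoImplicit false
set_option linter.all false

open Matrix

namespace Pool.Agent.HX84.PI

open Polynomial Pool.Agent.H552R3.Tsen Pool.Agent.Y109.PI Pool.Agent.H552R3.SymBr Pool.Agent.H552R3.SymPred
  Pool.Agent.Helper18.Br Pool.Agent.Helper346.Bra

universe u

section

variable {k : Type u} [Field k] [IsAlgClosed k] (hζ : IsPrimitiveRoot (-1 : k) 2)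

/-- the relation of the polarization -/
theorem P_rel2 (M : Type u) [Field M] [Algebra k M] (g : ℕ) (a : Fin (2 * g + 1) → M) (ha : Function.Injective a)
    (t : Fin (2 * g + 1) → Mˣ) (ht : ∀ i, ((∏ j ∈ Finset.univ.erase i, (a i - a j))⁻¹ : M) = t i)
    (U Y : M[X]) (hU : U.Monic) (hdeg : U.natDegree ≤ g) (hdvd : U ∣ Y ^ 2 - ∏ i, (X - C (a i)))
    (z : Fin (2 * g + 1) → Mˣ) (hz : ∀ i, (z i : M) = U.eval (a i)) :
    frm (ss (quad_k hζ M)) (fun u : Fin (2 * g) => cl (z u.castSucc)) (up (2 * g)) =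
      lw (ss (quad_k hζ M)) (fun u : Fin (2 * g) => cl (z u.castSucc))
        (fun u => cl (t u.castSucc * t (Fin.last (2 * g)))) := by
  have h := quad_k hζ M
  have h1 := p_rel2 h (two_ne hζ M) (neg_one_sq (k := k) M) (N := 2 * g + 1) rfl a ha t ht U Y hU (by omega) hdvd z hz
  rw [List.ofFn_succ', List.concat_eq_append, hh_perm h (List.perm_append_singleton _ _), hh] at h1
  obtain ⟨c, hc⟩ := prod_eval_sq a U Y hU (neg_one_sq (k := k) M) hdvd
  have h2 := cl_last z c (by rw [← hc]; exact Finset.prod_congr rfl fun i _ => hz i)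
  have h3 : cl ((List.ofFn fun i : Fin (2 * g) => z i.castSucc).prod) = cl (z (Fin.last (2 * g))) := by
    rw [h2, List.prod_ofFn, cl_prod]
  rw [h.congr (x := z (Fin.last (2 * g))) rfl h3, h.self, one_mul] at h1
  have h4 : frm (ss (quad_k hζ M)) (fun u : Fin (2 * g) => cl (z u.castSucc)) (up (2 * g)) =
      ∑ i, ss (quad_k hζ M) (cl (z i)) (cl (t i)) := by
    apply br_inj
    rw [frm_up, h1, br_sum]
    refine Finset.prod_congr rfl fun i _ => ?_
    rw [br_ss]
  have h5 : ss (quad_k hζ M) (∑ u : Fin (2 * g), cl (z u.castSucc)) (cl (t (Fin.last (2 * g)))) =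
      ∑ u : Fin (2 * g), ss (quad_k hζ M) (cl (z u.castSucc)) (cl (t (Fin.last (2 * g)))) := by
    rw [map_sum, LinearMap.sum_apply]
  rw [h4, Fin.sum_univ_castSucc, h2, h5, ← Finset.sum_add_distrib, lw]
  refine Finset.sum_congr rfl fun u _ => ?_
  rw [← map_add, ← cl_mul]
  exact symm_of_alt _ (ss_alt _) _ _

/-- the relation of a point -/
theorem K_rel2 (M : Type u) [Field M] [Algebra k M] (g : ℕ) (a : Fin (2 * g + 1) → M) (ha : Function.Injective a)
    (t : Fin (2 * g + 1) → Mˣ) (ht : ∀ i, ((∏ j ∈ Finset.univ.erase i, (a i - a j))⁻¹ : M) = t i)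
    (U Y : M[X]) (hU : U.Monic) (hdeg : U.natDegree ≤ g) (hdvd : U ∣ Y ^ 2 - ∏ i, (X - C (a i)))
    (z : Fin (2 * g + 1) → Mˣ) (hz : ∀ i, (z i : M) = U.eval (a i)) (c y : M)
    (hy : y ^ 2 = ∏ i, (c - a i)) (q : Fin (2 * g + 1) → Mˣ) (hq : ∀ i, (q i : M) = c - a i) :
    lw (ss (quad_k hζ M)) (fun u : Fin (2 * g) => cl (z u.castSucc))
      (fun u : Fin (2 * g) => ∑ v, om (Fin (2 * g)) u v • cl (q v.castSucc)) = 0 := by
  have h := quad_k hζ M
  have hne : ∀ i, U.eval (a i) ≠ 0 := fun i => by rw [← hz]; exact (z i).ne_zero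
  have hqe : ∀ i, c - a i ≠ 0 := fun i => by rw [← hq]; exact (q i).ne_zero
  have h1 := kr2 h (two_ne hζ M) (neg_one_sq (k := k) M) (N := 2 * g + 1) rfl a ha t ht c y hqe hy U.natDegree U Y hU rfl
    hdeg hdvd hne
  obtain ⟨d, hd⟩ := prod_eval_sq a U Y hU (neg_one_sq (k := k) M) hdvd
  refine lw_om (ss (quad_k hζ M)) (ss_alt _) (fun i => cl (z i)) (fun i => cl (q i))
    (cl_last z d (by rw [← hd]; exact Finset.prod_congr rfl fun i _ => hz i))
    (cl_last q y (by rw [hy]; exact Finset.prod_congr rfl fun i _ => hq i)) ?_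
  apply br_inj
  rw [br_sum, br_zero, ← h1]
  refine Finset.prod_congr rfl fun i _ => ?_
  rw [br_ss]
  congr 1
  · congr 1
    ext
    rw [Units.val_mk0, hz]
  · ext
    rw [Units.val_mk0, hq]

theorem par_odd {N : ℕ} (v v' : Finset (Fin N)) (h : Odd (v.card * v'.card + (v ∩ v').card)) : par v v' = 1 := by
  rw [par, ← Nat.cast_mul, ← Nat.cast_add]
  exact ZMod.natCast_eq_one_iff_odd.2 h

end

end Pool.Agent.HX84.PI
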