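import Mathlib
import Pool.Agent.HX84.PI.Main3

/-! The main bound for families of curves: assembly. -/

set_option autoImplicit false
set_option linter.all false

open Matrix

namespace Pool.Agent.HX84.PI

open Polynomial Pool.Agent.H552R3.Tsen Pool.Agent.Y109.PI Pool.Agent.H552R3.SymBr Pool.Agent.H552R3.SymPred
  Pool.Agent.Helper18.Br Pool.Agent.Helper346.Bra

universe u

section

variable {k : Type u} [Field k] [IsAlgClosed k] (hζ : IsPrimitiveRoot (-1 : k) 2)

/-- the point of the curve over a quadratic extension -/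
theorem match_two (K : Type u) [Field K] [Algebra k K] (L : IntermediateField k K) (hL : Algebra.trdeg k L ≤ 1)
    (h2 : (2 : K) ≠ 0) (a : Fin 5 → K) (ha : Function.Injective a) (haL : ∀ i, a i ∈ L)
    (v v' : Finset (Fin 5)) (hpar : par v v' = 1) (e1 e2 : Kˣ) (he1 : (e1 : K) ∈ L) (he2 : (e2 : K) ∈ L) :
    ∃ (K' : Type u) (_ : Field K') (_ : Algebra K K') (_ : Algebra k K') (_ : IsScalarTower k K K')
      (_ : FiniteDimensional K K'), Module.finrank K K' ∣ 2 ∧
      ∃ (q : Fin 5 → Kˣ) (c : K) (y : K'), (∀ i, (q i : K) ∈ L) ∧ (∀ i, (q i : K) = c - a i) ∧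
        y ^ 2 = ∏ i, (algebraMap K K' c - algebraMap K K' (a i)) ∧
        cl (ι K' (∏ i ∈ v, q i)) = cl (ι K' e1) ∧ cl (ι K' (∏ i ∈ v', q i)) = cl (ι K' e2) := by
  classical
  haveI : Infinite L := Infinite.of_injective (algebraMap k L) (algebraMap k L).injective
  have h2L : (2 : L) ≠ 0 := fun h => h2 (by
    have h1 := congrArg (algebraMap L K) h
    rw [map_zero, map_ofNat] at h1
    exact h1)
  let aL : Fin 5 → L := fun i => ⟨a i, haL i⟩
  have haL' : Function.Injective aL := fun i j hij => ha (congrArg Subtype.val hij)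
  have he10 : (⟨e1, he1⟩ : L) ≠ 0 := fun h => e1.ne_zero (congrArg Subtype.val h)
  have he20 : (⟨e2, he2⟩ : L) ≠ 0 := fun h => e2.ne_zero (congrArg Subtype.val h)
  obtain ⟨c, x, y, hc, hx, hy, h3, h4⟩ := mt_all h2L (conic_L L hL) haL' v v' hpar ⟨e1, he1⟩ ⟨e2, he2⟩ he10 he20
  have hq0 : ∀ i, (c : K) - a i ≠ 0 := fun i h0 => hc i (Subtype.ext (sub_eq_zero.1 h0))
  let q : Fin 5 → Kˣ := fun i => Units.mk0 _ (hq0 i)
  obtain ⟨K', _, _, hfd, hfin, w, hw⟩ := exists_root (K := K) 2 Nat.prime_two (∏ i, q i)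
  letI : Algebra k K' := ((algebraMap K K').comp (algebraMap k K)).toAlgebra
  haveI : IsScalarTower k K K' := IsScalarTower.of_algebraMap_eq (fun _ => rfl)
  have hall : cl (ι K' (∏ i, q i)) = 0 := by rw [← hw, cl_sq]
  have hcompl : ∀ v : Finset (Fin 5), cl (ι K' (∏ i ∈ v, q i)) = cl (ι K' (∏ i ∈ vᶜ, q i)) := by
    intro v
    rw [← Finset.prod_mul_prod_compl v, map_mul, cl_mul] at hall
    have h5 := f2_add_self (cl (ι K' (∏ i ∈ vᶜ, q i)))
    exact add_right_cancel (hall.trans h5.symm)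
  have hkey : ∀ (v : Finset (Fin 5)) (e : Kˣ) (he : (e : K) ∈ L) (x : L), x ≠ 0 →
      (∏ i ∈ v, (c - aL i) = ⟨e, he⟩ * x ^ 2 ∨ ∏ i ∈ vᶜ, (c - aL i) = ⟨e, he⟩ * x ^ 2) →
      cl (ι K' (∏ i ∈ v, q i)) = cl (ι K' e) := by
    intro v e he x hx h
    have hone : ∀ v : Finset (Fin 5), ∏ i ∈ v, (c - aL i) = ⟨e, he⟩ * x ^ 2 → cl (ι K' (∏ i ∈ v, q i)) = cl (ι K' e) := by
      intro v h5
      have hxK : (x : K) ≠ 0 := fun h0 => hx (Subtype.ext h0)
      have h6 : ∏ i ∈ v, q i = e * (Units.mk0 (x : K) hxK) ^ 2 := by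
        ext
        rw [Units.coe_prod, Units.val_mul, Units.val_pow_eq_pow_val, Units.val_mk0]
        have h7 := congrArg (algebraMap L K) h5
        rw [map_prod, map_mul, map_pow] at h7
        exact h7
      rw [h6, map_mul, map_pow, cl_mul, cl_sq, add_zero]
    rcases h with h | h
    · exact hone v h
    · rw [hcompl]
      exact hone _ h
  refine ⟨K', inferInstance, inferInstance, inferInstance, inferInstance, hfd, hfin, q, c, w, fun i => L.sub_mem c.2 (haL i),
    fun i => rfl, ?_, hkey v e1 he1 x hx h3, hkey v' e2 he2 y hy h4⟩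
  have h5 := congrArg Units.val hw
  rw [Units.val_pow_eq_pow_val] at h5
  rw [h5]
  change algebraMap K K' ((∏ i, q i : Kˣ) : K) = _
  rw [Units.coe_prod, map_prod]
  refine Finset.prod_congr rfl fun i _ => ?_
  rw [← map_sub]
  rfl

/-- **The main bound for families.** -/
theorem main_bound2 (K : Type u) [Field K] [Algebra k K] (L : IntermediateField k K) (hL : Algebra.trdeg k L ≤ 1)
    (g : ℕ) (hg : 2 ≤ g) (a : Fin (2 * g + 1) → K) (ha : Function.Injective a) (haL : ∀ i, a i ∈ L)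
    (U Y : K[X]) (hU : U.Monic) (hdeg : U.natDegree ≤ g) (hdvd : U ∣ Y ^ 2 - ∏ i, (X - C (a i)))
    (z : Fin (2 * g + 1) → Kˣ) (hz : ∀ i, (z i : K) = U.eval (a i))
    (A : Fin (2 * g) → Fin (2 * g) → F2) (h : Fin (2 * g) → Kˣ) (hh : ∀ u, (h u : K) ∈ L) :
    IndDvd (br (frm (ss (quad_k hζ K)) (fun u : Fin (2 * g) => cl (z u.castSucc)) A +
      lw (ss (quad_k hζ K)) (fun u : Fin (2 * g) => cl (z u.castSucc)) (fun u => cl (h u)))) (2 ^ (g + g / 2)) ∧
    (g = 2 → IndDvd (br (frm (ss (quad_k hζ K)) (fun u : Fin (2 * g) => cl (z u.castSucc)) A +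
      lw (ss (quad_k hζ K)) (fun u : Fin (2 * g) => cl (z u.castSucc)) (fun u => cl (h u)))) (2 ^ 2)) := by
  classical
  have hcard : Fintype.card (Fin (2 * g)) = 2 * g := Fintype.card_fin _
  have halt : ∀ A : Fin (2 * g) → Fin (2 * g) → F2, Alt (Matrix.of fun u v => A u v + A v u : Matrix (Fin (2 * g)) (Fin (2 * g)) F2) := by
    intro A
    constructor
    · intro u
      rw [Matrix.of_apply]
      exact f2_add_self _
    · intro u v
      rw [Matrix.of_apply, Matrix.of_apply]
      have : ∀ p q : F2, p + q = -(q + p) := by decide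
      exact this _ _
  -- the weights
  have ht0 : ∀ i, ∏ j ∈ Finset.univ.erase i, (a i - a j) ≠ 0 := by
    intro i
    rw [Finset.prod_ne_zero_iff]
    intro j hj h0
    exact (Finset.mem_erase.1 hj).1 (ha (sub_eq_zero.1 h0)).symm
  let t : Fin (2 * g + 1) → Kˣ := fun i => (Units.mk0 _ (ht0 i))⁻¹
  have ht : ∀ i, ((∏ j ∈ Finset.univ.erase i, (a i - a j))⁻¹ : K) = t i := by
    intro i
    simp only [t, Units.val_inv_eq_inv_val, Units.val_mk0]
  have htL : ∀ i, (t i : K) ∈ L := by
    intro i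
    rw [← ht]
    exact L.inv_mem (prod_mem fun j _ => L.sub_mem (haL i) (haL j))
  -- choice of the representative
  obtain ⟨b, hb, hchoice⟩ := choice g hg hcard (Matrix.of fun u v => A u v + A v u)
    (Matrix.of fun u v => (A + up (2 * g)) u v + (A + up (2 * g)) v u) (halt A) (halt (A + up (2 * g))) (by
      left
      ext u v
      rw [Matrix.add_apply, Matrix.of_apply, Matrix.of_apply, ← up_symm]
      simp only [Pi.add_apply]
      ring)
  obtain ⟨A', h', hA', hh', hfr⟩ : ∃ (A' : Fin (2 * g) → Fin (2 * g) → F2) (h' : Fin (2 * g) → Kˣ),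
      b = Matrix.of (fun u v => A' u v + A' v u) ∧ (∀ u, (h' u : K) ∈ L) ∧
      frm (ss (quad_k hζ K)) (fun u : Fin (2 * g) => cl (z u.castSucc)) A +
        lw (ss (quad_k hζ K)) (fun u : Fin (2 * g) => cl (z u.castSucc)) (fun u => cl (h u)) =
      frm (ss (quad_k hζ K)) (fun u : Fin (2 * g) => cl (z u.castSucc)) A' +
        lw (ss (quad_k hζ K)) (fun u : Fin (2 * g) => cl (z u.castSucc)) (fun u => cl (h' u)) := by
    rcases hb with hb | hb
    · exact ⟨A, h, hb, hh, rfl⟩
    · refine ⟨A + up (2 * g), fun u => t u.castSucc * t (Fin.last (2 * g)) * h u, hb, ?_, ?_⟩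
      · intro u
        rw [Units.val_mul, Units.val_mul]
        exact L.mul_mem (L.mul_mem (htL _) (htL _)) (hh u)
      · have e1 : (fun u => cl (t u.castSucc * t (Fin.last (2 * g)) * h u)) =
            (fun u : Fin (2 * g) => cl (t u.castSucc * t (Fin.last (2 * g)))) + fun u => cl (h u) := by
          funext u
          rw [cl_mul]; rfl
        rw [frm_add, P_rel2 hζ K g a ha t ht U Y hU hdeg hdvd z hz, e1, lw_add]
        generalize lw (ss (quad_k hζ K)) (fun u : Fin (2 * g) => cl (z u.castSucc))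
          (fun u : Fin (2 * g) => cl (t u.castSucc * t (Fin.last (2 * g)))) = p
        generalize frm (ss (quad_k hζ K)) (fun u : Fin (2 * g) => cl (z u.castSucc)) A = q
        generalize lw (ss (quad_k hζ K)) (fun u : Fin (2 * g) => cl (z u.castSucc)) (fun u => cl (h u)) = r
        have h5 := f2_add_self p
        calc q + r = q + (p + p) + r := by rw [h5, add_zero]
          _ = q + p + (p + r) := by abel
  rw [hfr]
  clear hfr hb
  subst hA'
  obtain ⟨r, e, f, hdec, hli, hr⟩ := alt_decomp _ (halt A')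
  rw [hcard] at hr
  have hhL : ∀ u, cl (h' u) ∈ HL L := fun u => ⟨h' u, hh' u, rfl⟩
  -- the bound without conditions
  have hbase := fin_bound hζ K L hL (fun u : Fin (2 * g) => cl (z u.castSucc)) (fun u => cl (h' u)) hhL A' r e f hdec hli ⊥
    (by
      intro x hx
      rw [Submodule.mem_bot] at hx
      rw [hx, mulVec_zero])
    (by
      intro x hx
      rw [Submodule.mem_bot] at hx
      rw [hx]
      simp)
  rw [finrank_bot, hcard] at hbase
  refine ⟨?_, ?_⟩
  · intro D _ _ _ _ hD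
    refine (hbase D hD).trans (pow_dvd_pow 2 ?_)
    rcases hchoice with hc | ⟨hc, -⟩ <;> omega
  intro hg2
  subst hg2
  rcases hchoice with hc | ⟨hc, m, m', hm, hm', hmm⟩
  · intro D _ _ _ _ hD
    refine (hbase D hD).trans (pow_dvd_pow 2 ?_)
    omega
  -- the linear part
  have hW : ∀ (M : Type u) [Field M] [Algebra k M] (h' : Fin (2 * 2) → GG M), ∑ u, m u • h' u = 0 → ∑ u, m' u • h' u = 0 →
      ∀ x ∈ Submodule.span F2 (Set.range ![m, m']), ∑ u, x u • h' u = 0 := by
    intro M _ _ h' h1 h2 x hx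
    induction hx using Submodule.span_induction with
    | mem x hx =>
      obtain ⟨i, rfl⟩ := hx
      fin_cases i
      · exact h1
      · exact h2
    | zero => simp
    | add x y _ _ hx hy =>
      simp only [Pi.add_apply, add_smul, Finset.sum_add_distrib, hx, hy, add_zero]
    | smul c x _ hx =>
      simp only [Pi.smul_apply, smul_eq_mul, mul_smul, ← Finset.smul_sum, hx, smul_zero]
  have hWk : ∀ x ∈ Submodule.span F2 (Set.range ![m, m']),
      (Matrix.of fun u v => A' u v + A' v u : Matrix (Fin (2 * 2)) (Fin (2 * 2)) F2) *ᵥ x = 0 := by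
    intro x hx
    induction hx using Submodule.span_induction with
    | mem x hx =>
      obtain ⟨i, rfl⟩ := hx
      fin_cases i
      · exact hm
      · exact hm'
    | zero => rw [mulVec_zero]
    | add x y _ _ hx hy => rw [mulVec_add, hx, hy, add_zero]
    | smul c x _ hx => rw [mulVec_smul, hx, smul_zero]
  have hW2 := li_pair m m' hmm
  have hhat : ∀ x : Fin (2 * 2) → F2, ∃ t : Kˣ, (t : K) ∈ L ∧ cl t = ∑ u, x u • cl (h' u) := by
    intro x
    exact (HL L).sum_mem fun u _ => (HL L).smul_mem _ (hhL u)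
  obtain ⟨e1, he1, hce1⟩ := hhat m
  obtain ⟨e2, he2, hce2⟩ := hhat m'
  obtain ⟨K', _, _, _, _, _, hfin, q, c, y, hqL, hqc, hy, hv1, hv2⟩ :=
    match_two K L hL (two_ne hζ K) a ha haL (supp (om (Fin (2 * 2)) *ᵥ m)) (supp (om (Fin (2 * 2)) *ᵥ m'))
      (par_odd _ _ (odd_supp m m' hmm)) e1 e2 he1 he2
  have hqE : ∀ i, cl (ι K' (q i)) ∈ HL (acl L K') := fun i => ⟨ι K' (q i), map_mem_acl L K' _ (hqL i), rfl⟩
  let h2 : Fin (2 * 2) → GG K' := (fun u => cl (ι K' (h' u))) + fun u => ∑ v, om (Fin (2 * 2)) u v • cl (ι K' (q v.castSucc))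
  have hh2 : ∀ u, h2 u ∈ HL (acl L K') := fun u =>
    (HL (acl L K')).add_mem ⟨ι K' (h' u), map_mem_acl L K' _ (hh' u), rfl⟩
      ((HL (acl L K')).sum_mem fun v _ => (HL (acl L K')).smul_mem _ (hqE _))
  have hkrel := K_rel2 hζ K' 2 (fun i => algebraMap K K' (a i)) ((algebraMap K K').injective.comp ha)
    (fun i => ι K' (t i)) (fun i => by
      change _ = algebraMap K K' (t i : K)
      rw [← ht, map_inv₀, map_prod]
      simp only [map_sub]) (U.map (algebraMap K K')) (Y.map (algebraMap K K')) (hU.map _)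
    (by rw [natDegree_map]; exact hdeg) (by
      have h1 := Polynomial.map_dvd (algebraMap K K') hdvd
      rw [Polynomial.map_sub, Polynomial.map_pow, Polynomial.map_prod] at h1
      simpa only [Polynomial.map_sub, map_X, map_C] using h1)
    (fun i => ι K' (z i)) (fun i => by
      change algebraMap K K' (z i : K) = _
      rw [hz, eval_map, eval₂_at_apply]) (algebraMap K K' c) y hy (fun i => ι K' (q i)) (fun i => by
      change algebraMap K K' (q i : K) = _
      rw [hqc, map_sub])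
  have hlw : lw (ss (quad_k hζ K')) (fun u : Fin (2 * 2) => cl (ι K' (z u.castSucc))) h2 =
      lw (ss (quad_k hζ K')) (fun u : Fin (2 * 2) => cl (ι K' (z u.castSucc))) (fun u => cl (ι K' (h' u))) := by
    rw [lw_add, hkrel, add_zero]
  have hkill : ∀ (x : Fin (2 * 2) → F2) (t : Kˣ), cl t = ∑ u, x u • cl (h' u) →
      cl (ι K' (∏ i ∈ supp (om (Fin (2 * 2)) *ᵥ x), q i)) = cl (ι K' t) →
      ∑ u, x u • h2 u = 0 := by
    intro x t ht hprod
    have e1 : ∑ u, x u • h2 u = ∑ u, x u • cl (ι K' (h' u)) +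
        ∑ v, (om (Fin (2 * 2)) *ᵥ x) v • cl (ι K' (q v.castSucc)) := by
      simp only [h2, Pi.add_apply, smul_add, Finset.sum_add_distrib]
      congr 1
      simp only [Finset.smul_sum, mulVec, dotProduct, Finset.sum_smul]
      rw [Finset.sum_comm]
      refine Finset.sum_congr rfl fun v _ => Finset.sum_congr rfl fun u _ => ?_
      rw [smul_smul, om_symm v u, mul_comm]
    have e2 : cl (ι K' t) = ∑ u, x u • cl (ι K' (h' u)) := cl_comb h' x t K' ht
    rw [e1, ← e2, sum_supp (om (Fin (2 * 2)) *ᵥ x) (fun i => cl (ι K' (q i))), ← cl_prod, ← map_prod, hprod, f2_add_self]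
  have h1 := fin_bound hζ K' (acl L K') (by rw [trdeg_acl]; exact hL) (fun u : Fin (2 * 2) => cl (ι K' (z u.castSucc))) h2
    hh2 A' r e f hdec hli _ hWk (hW K' h2 (hkill m e1 hce1 hv1) (hkill m' e2 hce2 hv2))
  rw [hW2, hcard, hlw, ← res_frm hζ K K' (fun u : Fin (2 * 2) => z u.castSucc) h' A'] at h1
  have h3 := IndDvd.of_res K' h1
  intro D _ _ _ _ hD
  refine (h3 D hD).trans ((Nat.mul_dvd_mul_right hfin _).trans ?_)
  rw [← pow_succ']
  exact pow_dvd_pow 2 (by omega)

end

end Pool.Agent.HX84.PI
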