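import Mathlib
import Pool.Agent.HX84.PI.Main4

/-! The index bound for classes of period two on a family of hyperelliptic Jacobians, generic point form. -/

set_option autoImplicit false
set_option linter.all false

namespace Pool.Agent.HX84.PI

open Polynomial Pool.Agent.Helper18.Br Pool.Agent.H552R3.SymBr Pool.Agent.H552R3.SymPred Pool.Agent.H552R3.Tsen
  Pool.Agent.Y109.PI

universe u

/-- The bound for one hyperelliptic Jacobian, over a function field of a curve. -/
theorem base_fib {k K : Type u} [Field k] [IsAlgClosed k] (h2 : (2 : k) ≠ 0) [Field K] [Algebra k K]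
    (L : IntermediateField k K) (hL : Algebra.trdeg k L ≤ 1) (g : ℕ) (hg : 2 ≤ g) (a : Fin (2 * g + 1) → K)
    (ha : Function.Injective a) (haL : ∀ i, a i ∈ L) (U Y : K[X]) (hU : U.Monic) (hdeg : U.natDegree ≤ g)
    (hdvd : U ∣ Y ^ 2 - ∏ i, (X - C (a i)))
    (z : Fin (2 * g + 1) → Kˣ) (hz : ∀ i, (z i : K) = U.eval (a i))
    (G : Subgroup Kˣ) (hG : G = Subgroup.closure ({x : Kˣ | (x : K) ∈ L} ∪ Set.range z))
    (α : BrauerGroup.{u, u} K) (hα : α ∈ Subgroup.closure {γ | ∃ x ∈ G, ∃ y ∈ G, IsSym 2 (-1) x y γ}) :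
    IndDvd α (2 ^ (g + g / 2)) ∧ (g = 2 → IndDvd α 4) := by
  classical
  have hζ : IsPrimitiveRoot (-1 : k) 2 := IsPrimitiveRoot.neg_one (ringChar k) (by
    intro h0
    apply h2
    have h1 := ringChar.Nat.cast_ringChar (R := k)
    rw [h0] at h1
    exact_mod_cast h1)
  have hζK : IsPrimitiveRoot (-1 : K) 2 := by
    have h1 := rootK K hζ
    rwa [map_neg, map_one] at h1
  have hQ := quad_k hζ K
  let w : Fin (2 * g) → GG K := fun u => cl (z u.castSucc)
  obtain ⟨d, hd⟩ := prod_eval_sq a U Y hU (neg_one_sq (k := k) K) hdvd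
  have hlast := cl_last z d (by rw [← hd]; exact Finset.prod_congr rfl fun i _ => hz i)
  have hGS : ∀ x ∈ G, cl x ∈ HL L ⊔ Submodule.span F2 (Set.range w) := by
    intro x hx
    rw [hG] at hx
    induction hx using Subgroup.closure_induction with
    | mem x hx =>
      rcases hx with hx | ⟨i, rfl⟩
      · exact Submodule.mem_sup_left ⟨x, hx, rfl⟩
      · apply Submodule.mem_sup_right
        refine Fin.lastCases ?_ (fun u => ?_) i
        · rw [hlast]
          exact Submodule.sum_mem _ fun u _ => Submodule.subset_span ⟨u, rfl⟩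
        · exact Submodule.subset_span ⟨u, rfl⟩
    | one => rw [cl_one]; exact Submodule.zero_mem _
    | mul x y _ _ hx hy => rw [cl_mul]; exact Submodule.add_mem _ hx hy
    | inv x _ hx =>
      have h1 : cl x⁻¹ = cl x := by
        have h2 := f2_add_self (cl x)
        have h3 : cl x⁻¹ + cl x = 0 := by rw [← cl_mul, inv_mul_cancel, cl_one]
        exact add_right_cancel (h3.trans h2.symm)
      rw [h1]; exact hx
  obtain ⟨β, hβα, hβ⟩ : ∃ β : BB (BrauerGroup.{u, u} K), br β = α ∧ β ∈ AddSubgroup.closure {γ |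
      ∃ x ∈ HL L ⊔ Submodule.span F2 (Set.range w), ∃ y ∈ HL L ⊔ Submodule.span F2 (Set.range w),
        γ = ss (quad_k hζ K) x y} := by
    induction hα using Subgroup.closure_induction with
    | mem γ hγ =>
      obtain ⟨x, hx, y, hy, hxy⟩ := hγ
      refine ⟨ss (quad_k hζ K) (cl x) (cl y), ?_, AddSubgroup.subset_closure ⟨_, hGS x hx, _, hGS y hy, rfl⟩⟩
      rw [br_ss, symHom_apply, (isSym_iff two_pos hζK x y γ).1 hxy]
      exact symCl_congr two_pos _ _ (by rw [map_neg, map_one]) _ _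
    | one => exact ⟨0, br_zero, AddSubgroup.zero_mem _⟩
    | mul x y _ _ hx hy =>
      obtain ⟨β, rfl, hβ⟩ := hx
      obtain ⟨β', rfl, hβ'⟩ := hy
      exact ⟨β + β', br_add _ _, AddSubgroup.add_mem _ hβ hβ'⟩
    | inv x _ hx =>
      obtain ⟨β, rfl, hβ⟩ := hx
      exact ⟨-β, rfl, AddSubgroup.neg_mem _ hβ⟩
  obtain ⟨A, h, hh, hβe⟩ := exists_form (ss (quad_k hζ K)) (ss_alt _) (HL L) (HL_tsen hζ L hL) w β hβ
  choose t ht1 ht2 using hh
  have h1 := main_bound2 hζ K L hL g hg a ha haL U Y hU hdeg hdvd z hz A t ht1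
  have h4 : (fun u => cl (t u)) = h := funext ht2
  rw [h4] at h1
  rw [← hβα, hβe]
  exact h1

end Pool.Agent.HX84.PI
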