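import Mathlib
import Pool.Agent.Y109.PI.Fac
import Pool.Agent.HX84.PI.Main2

/-! Integral alternating forms: a member of a pencil whose elementary divisors are prime to `n`, except for at most
one, which is twice an odd number and which belongs to a hyperbolic plane modulo two. -/

set_option autoImplicit false
set_option linter.all false

open Matrix

namespace Pool.Agent.HX84.PI

open Pool.Agent.Y109.PI

section

variable {I : Type} [Fintype I] [DecidableEq I]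

/-- reduction modulo two of a vector -/
def r2 (v : I → ℤ) : I → F2 := fun u => (v u : F2)

/-- reduction modulo two of a matrix -/
def m2 (M : Matrix I I ℤ) : Matrix I I F2 := M.map (Int.castRingHom F2)

theorem r2_mulVec (M : Matrix I I ℤ) (v : I → ℤ) : r2 (M *ᵥ v) = m2 M *ᵥ r2 v := by
  funext u
  have h := RingHom.map_mulVec (Int.castRingHom F2) M v u
  rw [eq_intCast] at h
  exact h

theorem r2_dot (v w : I → ℤ) : ((v ⬝ᵥ w : ℤ) : F2) = r2 v ⬝ᵥ r2 w := by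
  have h := RingHom.map_dotProduct (Int.castRingHom F2) v w
  rw [eq_intCast] at h
  exact h

theorem r2_add (v w : I → ℤ) : r2 (v + w) = r2 v + r2 w := by
  funext u; simp [r2]

theorem r2_zero_iff (v : I → ℤ) : r2 v = 0 ↔ ∀ u, (2 : ℤ) ∣ v u := by
  constructor
  · intro h u
    have := congrFun h u
    exact (ZMod.intCast_zmod_eq_zero_iff_dvd (v u) 2).1 this
  · intro h
    funext u
    exact (ZMod.intCast_zmod_eq_zero_iff_dvd (v u) 2).2 (h u)

theorem cast_four {x : ℤ} (h : (4 : ℤ) ∣ x) : (x : F2) = 0 :=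
  (ZMod.intCast_zmod_eq_zero_iff_dvd x 2).2 (Dvd.dvd.trans (by norm_num) h)

theorem f2c (c : F2) : c = 0 ∨ c = 1 := by revert c; decide

/-- the kernel is trivial or a hyperbolic plane -/
def Good2 (b : Matrix I I F2) : Prop :=
  (∀ x, b *ᵥ x = 0 → x = 0) ∨ ∃ m m', b *ᵥ m = 0 ∧ b *ᵥ m' = 0 ∧ m ⬝ᵥ (om I *ᵥ m') = 1 ∧
    ∀ x, b *ᵥ x = 0 → ∃ s t : F2, x = s • m + t • m'

theorem good2_of (b : Matrix I I F2)
    (h : (Module.finrank F2 (LinearMap.ker b.mulVecLin) + 2 ≤ 2) ∨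
       (Module.finrank F2 (LinearMap.ker b.mulVecLin) ≤ 2 ∧
        ∃ m m' : I → F2, b *ᵥ m = 0 ∧ b *ᵥ m' = 0 ∧ m ⬝ᵥ (om I *ᵥ m') = 1)) : Good2 b := by
  rcases h with h | ⟨h, m, m', hm, hm', hmm⟩
  · left
    intro x hx
    have h1 : Module.finrank F2 (LinearMap.ker b.mulVecLin) = 0 := by omega
    have h2 := Submodule.finrank_eq_zero.1 h1
    have h3 : x ∈ LinearMap.ker b.mulVecLin := by
      rw [LinearMap.mem_ker, Matrix.mulVecLin_apply]; exact hx
    rw [h2, Submodule.mem_bot] at h3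
    exact h3
  · right
    refine ⟨m, m', hm, hm', hmm, fun x hx => ?_⟩
    have h1 := li_pair m m' hmm
    have hle : Submodule.span F2 (Set.range ![m, m']) ≤ LinearMap.ker b.mulVecLin := by
      rw [Submodule.span_le]
      rintro _ ⟨i, rfl⟩
      rw [SetLike.mem_coe, LinearMap.mem_ker, Matrix.mulVecLin_apply]
      fin_cases i
      · exact hm
      · exact hm'
    have h2 := Submodule.eq_of_le_of_finrank_le hle (by rw [h1]; exact h)
    have h3 : x ∈ LinearMap.ker b.mulVecLin := by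
      rw [LinearMap.mem_ker, Matrix.mulVecLin_apply]; exact hx
    rw [← h2] at h3
    have h4 : Set.range ![m, m'] = {m, m'} := by
      ext y
      simp [Fin.exists_fin_two, eq_comm]
      exact or_comm
    rw [h4, Submodule.mem_span_pair] at h3
    obtain ⟨s, t, h5⟩ := h3
    exact ⟨s, t, h5.symm⟩

/-- no primitive vector is in the kernel modulo four -/
def Prim4 (M : Matrix I I ℤ) : Prop := ∀ v : I → ℤ, (∀ u, (4 : ℤ) ∣ (M *ᵥ v) u) → ∀ u, (2 : ℤ) ∣ v u

theorem Prim4.congr {M M' : Matrix I I ℤ} (h : Prim4 M) (hMM : ∀ u v, (4 : ℤ) ∣ M' u v - M u v) : Prim4 M' := by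
  intro v hv
  refine h v fun u => ?_
  have h1 : (M' *ᵥ v) u - (M *ᵥ v) u = ∑ w, (M' u w - M u w) * v w := by
    simp only [mulVec, dotProduct]
    rw [← Finset.sum_sub_distrib]
    exact Finset.sum_congr rfl fun w _ => by ring
  have h2 : (4 : ℤ) ∣ (M' *ᵥ v) u - (M *ᵥ v) u := by
    rw [h1]
    exact Finset.dvd_sum fun w _ => Dvd.dvd.mul_right (hMM u w) _
  have h3 := dvd_sub (hv u) h2
  rwa [sub_sub_cancel] at h3

theorem Prim4.det_ne {M : Matrix I I ℤ} (h : Prim4 M) : M.det ≠ 0 := by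
  intro hdet
  obtain ⟨v, hv0, hv⟩ := Matrix.exists_mulVec_eq_zero_iff.2 hdet
  have key : ∀ N : ℕ, ∀ v : I → ℤ, ∑ u, (v u).natAbs = N → M *ᵥ v = 0 → v = 0 := by
    intro N
    induction N using Nat.strong_induction_on with
    | _ N ih =>
    intro v hN hv
    have h1 := h v (fun u => by rw [hv]; exact dvd_zero _)
    choose w hw using h1
    have hvw : v = (2 : ℤ) • w := by funext u; rw [Pi.smul_apply, smul_eq_mul]; exact hw u
    have hMw : M *ᵥ w = 0 := by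
      rw [hvw, mulVec_smul] at hv
      funext u
      have := congrFun hv u
      rw [Pi.smul_apply, smul_eq_mul] at this
      simpa using this
    have hsum : N = 2 * ∑ u, (w u).natAbs := by
      rw [← hN, Finset.mul_sum]
      refine Finset.sum_congr rfl fun u _ => ?_
      rw [hw u, Int.natAbs_mul]; rfl
    by_cases hN0 : N = 0
    · funext u
      have h2 : ∑ u, (w u).natAbs = 0 := by omega
      have h3 := (Finset.sum_eq_zero_iff.1 h2) u (Finset.mem_univ u)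
      rw [hw u, Int.natAbs_eq_zero.1 h3]; rfl
    · have h4 := ih (∑ u, (w u).natAbs) (by omega) w rfl hMw
      rw [hvw, h4, smul_zero]
  exact hv0 (key _ v rfl hv)

theorem alt_dotZ {b : Matrix I I ℤ} (hb : Alt b) (x y : I → ℤ) : x ⬝ᵥ (b *ᵥ y) = - (y ⬝ᵥ (b *ᵥ x)) := alt_dot hb x y

/-- **Choice modulo four.** -/
theorem choose_four (b Ω : Matrix I I ℤ) (hb : Alt b) (hΩ : Alt Ω) (hΩ2 : m2 Ω = om I) (hG : Good2 (m2 b)) :
    Prim4 b ∨ Prim4 (b + (2 : ℤ) • Ω) := by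
  by_contra hcon
  push Not at hcon
  obtain ⟨h0, h1⟩ := hcon
  rw [Prim4] at h0 h1
  push Not at h0 h1
  obtain ⟨v0, hv0, u0, hu0⟩ := h0
  obtain ⟨v1, hv1, u1, hu1⟩ := h1
  have hA : m2 b *ᵥ r2 v0 = 0 := by
    rw [← r2_mulVec]; funext u; exact cast_four (hv0 u)
  have hM1 : (b + (2 : ℤ) • Ω) *ᵥ v1 = b *ᵥ v1 + (2 : ℤ) • (Ω *ᵥ v1) := by
    rw [add_mulVec, smul_mulVec]
  have hB : m2 b *ᵥ r2 v1 = 0 := by
    rw [← r2_mulVec]; funext u
    have h2 := hv1 u
    rw [hM1, Pi.add_apply, Pi.smul_apply, smul_eq_mul] at h2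
    have h3 : (2 : ℤ) ∣ (b *ᵥ v1) u := by
      have h4 : (2 : ℤ) ∣ (b *ᵥ v1) u + 2 * (Ω *ᵥ v1) u := Dvd.dvd.trans (by norm_num) h2
      exact (dvd_add_left (dvd_mul_right 2 _)).1 h4
    exact (ZMod.intCast_zmod_eq_zero_iff_dvd _ 2).2 h3
  have hn0 : r2 v0 ≠ 0 := fun h => hu0 ((r2_zero_iff v0).1 h u0)
  have hn1 : r2 v1 ≠ 0 := fun h => hu1 ((r2_zero_iff v1).1 h u1)
  have hbΩ : Alt (b + (2 : ℤ) • Ω) := ⟨fun u => by
    rw [Matrix.add_apply, Matrix.smul_apply, hb.1, hΩ.1, smul_zero, add_zero], fun u v => by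
    rw [Matrix.add_apply, Matrix.smul_apply, Matrix.add_apply, Matrix.smul_apply, hb.2 u v, hΩ.2 u v, smul_neg, neg_add]⟩
  -- the pairing
  have hω : r2 v1 ⬝ᵥ (om I *ᵥ r2 v0) = 0 := by
    have e1 : (4 : ℤ) ∣ v1 ⬝ᵥ (b *ᵥ v0) := Finset.dvd_sum fun u _ => Dvd.dvd.mul_left (hv0 u) _
    have e2 : (4 : ℤ) ∣ v1 ⬝ᵥ ((b + (2 : ℤ) • Ω) *ᵥ v0) := by
      rw [alt_dotZ hbΩ, dvd_neg]
      exact Finset.dvd_sum fun u _ => Dvd.dvd.mul_left (hv1 u) _
    have e3 : v1 ⬝ᵥ ((b + (2 : ℤ) • Ω) *ᵥ v0) = v1 ⬝ᵥ (b *ᵥ v0) + 2 * (v1 ⬝ᵥ (Ω *ᵥ v0)) := by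
      rw [add_mulVec, smul_mulVec, dotProduct_add, dotProduct_smul, smul_eq_mul]
    rw [e3] at e2
    have e4 : (4 : ℤ) ∣ 2 * (v1 ⬝ᵥ (Ω *ᵥ v0)) := (dvd_add_right e1).1 e2
    have e5 : (2 : ℤ) ∣ v1 ⬝ᵥ (Ω *ᵥ v0) := by omega
    rw [← hΩ2, ← r2_mulVec, ← r2_dot]
    exact (ZMod.intCast_zmod_eq_zero_iff_dvd _ 2).2 e5
  rcases hG with hG | ⟨m, m', hm, hm', hmm, hspan⟩
  · exact hn0 (hG _ hA)
  obtain ⟨s, t, hst⟩ := hspan _ hA
  obtain ⟨s', t', hst'⟩ := hspan _ hB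
  have hmm' : m' ⬝ᵥ (om I *ᵥ m) = 1 := by
    rw [← omB_apply, omB_symm, omB_apply]; exact hmm
  have hself : ∀ x : I → F2, x ⬝ᵥ (om I *ᵥ x) = 0 := fun x => alt_dot_self (om_alt (I := I)) x
  have hsp : ∀ a c a' c' : F2, (a • m + c • m') ⬝ᵥ (om I *ᵥ (a' • m + c' • m')) = a * c' + c * a' := by
    intro a c a' c'
    rw [mulVec_add, mulVec_smul, mulVec_smul, dotProduct_add, add_dotProduct, add_dotProduct, smul_dotProduct,
      smul_dotProduct, dotProduct_smul, dotProduct_smul, smul_dotProduct, smul_dotProduct, dotProduct_smul,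
      dotProduct_smul, hself, hself, hmm, hmm']
    simp only [smul_eq_mul, mul_zero, mul_one, zero_add, add_zero]
    ring
  have heq : r2 v1 = r2 v0 := by
    rw [hst, hst', hsp] at hω
    rw [hst] at hn0
    rw [hst'] at hn1
    rw [hst, hst']
    have hdec : ∀ s t s' t' : F2, ¬ (s = 0 ∧ t = 0) → ¬ (s' = 0 ∧ t' = 0) → s' * t + t' * s = 0 →
        s' = s ∧ t' = t := by decide
    obtain ⟨e1, e2⟩ := hdec s t s' t' (fun h => hn0 (by rw [h.1, h.2, zero_smul, zero_smul, add_zero]))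
      (fun h => hn1 (by rw [h.1, h.2, zero_smul, zero_smul, add_zero])) hω
    rw [e1, e2]
  -- `v1 = v0 + 2 w`
  have hdiv : ∀ u, ∃ w, v1 u = v0 u + 2 * w := by
    intro u
    have h2 := congrFun heq u
    have h3 : ((v1 u - v0 u : ℤ) : F2) = 0 := by
      rw [Int.cast_sub]; exact sub_eq_zero.2 h2
    obtain ⟨w, hw⟩ := (ZMod.intCast_zmod_eq_zero_iff_dvd _ 2).1 h3
    exact ⟨w, by push_cast at hw; linarith⟩
  choose w hw using hdiv
  have hvw : v1 = v0 + (2 : ℤ) • w := by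
    funext u; rw [Pi.add_apply, Pi.smul_apply, smul_eq_mul]; exact hw u
  have hrel : m2 b *ᵥ r2 w = om I *ᵥ r2 v0 := by
    rw [← hΩ2, ← r2_mulVec, ← r2_mulVec]
    funext u
    have e1 := hv1 u
    have e2 : ((b + (2 : ℤ) • Ω) *ᵥ v1) u =
        (b *ᵥ v0) u + 2 * ((b *ᵥ w) u + (Ω *ᵥ v0) u) + 4 * (Ω *ᵥ w) u := by
      rw [hM1, hvw, mulVec_add, mulVec_add, mulVec_smul, mulVec_smul]
      simp only [Pi.add_apply, Pi.smul_apply, smul_eq_mul]
      ring
    rw [e2] at e1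
    have e3 := hv0 u
    have e4 : (2 : ℤ) ∣ (b *ᵥ w) u + (Ω *ᵥ v0) u := by omega
    have e5 : (((b *ᵥ w) u + (Ω *ᵥ v0) u : ℤ) : F2) = 0 := (ZMod.intCast_zmod_eq_zero_iff_dvd _ 2).2 e4
    rw [Int.cast_add] at e5
    have : ∀ p q : F2, p + q = 0 → p = q := by decide
    exact this _ _ e5
  have hb2 : Alt (m2 b) := hb.map' _
  have hp : ∀ x : I → F2, m2 b *ᵥ x = 0 → x ⬝ᵥ (om I *ᵥ r2 v0) = 0 := by
    intro x hx
    rw [← hrel]
    exact alt_perp hb2 x _ hx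
  have h5 := hp m hm
  have h6 := hp m' hm'
  rw [hst] at h5 h6
  have h7 := hsp 1 0 s t
  have h8 := hsp 0 1 s t
  simp only [one_smul, zero_smul, add_zero, zero_add, one_mul, zero_mul] at h7 h8
  rw [h7] at h5
  rw [h8] at h6
  apply hn0
  rw [hst, h5, h6, zero_smul, zero_smul, add_zero]

/-- duality, the other way -/
theorem dual_rel {g : ℕ} (hI : Fintype.card I = 2 * g) (e f A B : Fin g → I → ℤ)
    (h : ∀ u v : I, (∑ i, A i u * e i v) + (∑ i, B i u * f i v) = if u = v then 1 else 0) :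
    (∀ i j, e i ⬝ᵥ A j = if i = j then 1 else 0) ∧ (∀ i j, e i ⬝ᵥ B j = 0) ∧ (∀ i j, f i ⬝ᵥ A j = 0) ∧
    (∀ i j, f i ⬝ᵥ B j = if i = j then 1 else 0) := by
  obtain ⟨σ⟩ : Nonempty (I ≃ Fin g ⊕ Fin g) := by
    refine Fintype.card_eq.1 ?_
    rw [hI, Fintype.card_sum, Fintype.card_fin]; ring
  let Φ : Matrix I (Fin g ⊕ Fin g) ℤ := Matrix.of fun u x => Sum.elim (fun i => A i u) (fun i => B i u) x
  let Ψ : Matrix (Fin g ⊕ Fin g) I ℤ := Matrix.of fun x v => Sum.elim (fun i => e i v) (fun i => f i v) x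
  have h1 : Φ * Ψ = 1 := by
    ext u v
    rw [Matrix.mul_apply, Fintype.sum_sum_type, Matrix.one_apply]
    exact h u v
  have h2 : Ψ * Φ = 1 := (Matrix.mul_eq_one_comm_of_equiv σ).1 h1
  have h3 : ∀ x y, ∑ u, Ψ x u * Φ u y = if x = y then 1 else 0 := by
    intro x y
    have := congrFun (congrFun h2 x) y
    rwa [Matrix.mul_apply, Matrix.one_apply] at this
  refine ⟨fun i j => ?_, fun i j => ?_, fun i j => ?_, fun i j => ?_⟩
  · have := h3 (Sum.inl i) (Sum.inl j)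
    simpa [Ψ, Φ, dotProduct] using this
  · have := h3 (Sum.inl i) (Sum.inr j)
    simpa [Ψ, Φ, dotProduct] using this
  · have := h3 (Sum.inr i) (Sum.inl j)
    simpa [Ψ, Φ, dotProduct] using this
  · have := h3 (Sum.inr i) (Sum.inr j)
    simpa [Ψ, Φ, dotProduct] using this

/-- the matrix in the normal form, on a dual vector -/
theorem normal_mulVec {g : ℕ} (d : Fin g → ℤ) (e f : Fin g → I → ℤ) (x : I → ℤ) :
    (∑ i, d i • wdg (e i) (f i) : Matrix I I ℤ) *ᵥ x = ∑ i, (d i • ((f i ⬝ᵥ x) • e i - (e i ⬝ᵥ x) • f i)) := by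
  funext u
  simp only [mulVec, dotProduct, Matrix.sum_apply, Matrix.smul_apply, wdg, Matrix.of_apply, smul_eq_mul,
    Finset.sum_apply, Pi.smul_apply, Pi.sub_apply, Finset.sum_mul]
  rw [Finset.sum_comm]
  refine Finset.sum_congr rfl fun i _ => ?_
  rw [← Finset.sum_sub_distrib, Finset.mul_sum]
  exact Finset.sum_congr rfl fun v _ => by ring

/-- **Choice of the translate.** -/
theorem choose_c (g n : ℕ) (hI : Fintype.card I = 2 * g) (hn : 0 < n)
    (hodd : ∀ p : ℕ, p.Prime → p ∣ n → p ≠ 2 → g < p) (b Ω : Matrix I I ℤ) (hb : Alt b) (hΩ : Alt Ω)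
    (hdet : IsCoprime Ω.det (n : ℤ)) (x0 : ℤ) :
    ∃ c : ℤ, (4 : ℤ) ∣ c - x0 ∧ ∀ p : ℕ, p.Prime → p ∣ n → p ≠ 2 → ¬ (p : ℤ) ∣ (b + c • Ω).det := by
  set n' := ordCompl[2] n with hn'
  have hn0 : 0 < n' := Nat.ordCompl_pos 2 hn.ne'
  have hdvd : n' ∣ n := Nat.ordCompl_dvd n 2
  have hodd' : ¬ 2 ∣ n' := Nat.not_dvd_ordCompl Nat.prime_two hn.ne'
  obtain ⟨c', hc'⟩ := exists_shift_int g hI n' hn0 (fun p hp hpn => hodd p hp (hpn.trans hdvd) (by
    rintro rfl; exact hodd' hpn)) b Ω hb hΩ (hdet.of_isCoprime_of_dvd_right (by exact_mod_cast hdvd))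
  have hcop : IsCoprime (4 : ℤ) (n' : ℤ) := by
    have h1 : Nat.Coprime 4 n' := by
      have h2 : Nat.Coprime (2 ^ 2) n' := Nat.Coprime.pow_left 2 ((Nat.prime_two.coprime_iff_not_dvd).2 hodd')
      exact h2
    exact_mod_cast Nat.isCoprime_iff_coprime.2 h1
  obtain ⟨u, v, huv⟩ := hcop
  have hc1 : (4 : ℤ) ∣ (x0 * (v * n') + c' * (u * 4)) - x0 := by
    refine ⟨u * (c' - x0), ?_⟩
    have : v * (n' : ℤ) = 1 - u * 4 := by rw [← huv]; ring
    rw [this]; ring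
  have hc2 : (n' : ℤ) ∣ (x0 * (v * n') + c' * (u * 4)) - c' := by
    refine ⟨v * (x0 - c'), ?_⟩
    have : u * 4 = 1 - v * (n' : ℤ) := by rw [← huv]; ring
    rw [this]; ring
  refine ⟨x0 * (v * n') + c' * (u * 4), hc1, ?_⟩
  intro p hp hpn hp2 hpd
  have hpn' : p ∣ n' := by
    have h1 : n = 2 ^ (n.factorization 2) * n' := (Nat.ordProj_mul_ordCompl_eq_self n 2).symm
    rw [h1] at hpn
    rcases (Nat.Prime.dvd_mul hp).1 hpn with h2 | h2
    · exact absurd ((Nat.prime_dvd_prime_iff_eq hp Nat.prime_two).1 (hp.dvd_of_dvd_pow h2)) hp2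
    · exact h2
  have h3 : (((x0 * (v * n') + c' * (u * 4) : ℤ)) : ZMod p) = (c' : ZMod p) := by
    have h4 : (p : ℤ) ∣ (x0 * (v * n') + c' * (u * 4)) - c' := Dvd.dvd.trans (by exact_mod_cast hpn') hc2
    have h5 := (ZMod.intCast_zmod_eq_zero_iff_dvd _ p).2 h4
    rw [Int.cast_sub, sub_eq_zero] at h5
    exact h5
  have h6 : (((b + (x0 * (v * n') + c' * (u * 4)) • Ω).det : ℤ) : ZMod p) = (((b + c' • Ω).det : ℤ) : ZMod p) := by
    rw [det_cast, det_cast, h3]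
  have h7 := (ZMod.intCast_zmod_eq_zero_iff_dvd _ p).2 hpd
  rw [h6] at h7
  have h8 := (ZMod.intCast_zmod_eq_zero_iff_dvd _ p).1 h7
  have h9 := hc'.isUnit_of_dvd' h8 (by exact_mod_cast hpn')
  have := Int.isUnit_iff.1 h9
  have := hp.one_lt
  omega

/-- **The normal form of a good member of the pencil.** -/
theorem choose_form (g n : ℕ) (hg : g / 2 = 1) (hI : Fintype.card I = 2 * g) (hn : 0 < n)
    (hodd : ∀ p : ℕ, p.Prime → p ∣ n → p ≠ 2 → g < p) (b Ω : Matrix I I ℤ) (hb : Alt b) (hΩ : Alt Ω)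
    (hΩ2 : m2 Ω = om I) (hdet : IsCoprime Ω.det (n : ℤ)) :
    ∃ (c : ℤ) (d : Fin g → ℤ) (e f A B : Fin g → I → ℤ),
      (b + c • Ω = ∑ i, d i • wdg (e i) (f i)) ∧
      (∀ u v : I, (∑ i, A i u * e i v) + (∑ i, B i u * f i v) = if u = v then 1 else 0) ∧
      (∀ p : ℕ, p.Prime → p ∣ n → p ≠ 2 → ∀ i, ¬ (p : ℤ) ∣ d i) ∧ (∀ i, ¬ (4 : ℤ) ∣ d i) ∧
      ((∀ i, ¬ (2 : ℤ) ∣ d i) ∨ ∃ i0, (2 : ℤ) ∣ d i0 ∧ (∀ i, i ≠ i0 → ¬ (2 : ℤ) ∣ d i) ∧
        r2 (A i0) ⬝ᵥ (om I *ᵥ r2 (B i0)) = 1) := by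
  -- parity
  have hb2 : Alt (m2 b) := hb.map' _
  have hom2 : Alt (m2 b + om I) := by
    constructor
    · intro u; rw [Matrix.add_apply, hb2.1, (om_alt (I := I)).1, add_zero]
    · intro u v; rw [Matrix.add_apply, Matrix.add_apply, hb2.2 u v, (om_alt (I := I)).2 u v, neg_add]
  obtain ⟨b', hb', hch⟩ := choice g (by omega) hI (m2 b) (m2 b + om I) hb2 hom2 (Or.inl rfl)
  have hG : Good2 b' := good2_of b' (by rw [hg] at hch; exact hch)
  have hx0 : ∃ x0 : ℤ, m2 (b + x0 • Ω) = b' := by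
    rcases hb' with rfl | rfl
    · exact ⟨0, by rw [zero_smul, add_zero]⟩
    · refine ⟨1, ?_⟩
      rw [one_smul, ← hΩ2]
      ext u v
      simp [m2]
  obtain ⟨x0, hx0⟩ := hx0
  have haltc : ∀ x : ℤ, Alt (b + x • Ω) := fun x => ⟨fun u => by
    rw [Matrix.add_apply, Matrix.smul_apply, hb.1, hΩ.1, smul_zero, add_zero], fun u v => by
    rw [Matrix.add_apply, Matrix.smul_apply, Matrix.add_apply, Matrix.smul_apply, hb.2 u v, hΩ.2 u v, smul_neg,
      neg_add]⟩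
  have hx1 : ∃ x1 : ℤ, (2 : ℤ) ∣ x1 - x0 ∧ Prim4 (b + x1 • Ω) := by
    rcases choose_four (b + x0 • Ω) Ω (haltc x0) hΩ hΩ2 (by rw [hx0]; exact hG) with h | h
    · exact ⟨x0, by simp, h⟩
    · refine ⟨x0 + 2, by simp, ?_⟩
      rw [add_smul, ← add_assoc]
      exact h
  obtain ⟨x1, hx1, hprim⟩ := hx1
  obtain ⟨c, hc4, hcp⟩ := choose_c g n hI hn hodd b Ω hb hΩ hdet x1
  have hprim' : Prim4 (b + c • Ω) := hprim.congr fun u v => by
    rw [Matrix.add_apply, Matrix.add_apply, Matrix.smul_apply, Matrix.smul_apply, smul_eq_mul, smul_eq_mul,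
      add_sub_add_left_eq_sub, ← sub_mul]
    exact Dvd.dvd.mul_right hc4 _
  have hm2 : m2 (b + c • Ω) = b' := by
    rw [← hx0]
    ext u v
    have h1 : (2 : ℤ) ∣ c - x0 := by
      have := Dvd.dvd.trans (by norm_num : (2 : ℤ) ∣ 4) hc4
      have := dvd_add this hx1
      rwa [sub_add_sub_cancel] at this
    have h2 : ((c : ℤ) : F2) = (x0 : F2) := by
      have h5 := (ZMod.intCast_zmod_eq_zero_iff_dvd _ 2).2 h1
      rw [Int.cast_sub, sub_eq_zero] at h5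
      exact h5
    simp only [m2, Matrix.map_apply, Matrix.add_apply, Matrix.smul_apply, smul_eq_mul, eq_intCast, Int.cast_add,
      Int.cast_mul, h2]
  obtain ⟨d, e, f, A, B, hM, hdual, hdd⟩ := frob_matrix g hI (b + c • Ω) (haltc c) hprim'.det_ne
  obtain ⟨h11, h12, h21, h22⟩ := dual_rel hI e f A B hdual
  have hMA : ∀ i, (b + c • Ω) *ᵥ A i = (-(d i)) • f i := by
    intro i
    rw [hM, normal_mulVec, Finset.sum_eq_single i]
    · rw [h21, h11, if_pos rfl, zero_smul, one_smul, zero_sub, smul_neg, neg_smul]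
    · intro j _ hj
      rw [h21, h11, if_neg hj, zero_smul, zero_smul, sub_zero, smul_zero]
    · intro h; exact absurd (Finset.mem_univ _) h
  have hMB : ∀ i, (b + c • Ω) *ᵥ B i = (d i) • e i := by
    intro i
    rw [hM, normal_mulVec, Finset.sum_eq_single i]
    · rw [h22, h12, if_pos rfl, zero_smul, one_smul, sub_zero]
    · intro j _ hj
      rw [h22, h12, if_neg hj, zero_smul, zero_smul, sub_zero, smul_zero]
    · intro h; exact absurd (Finset.mem_univ _) h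
  have hk : ∀ i, (2 : ℤ) ∣ d i → b' *ᵥ r2 (A i) = 0 ∧ b' *ᵥ r2 (B i) = 0 := by
    intro i hi
    rw [← hm2, ← r2_mulVec, ← r2_mulVec, hMA, hMB]
    constructor
    · rw [r2_zero_iff]; intro u
      rw [Pi.smul_apply, smul_eq_mul]; exact Dvd.dvd.mul_right ((dvd_neg).2 hi) _
    · rw [r2_zero_iff]; intro u
      rw [Pi.smul_apply, smul_eq_mul]; exact Dvd.dvd.mul_right hi _
  have hA0 : ∀ i, r2 (A i) ≠ 0 := by
    intro i h
    have h1 := (r2_dot (e i) (A i))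
    rw [h, dotProduct_zero, h11, if_pos rfl] at h1
    exact one_ne_zero h1
  refine ⟨c, d, e, f, A, B, hM, hdual, ?_, ?_, ?_⟩
  · intro p hp hpn hp2 i hpd
    apply hcp p hp hpn hp2
    refine Dvd.dvd.trans ?_ hdd
    refine Dvd.dvd.trans ?_ (dvd_pow_self _ two_ne_zero)
    exact hpd.trans (Finset.dvd_prod_of_mem _ (Finset.mem_univ i))
  · intro i hi
    apply hA0 i
    rw [r2_zero_iff]
    refine hprim' (A i) fun u => ?_
    rw [hMA, Pi.smul_apply, smul_eq_mul]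
    exact Dvd.dvd.mul_right ((dvd_neg).2 hi) _
  · by_cases hall : ∀ i, ¬ (2 : ℤ) ∣ d i
    · exact Or.inl hall
    right
    push Not at hall
    obtain ⟨i0, hi0⟩ := hall
    obtain ⟨hkA, hkB⟩ := hk i0 hi0
    rcases hG with hG | ⟨m, m', hm, hm', hmm, hspan⟩
    · exact absurd (hG _ hkA) (hA0 i0)
    obtain ⟨s, t, hst⟩ := hspan _ hkA
    obtain ⟨s', t', hst'⟩ := hspan _ hkB
    -- the coordinates are independent
    have hpair : ∀ x y : F2, x • r2 (A i0) + y • r2 (B i0) = 0 → x = 0 ∧ y = 0 := by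
      intro x y h
      have h1 : r2 (e i0) ⬝ᵥ (x • r2 (A i0) + y • r2 (B i0)) = x := by
        rw [dotProduct_add, dotProduct_smul, dotProduct_smul, ← r2_dot, ← r2_dot, h11, h12, if_pos rfl]
        simp
      have h2 : r2 (f i0) ⬝ᵥ (x • r2 (A i0) + y • r2 (B i0)) = y := by
        rw [dotProduct_add, dotProduct_smul, dotProduct_smul, ← r2_dot, ← r2_dot, h21, h22, if_pos rfl]
        simp
      rw [h, dotProduct_zero] at h1 h2
      exact ⟨h1.symm, h2.symm⟩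
    have hdetst : s * t' + t * s' = 1 := by
      have hdec : ∀ s t s' t' : F2, s * t' + t * s' ≠ 1 → ∃ x y : F2, ¬ (x = 0 ∧ y = 0) ∧
          x * s + y * s' = 0 ∧ x * t + y * t' = 0 := by decide
      by_contra hne
      obtain ⟨x, y, hxy, e1, e2⟩ := hdec s t s' t' hne
      apply hxy
      apply hpair
      rw [hst, hst']
      have : x • (s • m + t • m') + y • (s' • m + t' • m') = (x * s + y * s') • m + (x * t + y * t') • m' := by
        module
      rw [this, e1, e2, zero_smul, zero_smul, add_zero]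
    have hinv : ∀ x, b' *ᵥ x = 0 → ∃ p q : F2, x = p • r2 (A i0) + q • r2 (B i0) := by
      intro x hx
      obtain ⟨p, q, rfl⟩ := hspan x hx
      have hdec : ∀ s t s' t' p q : F2, s * t' + t * s' = 1 → ∃ x y : F2,
          p = x * s + y * s' ∧ q = x * t + y * t' := by decide
      obtain ⟨x, y, e1, e2⟩ := hdec s t s' t' p q hdetst
      refine ⟨x, y, ?_⟩
      rw [hst, hst', e1, e2]
      module
    refine ⟨i0, hi0, ?_, ?_⟩
    · intro j hj hjd
      obtain ⟨p, q, hpq⟩ := hinv _ (hk j hjd).1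
      have h1 : r2 (e i0) ⬝ᵥ r2 (A j) = p := by
        rw [hpq, dotProduct_add, dotProduct_smul, dotProduct_smul, ← r2_dot, ← r2_dot, h11, h12, if_pos rfl]
        simp
      have h2 : r2 (f i0) ⬝ᵥ r2 (A j) = q := by
        rw [hpq, dotProduct_add, dotProduct_smul, dotProduct_smul, ← r2_dot, ← r2_dot, h21, h22, if_pos rfl]
        simp
      rw [← r2_dot, h11, if_neg (Ne.symm hj)] at h1
      rw [← r2_dot, h21] at h2
      apply hA0 j
      rw [hpq, ← h1, ← h2]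
      simp
    · have hself : ∀ x : I → F2, x ⬝ᵥ (om I *ᵥ x) = 0 := fun x => alt_dot_self (om_alt (I := I)) x
      have hmm' : m' ⬝ᵥ (om I *ᵥ m) = 1 := by
        rw [← omB_apply, omB_symm, omB_apply]; exact hmm
      rw [hst, hst', mulVec_add, mulVec_smul, mulVec_smul, dotProduct_add, add_dotProduct, add_dotProduct,
        smul_dotProduct, smul_dotProduct, dotProduct_smul, dotProduct_smul, smul_dotProduct, smul_dotProduct,
        dotProduct_smul, dotProduct_smul, hself, hself, hmm, hmm']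
      simp only [smul_eq_mul, mul_zero, mul_one, zero_add, add_zero]
      rw [← hdetst]; ring

end

end Pool.Agent.HX84.PI
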