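import Mathlib
import Pool.Agent.HX84.PI.IntLin

/-! Normal forms of classes of period `n` with explicit linear part, and the index of products of good blocks. -/

set_option autoImplicit false
set_option linter.all false

open scoped TensorProduct
open Matrix

noncomputable section

namespace Pool.Agent.HX84.PI

open Pool.Agent.Helper346.Bra Pool.Agent.Helper18.Br Pool.Agent.H552R3.SymBr Pool.Agent.H552R3.SymPred
  Pool.Agent.H552R3.Tsen Pool.Agent.Y109.PI

universe u

section abs

variable {G B : Type*} [CommGroup G] [CommGroup B] {s : G →* G →* B} {I : Type*} [Fintype I]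

/-- lower terms, explicitly -/
theorem low_explicit [DecidableEq I] (H : Subgroup G) (V : Subgroup B) (z : I → G) (γ : B)
    (hγ : γ ∈ low s H V z) :
    ∃ h : I → G, (∀ u, h u ∈ H) ∧ ∃ v ∈ V, γ = (∏ u, s (h u) (z u)) * v := by
  let T : Subgroup B :=
    { carrier := {γ | ∃ h : I → G, (∀ u, h u ∈ H) ∧ ∃ v ∈ V, γ = (∏ u, s (h u) (z u)) * v}
      mul_mem' := by
        rintro x y ⟨h, hh, v, hv, rfl⟩ ⟨h', hh', v', hv', rfl⟩
        refine ⟨h * h', fun u => H.mul_mem (hh u) (hh' u), v * v', V.mul_mem hv hv', ?_⟩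
        rw [mul_mul_mul_comm, ← Finset.prod_mul_distrib]
        congr 1
        refine Finset.prod_congr rfl fun u _ => ?_
        rw [Pi.mul_apply, map_mul, MonoidHom.mul_apply]
      one_mem' := ⟨1, fun _ => H.one_mem, 1, V.one_mem, by simp⟩
      inv_mem' := by
        rintro x ⟨h, hh, v, hv, rfl⟩
        refine ⟨h⁻¹, fun u => H.inv_mem (hh u), v⁻¹, V.inv_mem hv, ?_⟩
        rw [mul_inv, ← Finset.prod_inv_distrib]
        congr 1
        refine Finset.prod_congr rfl fun u _ => ?_
        rw [Pi.inv_apply, map_inv, MonoidHom.inv_apply] }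
  have hle : low s H V z ≤ T := by
    refine sup_le (fun v hv => ⟨1, fun _ => H.one_mem, v, hv, by simp⟩) ?_
    rw [Subgroup.closure_le]
    rintro γ ⟨h, hh, u, rfl⟩
    refine ⟨Pi.mulSingle u h, ?_, 1, V.one_mem, ?_⟩
    · intro j
      by_cases hj : j = u
      · subst hj; rw [Pi.mulSingle_eq_same]; exact hh
      · rw [Pi.mulSingle_eq_of_ne hj]; exact H.one_mem
    · rw [mul_one, Finset.prod_eq_single u]
      · rw [Pi.mulSingle_eq_same]
      · intro j _ hj; rw [Pi.mulSingle_eq_of_ne hj]; simp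
      · intro h; exact absurd (Finset.mem_univ _) h
  exact hle hγ

/-- the linear part in new coordinates -/
theorem lin_coord (z h : I → G) {g : ℕ} (E F : Fin g → G) (A C : Fin g → I → ℤ)
    (hz : ∀ u, z u = (∏ i, E i ^ A i u) * ∏ i, F i ^ C i u) :
    ∏ u, s (h u) (z u) = ∏ i, (s (mon h (A i)) (E i) * s (mon h (C i)) (F i)) := by
  have e1 : ∀ u, s (h u) (z u) = (∏ i, s (h u) (E i) ^ A i u) * ∏ i, s (h u) (F i) ^ C i u := by
    intro u
    rw [hz u, map_mul, map_prod, map_prod]
    simp only [map_zpow]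
  have e2 : ∀ (E : G) (w : I → ℤ), s (mon h w) E = ∏ u, s (h u) E ^ w u := by
    intro E w
    rw [mon, map_prod, MonoidHom.finsetProd_apply]
    refine Finset.prod_congr rfl fun u _ => ?_
    rw [map_zpow, MonoidHom.zpow_apply]
  rw [Finset.prod_congr rfl fun u _ => e1 u, Finset.prod_mul_distrib, Finset.prod_mul_distrib]
  congr 1
  · rw [Finset.prod_comm]
    exact Finset.prod_congr rfl fun i _ => (e2 _ _).symm
  · rw [Finset.prod_comm]
    exact Finset.prod_congr rfl fun i _ => (e2 _ _).symm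

/-- the normal form with an explicit linear part -/
theorem abs_form [DecidableEq I] (hanti : ∀ a b, s a b = (s b a)⁻¹) (n : ℕ)
    (htors : ∀ a b, s a b ^ n = 1) (ε : G)
    (H : Subgroup G) (hε : ε ∈ H) (hdiag : ∀ a, s a a = 1 ∨ s a a = s a ε) (V : Subgroup B) (z : I → G)
    (w w0 : I → I → ℤ) (hw0 : Q s z w0 ∈ low s H V z) (c : ℤ) (g : ℕ) (d : Fin g → ℤ) (e f : Fin g → I → ℤ)
    (hM : (Matrix.of fun u v => w u v - w v u : Matrix I I ℤ) + c • (Matrix.of fun u v => w0 u v - w0 v u) =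
      ∑ i, d i • wdg (e i) (f i))
    (α : B) (hw : α * (Q s z w)⁻¹ ∈ low s H V z) :
    ∃ h : I → G, (∀ u, h u ∈ H) ∧ ∃ v ∈ V,
      α = (∏ i, s (mon z (e i)) (mon z (f i)) ^ d i) * ((∏ u, s (h u) (z u)) * v) := by
  have hprod : ∏ i, s (mon z (e i)) (mon z (f i)) ^ d i = Q s z (∑ i, d i • fun u v => e i u * f i v) := by
    rw [Q_sum]
    refine Finset.prod_congr rfl fun i _ => ?_
    rw [Q_smul, ← s_mon]
  have h1 := Q_congr hanti n htors ε H hε hdiag V z (w + c • w0) (∑ i, d i • fun u v => e i u * f i v) (by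
    intro u v
    have e1 : (w + c • w0) u v - (w + c • w0) v u =
        ((Matrix.of fun u v => w u v - w v u : Matrix I I ℤ) + c • (Matrix.of fun u v => w0 u v - w0 v u)) u v := by
      simp only [Pi.add_apply, Pi.smul_apply, smul_eq_mul, Matrix.add_apply, Matrix.smul_apply, Matrix.of_apply]
      ring
    have e2 : (∑ i, d i • fun u v => e i u * f i v : I → I → ℤ) u v -
        (∑ i, d i • fun u v => e i u * f i v : I → I → ℤ) v u =
        (∑ i, d i • wdg (e i) (f i) : Matrix I I ℤ) u v := by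
      simp only [Finset.sum_apply, Pi.smul_apply, Matrix.sum_apply, Matrix.smul_apply, wdg, Matrix.of_apply,
        smul_eq_mul]
      rw [← Finset.sum_sub_distrib]
      refine Finset.sum_congr rfl fun i _ => ?_
      ring
    rw [e1, e2, hM, sub_self]; exact dvd_zero _)
  rw [← hprod, Q_add, Q_smul] at h1
  have h3 := Subgroup.mul_mem _ (Subgroup.mul_mem _ hw h1)
    (Subgroup.inv_mem _ (Subgroup.zpow_mem _ hw0 c))
  have e1 : ∀ p q r : B, α * p⁻¹ * (p * q * r) * q⁻¹ = α * r := by
    intro p q r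
    calc α * p⁻¹ * (p * q * r) * q⁻¹ = α * r * (p * p⁻¹) * (q * q⁻¹) := by
          simp only [mul_assoc, mul_comm, mul_left_comm]
      _ = α * r := by rw [mul_inv_cancel, mul_inv_cancel, mul_one, mul_one]
  rw [e1] at h3
  obtain ⟨h, hh, v, hv, heq⟩ := low_explicit H V z _ h3
  refine ⟨h, hh, v, hv, ?_⟩
  rw [← heq, mul_comm α, mul_inv_cancel_left]

/-- one block -/
theorem block_eq (hanti : ∀ a b, s a b = (s b a)⁻¹) (n : ℕ) (htors : ∀ a b, s a b ^ n = 1)
    (E F a b : G) (d u m : ℤ) (hdu : (n : ℤ) ∣ u * d - m) (hab : s b a = 1) :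
    s E F ^ d * (s a E ^ m * s b F ^ m) = s (E * b ^ u) (F * a ^ (-u)) ^ d := by
  have hn : ∀ (x y : G), s x y ^ (u * d) = s x y ^ m := by
    intro x y
    obtain ⟨t, ht⟩ := hdu
    have : u * d = m + n * t := by rw [← ht]; ring
    rw [this, _root_.zpow_add, _root_.zpow_mul, zpow_natCast, htors, _root_.one_zpow, mul_one]
  have e1 : s (E * b ^ u) (F * a ^ (-u)) = s E F * (s a E ^ u * s b F ^ u) := by
    rw [map_mul, map_mul, MonoidHom.mul_apply, MonoidHom.mul_apply, map_zpow, map_zpow, map_zpow,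
      MonoidHom.zpow_apply, MonoidHom.zpow_apply, hab, _root_.one_zpow, _root_.one_zpow, mul_one, hanti E a,
      _root_.inv_zpow', neg_neg]
    simp only [mul_assoc, mul_comm, mul_left_comm]
  rw [e1, _root_.mul_zpow, _root_.mul_zpow, ← _root_.zpow_mul, ← _root_.zpow_mul, hn, hn]

end abs

section fields

variable {k : Type u} [Field k] {n : ℕ} (hn : 0 < n) {ζ : k} (hζ : IsPrimitiveRoot ζ n)

/-- the units of an intermediate field -/
def HU {M : Type u} [Field M] [Algebra k M] (E : IntermediateField k M) : Subgroup Mˣ where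
  carrier := {x : Mˣ | (x : M) ∈ E}
  mul_mem' := fun {a b} ha hb => by
    change ((a * b : Mˣ) : M) ∈ E
    rw [Units.val_mul]; exact E.mul_mem ha hb
  one_mem' := E.one_mem
  inv_mem' := fun {a} ha => by
    change ((a⁻¹ : Mˣ) : M) ∈ E
    rw [Units.val_inv_eq_inv_val]; exact E.inv_mem ha

theorem mon_mem {M : Type*} [CommGroup M] (H : Subgroup M) {I : Type*} [Fintype I] (h : I → M) (w : I → ℤ)
    (hh : ∀ u, h u ∈ H) : mon h w ∈ H :=
  H.prod_mem fun u _ => H.zpow_mem (hh u) _

variable [IsAlgClosed k]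

include hn in
theorem base_one : Base hn hζ 1 1 := by
  intro M _ _ hM β hβ
  have hle : Subgroup.closure {γ : BrauerGroup.{u, u} M | ∃ a b : Mˣ, γ = symCl hn (rootK M hζ) a b} ≤ ⊥ := by
    rw [Subgroup.closure_le]
    rintro γ ⟨a, b, rfl⟩
    have hdep : ¬ AlgebraicIndependent k ![(a : M), (b : M)] := by
      intro h
      have h2 := h.lift_cardinalMk_le_trdeg
      have h3 := h2.trans (Cardinal.lift_le.2 hM)
      simp at h3
    rw [SetLike.mem_coe, Subgroup.mem_bot]
    exact tsen hn hζ a b hdep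
  have h6 := hle hβ
  rw [Subgroup.mem_bot] at h6
  subst h6
  exact hasRep_one.indDvd

theorem tsenL {M : Type u} [Field M] [Algebra k M] (E : IntermediateField k M) (hE : Algebra.trdeg k E ≤ 1)
    (a b : Mˣ) (ha : (a : M) ∈ E) (hb : (b : M) ∈ E) : symCl hn (rootK M hζ) a b = 1 := by
  refine tsen hn hζ a b ?_
  intro h
  have h1 : AlgebraicIndependent k ![(⟨a, ha⟩ : E), (⟨b, hb⟩ : E)] := by
    apply AlgebraicIndependent.of_comp E.val
    convert h using 1
    funext i
    fin_cases i <;> rfl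
  have h2 := h1.lift_cardinalMk_le_trdeg
  have h3 := h2.trans (Cardinal.lift_le.2 hE)
  simp at h3

theorem VL_one {M : Type u} [Field M] [Algebra k M] (E : IntermediateField k M) (hE : Algebra.trdeg k E ≤ 1)
    (γ : BrauerGroup.{u, u} M) (hγ : γ ∈ VL hn hζ M E) : γ = 1 := by
  have hle : VL hn hζ M E ≤ ⊥ := by
    rw [VL, Subgroup.closure_le]
    rintro γ ⟨a, b, ha, hb, rfl⟩
    rw [SetLike.mem_coe, Subgroup.mem_bot]
    exact tsenL hn hζ E hE a b ha hb
  exact (Subgroup.mem_bot).1 (hle hγ)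

/-- products of good blocks -/
theorem good_blocks (M : Type u) [Field M] [Algebra k M] (E0 : IntermediateField k M)
    (hE0 : Algebra.trdeg k E0 ≤ 1) (g : ℕ) (E F a b : Fin g → Mˣ) (ha : ∀ i, (a i : M) ∈ E0)
    (hb : ∀ i, (b i : M) ∈ E0) (d : Fin g → ℤ) (hd : ∀ i, IsCoprime (d i) (n : ℤ)) :
    IndDvd (∏ i, (symHom hn (rootK M hζ) (E i) (F i) ^ d i *
      (symHom hn (rootK M hζ) (a i) (E i) * symHom hn (rootK M hζ) (b i) (F i)))) (n ^ g) := by
  have h1 : ∀ i, ∃ u : ℤ, (n : ℤ) ∣ u * d i - 1 := by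
    intro i
    obtain ⟨u, v, h⟩ := hd i
    exact ⟨u, -v, by rw [← h]; ring⟩
  choose u hu using h1
  have h2 : ∀ i, symHom hn (rootK M hζ) (E i) (F i) ^ d i *
      (symHom hn (rootK M hζ) (a i) (E i) * symHom hn (rootK M hζ) (b i) (F i)) =
      symCl hn (rootK M hζ) ((E i * b i ^ u i) ^ d i) (F i * a i ^ (-u i)) := by
    intro i
    have := block_eq (s := symHom hn (rootK M hζ)) (fun a b => symCl_anti hn (rootK M hζ) a b) n
      (fun a b => symCl_tors hn (rootK M hζ) a b) (E i) (F i) (a i) (b i) (d i) (u i) 1 (hu i)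
      (tsenL hn hζ E0 hE0 _ _ (hb i) (ha i))
    rw [zpow_one, zpow_one] at this
    rw [this, ← symHom_apply, map_zpow, MonoidHom.zpow_apply]
  rw [Finset.prod_congr rfl fun i _ => h2 i]
  exact (hasRep_prod hn (rootK M hζ) g _ _).indDvd

omit [IsAlgClosed k] in
/-- adjoining a root of arbitrary order -/
theorem exists_root_pow : ∀ (N : ℕ), 0 < N → ∀ (K : Type u) [Field K] (a : Kˣ),
    ∃ (K' : Type u) (_ : Field K') (_ : Algebra K K') (_ : FiniteDimensional K K'),
      Module.finrank K K' ∣ N ∧ ∃ c : K'ˣ, c ^ N = ι K' a := by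
  intro N
  induction N using Nat.strong_induction_on with
  | _ N ih =>
  intro hN K _ a
  by_cases hN1 : N = 1
  · subst hN1
    refine ⟨K, inferInstance, inferInstance, inferInstance, by rw [Module.finrank_self], a, ?_⟩
    rw [pow_one]
    ext; rfl
  · have hq : (N.minFac).Prime := Nat.minFac_prime hN1
    obtain ⟨N', hN'⟩ := Nat.minFac_dvd N
    set q := N.minFac with hqdef
    have hN'0 : 0 < N' := Nat.pos_of_ne_zero (by rintro rfl; rw [mul_zero] at hN'; omega)
    have hlt : N' < N := by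
      have := Nat.mul_lt_mul_of_pos_right hq.one_lt hN'0
      rw [one_mul, ← hN'] at this
      exact this
    obtain ⟨K1, _, _, _, hf1, c1, hc1⟩ := exists_root q hq a
    obtain ⟨K2, _, _, _, hf2, c2, hc2⟩ := ih N' hlt hN'0 K1 c1
    letI : Algebra K K2 := ((algebraMap K1 K2).comp (algebraMap K K1)).toAlgebra
    haveI : IsScalarTower K K1 K2 := IsScalarTower.of_algebraMap_eq (fun _ => rfl)
    haveI : FiniteDimensional K K2 := Module.Finite.trans K1 K2
    refine ⟨K2, inferInstance, inferInstance, inferInstance, ?_, c2, ?_⟩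
    · rw [← Module.finrank_mul_finrank K K1 K2, hN']
      exact Nat.mul_dvd_mul hf1 hf2
    · rw [hN', mul_comm q, pow_mul, hc2, ← map_pow, hc1]
      ext; rfl

end fields

section

variable {K : Type u} [Field K]

theorem cl_zpow (x : Kˣ) (w : ℤ) : cl (x ^ w) = (w : F2) • cl x := by
  have h1 : cl (x ^ w) = w • cl x := by
    cases w with
    | ofNat m =>
      rw [Int.ofNat_eq_natCast, zpow_natCast, natCast_zsmul]
      induction m with
      | zero => rw [pow_zero, cl_one, zero_smul]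
      | succ m ih => rw [pow_succ, cl_mul, ih, succ_nsmul]
    | negSucc m =>
      have h2 : cl (x ^ (m + 1)) = (m + 1) • cl x := by
        induction m with
        | zero => rw [zero_add, pow_one, one_smul]
        | succ m ih => rw [pow_succ, cl_mul, ih, succ_nsmul _ (m + 1)]
      rw [zpow_negSucc, negSucc_zsmul, ← h2]
      have h3 : cl ((x ^ (m + 1))⁻¹) + cl (x ^ (m + 1)) = 0 := by
        rw [← cl_mul, inv_mul_cancel, cl_one]
      exact eq_neg_of_add_eq_zero_left h3
  rw [h1, Int.cast_smul_eq_zsmul]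

theorem cl_mon {I : Type} [Fintype I] (x : I → Kˣ) (w : I → ℤ) : cl (mon x w) = ∑ u, r2 w u • cl (x u) := by
  rw [mon, cl_prod]
  exact Finset.sum_congr rfl fun u _ => cl_zpow _ _

end

end Pool.Agent.HX84.PI
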