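import Mathlib
import Pool.Agent.HX84.PI.Blocks

/-! The index bound for classes of any period. -/

set_option autoImplicit false
set_option linter.all false

open scoped TensorProduct
open Matrix

noncomputable section

namespace Pool.Agent.HX84.PI

open Pool.Agent.Helper346.Bra Pool.Agent.Helper18.Br Pool.Agent.H552R3.SymBr Pool.Agent.H552R3.SymPred
  Pool.Agent.H552R3.Tsen Pool.Agent.Y109.PI

universe u

theorem corr_two (g n : ℕ) (hg : g / 2 = 1) (hodd : ∀ p : ℕ, p.Prime → p ∣ n → p ≠ 2 → g < p) :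
    corr n g ∣ 2 ∧ (¬ 2 ∣ n → corr n g = 1) := by
  have h1 : ∀ p ∈ n.primeFactors, p ≠ 2 → p ^ (g.factorial.factorization p) = 1 := by
    intro p hp hp2
    have h2 := hodd p (Nat.prime_of_mem_primeFactors hp) (Nat.dvd_of_mem_primeFactors hp) hp2
    have h3 : g.factorial.factorization p = 0 := by
      refine Nat.factorization_eq_zero_of_not_dvd ?_
      intro h
      have := (Nat.prime_of_mem_primeFactors hp).dvd_factorial.1 h
      omega
    rw [h3, pow_zero]
  have h2 : 2 ^ (g.factorial.factorization 2) ∣ 2 := by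
    have h3 : g.factorial.factorization 2 ≤ 1 := by
      by_contra hcon
      push Not at hcon
      have h4 := (Nat.prime_two.pow_dvd_iff_le_factorization (Nat.factorial_ne_zero g)).2
        (show 2 ≤ g.factorial.factorization 2 by omega)
      have hg' : g = 2 ∨ g = 3 := by omega
      rcases hg' with rfl | rfl <;> revert h4 <;> decide
    calc 2 ^ (g.factorial.factorization 2) ∣ 2 ^ 1 := pow_dvd_pow 2 h3
      _ = 2 := pow_one 2
  constructor
  · by_cases h : 2 ∈ n.primeFactors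
    · rw [corr, Finset.prod_eq_single_of_mem 2 h fun p hp hp2 => h1 p hp hp2]
      exact h2
    · rw [corr, Finset.prod_eq_one fun p hp => h1 p hp (by rintro rfl; exact h hp)]
      exact one_dvd _
  · intro hn2
    rw [corr, Finset.prod_eq_one fun p hp => h1 p hp (by
      rintro rfl; exact hn2 (Nat.dvd_of_mem_primeFactors hp))]

variable {k : Type u} [Field k] [IsAlgClosed k] {n : ℕ} (hn : 0 < n) {ζ : k} (hζ : IsPrimitiveRoot ζ n)

/-- **The key theorem.** -/
theorem key {K : Type u} [Field K] [Algebra k K]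
    (L : IntermediateField k K) (hL : Algebra.trdeg k L ≤ 1)
    (H : Subgroup Kˣ) (hH : ∀ a : Kˣ, a ∈ H ↔ (a : K) ∈ L)
    {I : Type} [Fintype I] [DecidableEq I] (z : I → Kˣ) (g : ℕ) (hg : g / 2 = 1) (hI : Fintype.card I = 2 * g)
    (hodd : ∀ p : ℕ, p.Prime → p ∣ n → p ≠ 2 → g < p) (w0 : I → I → ℤ)
    (hw0 : Q (symHom hn (rootK K hζ)) z w0 ∈ low (symHom hn (rootK K hζ)) H (VL hn hζ K L) z)
    (hΩ2 : 2 ∣ n → m2 (Matrix.of fun u v => w0 u v - w0 v u : Matrix I I ℤ) = om I)
    (hdet : IsCoprime (Matrix.of fun u v => w0 u v - w0 v u : Matrix I I ℤ).det (n : ℤ))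
    (HM : 2 ∣ n → ∀ h : I → Kˣ, (∀ u, (h u : K) ∈ L) → ∀ m m' : I → F2, m ⬝ᵥ (om I *ᵥ m') = 1 →
      ∃ (K' : Type u) (_ : Field K') (_ : Algebra K K') (_ : Algebra k K') (_ : IsScalarTower k K K')
        (_ : FiniteDimensional K K') (o : ℕ), Odd o ∧ Module.finrank K K' ∣ 2 * o ∧ ∃ q : I → K'ˣ,
          (∀ u, (q u : K') ∈ acl L K') ∧
          (∏ u, symHom hn (rootK K' hζ) (q u) (ι K' (z u)) = 1) ∧
          (∑ u, m u • (cl (ι K' (h u)) + cl (q u)) = 0) ∧ (∑ u, m' u • (cl (ι K' (h u)) + cl (q u)) = 0))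
    (α : BrauerGroup.{u, u} K) (hα : α ∈ Subgroup.closure {γ | ∃ a ∈ H ⊔ Subgroup.closure (Set.range z),
      ∃ b ∈ H ⊔ Subgroup.closure (Set.range z), γ = symHom hn (rootK K hζ) a b}) :
    IndDvd α (n ^ g) := by
  obtain ⟨g', rfl⟩ : ∃ g', g = g' + 1 := ⟨g - 1, by omega⟩
  have hneg : (-1 : Kˣ) ∈ H := by
    rw [hH, Units.val_neg, Units.val_one]
    exact L.neg_mem L.one_mem
  have hfac := index_fac hn hζ one_pos (base_one hn hζ) L hL H hH z (g' + 1) hI w0 hw0 hdet α hα
  rw [one_mul] at hfac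
  obtain ⟨hcorr, hcorr1⟩ := corr_two (g' + 1) n hg hodd
  by_cases hn2 : 2 ∣ n
  swap
  · rw [hcorr1 hn2, mul_one] at hfac
    exact hfac
  obtain ⟨n', hn'⟩ := id hn2
  have hn'0 : 0 < n' := by omega
  have hanti : ∀ a b, symHom hn (rootK K hζ) a b = (symHom hn (rootK K hζ) b a)⁻¹ :=
    fun a b => symCl_anti hn (rootK K hζ) a b
  have hV : ∀ a ∈ H, ∀ b ∈ H, symHom hn (rootK K hζ) a b ∈ VL hn hζ K L := fun a ha b hb =>
    Subgroup.subset_closure ⟨a, b, (hH a).1 ha, (hH b).1 hb, rfl⟩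
  obtain ⟨w, hw⟩ := exists_Q hanti H (VL hn hζ K L) hV z α hα
  obtain ⟨c, d, e, f, A, B, hM, hdual, hdp, hd4, hd2⟩ := choose_form (g' + 1) n hg hI hn hodd
    (Matrix.of fun u v => w u v - w v u) (Matrix.of fun u v => w0 u v - w0 v u) (alt_of_sub w) (alt_of_sub w0)
    (hΩ2 hn2) hdet
  obtain ⟨h, hh, v, hv, hα'⟩ := abs_form hanti n (fun a b => symCl_tors hn (rootK K hζ) a b) (-1) H hneg
    (fun a => symCl_diag hn (rootK K hζ) a) (VL hn hζ K L) z w w0 hw0 c (g' + 1) d e f hM α hw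
  have hzEF : ∀ u, z u = (∏ i, mon z (e i) ^ A i u) * ∏ i, mon z (f i) ^ B i u := by
    intro u
    rw [← mon_sum, ← mon_sum, ← mon_add]
    have h4 : ((fun v => ∑ k, A k u * e k v) + fun v => ∑ k, B k u * f k v) = Pi.single u 1 := by
      funext v
      rw [Pi.add_apply, hdual u v, Pi.single_apply]
      simp only [eq_comm]
    rw [h4, mon_single, zpow_one]
  have hv1 := VL_one hn hζ L hL v hv
  rw [hv1, mul_one] at hα'
  -- coprimality
  have hcop : ∀ i, ¬ (2 : ℤ) ∣ d i → IsCoprime (d i) (n : ℤ) := by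
    intro i hi
    rw [Int.isCoprime_iff_gcd_eq_one]
    by_contra hne
    obtain ⟨p, hp, hpd⟩ := Nat.exists_prime_and_dvd hne
    have hp1 : (p : ℤ) ∣ d i := (Int.natCast_dvd_natCast.2 hpd).trans (Int.gcd_dvd_left _ _)
    have hp2 : p ∣ n := by
      have := (Int.natCast_dvd_natCast.2 hpd).trans (Int.gcd_dvd_right (d i) (n : ℤ))
      exact_mod_cast this
    by_cases hp3 : p = 2
    · subst hp3; exact hi hp1
    · exact hdp p hp hp2 hp3 i hp1
  rcases hd2 with hd2 | ⟨i0, hi0, hi, hω⟩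
  · -- all elementary divisors are prime to `n`
    rw [lin_coord z h (fun i => mon z (e i)) (fun i => mon z (f i)) A B hzEF, ← Finset.prod_mul_distrib] at hα'
    rw [hα']
    exact good_blocks hn hζ K L hL (g' + 1) _ _ _ _ (fun i => (hH _).1 (mon_mem H _ _ hh))
      (fun i => (hH _).1 (mon_mem H _ _ hh)) d fun i => hcop i (hd2 i)
  · -- one elementary divisor is twice a number prime to `n / 2`
    obtain ⟨K', _, _, _, _, _, o, ho, hfin, q, hq, hqz, hm, hm'⟩   := HM hn2 h (fun u => (hH _).1 (hh u)) _ _ hω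
    obtain ⟨d', hd'⟩ := hi0
    have hcop' : IsCoprime d' (n' : ℤ) := by
      rw [Int.isCoprime_iff_gcd_eq_one]
      by_contra hne
      obtain ⟨p, hp, hpd⟩ := Nat.exists_prime_and_dvd hne
      have hp1 : (p : ℤ) ∣ d' := (Int.natCast_dvd_natCast.2 hpd).trans (Int.gcd_dvd_left _ _)
      have hp2 : p ∣ n' := by
        have := (Int.natCast_dvd_natCast.2 hpd).trans (Int.gcd_dvd_right d' (n' : ℤ))
        exact_mod_cast this
      by_cases hp3 : p = 2
      · subst hp3
        apply hd4 i0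
        rw [hd']
        obtain ⟨x, hx⟩ := hp1
        rw [hx]
        exact ⟨x, by push_cast; ring⟩
      · refine hdp p hp (hp2.trans ⟨2, by rw [hn']; ring⟩) hp3 i0 ?_
        rw [hd']
        exact Dvd.dvd.mul_left hp1 _
    obtain ⟨x, y, hxy⟩ := hcop'
    have hu0 : (n : ℤ) ∣ x * d i0 - 2 := by
      refine ⟨-y, ?_⟩
      rw [hd', hn']
      push_cast
      linear_combination 2 * hxy
    -- over `K'`
    have hL' : Algebra.trdeg k (acl L K') ≤ 1 := by rw [trdeg_acl]; exact hL
    let H' : Subgroup K'ˣ := HU (acl L K')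
    let h' : I → K'ˣ := fun u => ι K' (h u) * q u
    have hh' : ∀ u, h' u ∈ H' := fun u => H'.mul_mem (map_mem_acl L K' _ ((hH _).1 (hh u))) (hq u)
    let E' : Fin (g' + 1) → K'ˣ := fun i => ι K' (mon z (e i))
    let F' : Fin (g' + 1) → K'ˣ := fun i => ι K' (mon z (f i))
    let a : Fin (g' + 1) → K'ˣ := fun i => mon h' (A i)
    let b : Fin (g' + 1) → K'ˣ := fun i => mon h' (B i)
    have ha : ∀ i, a i ∈ H' := fun i => mon_mem H' _ _ hh'
    have hb : ∀ i, b i ∈ H' := fun i => mon_mem H' _ _ hh'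
    have hres0 : ∀ x y : Kˣ, res K' (symHom hn (rootK K hζ) x y) = symHom hn (rootK K' hζ) (ι K' x) (ι K' y) := by
      intro x y
      rw [symHom_apply, res_symCl, symHom_apply]
      exact symCl_congr hn _ _ (IsScalarTower.algebraMap_apply k K K' ζ).symm _ _
    have hzEF' : ∀ u, ι K' (z u) = (∏ i, E' i ^ A i u) * ∏ i, F' i ^ B i u := by
      intro u
      rw [hzEF u, map_mul, map_prod, map_prod]
      simp only [map_zpow]
      rfl
    have hα1 : res K' α = ∏ i, (symHom hn (rootK K' hζ) (E' i) (F' i) ^ d i *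
        (symHom hn (rootK K' hζ) (a i) (E' i) * symHom hn (rootK K' hζ) (b i) (F' i))) := by
      rw [Finset.prod_mul_distrib, ← lin_coord (s := symHom hn (rootK K' hζ)) (fun u => ι K' (z u)) h' E' F' A B hzEF']
      rw [hα', map_mul, map_prod, map_prod]
      congr 1
      · refine Finset.prod_congr rfl fun i _ => ?_
        rw [map_zpow, hres0]
      · have e1 : ∏ u, symHom hn (rootK K' hζ) (h' u) (ι K' (z u)) =
            (∏ u, symHom hn (rootK K' hζ) (ι K' (h u)) (ι K' (z u))) *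
              ∏ u, symHom hn (rootK K' hζ) (q u) (ι K' (z u)) := by
          rw [← Finset.prod_mul_distrib]
          refine Finset.prod_congr rfl fun u _ => ?_
          rw [map_mul, MonoidHom.mul_apply]
        rw [e1, hqz, mul_one]
        exact Finset.prod_congr rfl fun u _ => hres0 _ _
    have hsqA : cl (a i0) = 0 := by
      rw [cl_mon, ← hm]
      exact Finset.sum_congr rfl fun u _ => by rw [cl_mul]
    have hsqB : cl (b i0) = 0 := by
      rw [cl_mon, ← hm']
      exact Finset.sum_congr rfl fun u _ => by rw [cl_mul]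
    obtain ⟨κ, hκ⟩ := (cl_eq_zero _).1 hsqA
    obtain ⟨lam, hlam⟩ := (cl_eq_zero _).1 hsqB
    have hacl : ∀ t : K'ˣ, t ^ 2 ∈ H' → (t : K') ∈ acl L K' := by
      intro t ht
      have h1 : ((t ^ 2 : K'ˣ) : K') ∈ acl L K' := ht
      rw [mem_acl] at h1 ⊢
      rw [Units.val_pow_eq_pow_val] at h1
      exact IsAlgebraic.of_pow two_pos h1
    have hκL := hacl κ (by rw [hκ]; exact ha i0)
    have hlamL := hacl lam (by rw [hlam]; exact hb i0)
    have hblock := block_eq (s := symHom hn (rootK K' hζ)) (fun a b => symCl_anti hn (rootK K' hζ) a b) n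
      (fun a b => symCl_tors hn (rootK K' hζ) a b) (E' i0) (F' i0) κ lam (d i0) x 2 hu0
      (tsenL hn hζ (acl L K') hL' _ _ hlamL hκL)
    have hblock2 : symHom hn (rootK K' hζ) (E' i0) (F' i0) ^ d i0 *
        (symHom hn (rootK K' hζ) (a i0) (E' i0) * symHom hn (rootK K' hζ) (b i0) (F' i0)) =
        symHom hn (rootK K' hζ) (E' i0 * lam ^ x) (F' i0 * κ ^ (-x)) ^ d i0 := by
      rw [← hblock, ← hκ, ← hlam]
      congr 1
      rw [map_pow, map_pow, MonoidHom.pow_apply, MonoidHom.pow_apply]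
      rfl
    -- over `K''`
    obtain ⟨K'', _, _, _, hfin2, ρ, hρ⟩ := exists_root_pow n' hn'0 K' (E' i0 * lam ^ x)
    letI : Algebra k K'' := ((algebraMap K' K'').comp (algebraMap k K')).toAlgebra
    haveI : IsScalarTower k K' K'' := IsScalarTower.of_algebraMap_eq (fun _ => rfl)
    have hL'' : Algebra.trdeg k (acl (acl L K') K'') ≤ 1 := by rw [trdeg_acl]; exact hL'
    have hres1 : ∀ x y : K'ˣ, res K'' (symHom hn (rootK K' hζ) x y) =
        symHom hn (rootK K'' hζ) (ι K'' x) (ι K'' y) := by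
      intro x y
      rw [symHom_apply, res_symCl, symHom_apply]
    have hα2 : res K'' (res K' α) = ∏ j : Fin g', (symHom hn (rootK K'' hζ) (ι K'' (E' (i0.succAbove j)))
        (ι K'' (F' (i0.succAbove j))) ^ d (i0.succAbove j) *
        (symHom hn (rootK K'' hζ) (ι K'' (a (i0.succAbove j))) (ι K'' (E' (i0.succAbove j))) *
          symHom hn (rootK K'' hζ) (ι K'' (b (i0.succAbove j))) (ι K'' (F' (i0.succAbove j))))) := by
      rw [hα1, Fin.prod_univ_succAbove _ i0, map_mul, map_prod, hblock2, map_zpow, hres1, ← hρ, map_pow,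
        MonoidHom.pow_apply]
      have e1 : (symHom hn (rootK K'' hζ) ρ (ι K'' (F' i0 * κ ^ (-x))) ^ n') ^ d i0 = 1 := by
        rw [hd', ← zpow_natCast, ← _root_.zpow_mul]
        have e2 : (n' : ℤ) * (2 * d') = (n : ℤ) * d' := by rw [hn']; push_cast; ring
        rw [e2, _root_.zpow_mul, zpow_natCast, symHom_apply, symCl_tors, _root_.one_zpow]
      rw [e1, one_mul]
      refine Finset.prod_congr rfl fun j _ => ?_
      rw [map_mul, map_mul, map_zpow, hres1, hres1, hres1]
    have hind2 : IndDvd (res K'' (res K' α)) (n ^ g') := by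
      rw [hα2]
      exact good_blocks hn hζ K'' (acl (acl L K') K'') hL'' g' _ _ _ _
        (fun j => map_mem_acl (acl L K') K'' _ (ha _)) (fun j => map_mem_acl (acl L K') K'' _ (hb _)) _
        fun j => hcop _ (hi _ (Fin.succAbove_ne i0 j))
    have hind1 := IndDvd.of_res K' (IndDvd.of_res K'' hind2)
    intro D _ _ _ _ hD
    have h1 := hind1 D hD
    have h2 := hfac D hD
    have h3 : Module.finrank K K' * (Module.finrank K' K'' * n ^ g') ∣ o * n ^ (g' + 1) := by
      have h4 := Nat.mul_dvd_mul hfin (Nat.mul_dvd_mul_right hfin2 (n ^ g'))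
      refine h4.trans (dvd_of_eq ?_)
      have h9 : n ^ (g' + 1) = n ^ g' * (2 * n') := by rw [pow_succ, ← hn']
      rw [h9]
      ring
    have h5 := h1.trans h3
    have h6 : n ^ (g' + 1) * corr n (g' + 1) ∣ 2 * n ^ (g' + 1) := by
      rw [mul_comm]
      exact Nat.mul_dvd_mul_right hcorr _
    have h7 := Nat.dvd_gcd h5 (h2.trans h6)
    rw [Nat.gcd_mul_right] at h7
    have h8 : Nat.gcd o 2 = 1 := Nat.coprime_two_right.2 ho
    rwa [h8, one_mul] at h7

end Pool.Agent.HX84.PI
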