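import Mathlib
import Pool.Agent.HX84.PI.Main4
import Pool.Agent.HX84.PI.Main5

/-! The index bound for classes of any period: the point of the curve. -/

set_option autoImplicit false
set_option linter.all false

open scoped TensorProduct
open Matrix

noncomputable section

namespace Pool.Agent.HX84.PI

open Pool.Agent.Helper346.Bra Pool.Agent.Helper18.Br Pool.Agent.H552R3.SymBr Pool.Agent.H552R3.SymPred
  Pool.Agent.H552R3.Tsen Pool.Agent.Y109.PI

universe u

variable {k : Type u} [Field k] [IsAlgClosed k] {n : ℕ} (hn : 0 < n) {ζ : k} (hζ : IsPrimitiveRoot ζ n)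

theorem om_of_odd {m : ℕ} (w : Fin m → Fin m → ℤ) (hw : ∀ u v, u ≠ v → Odd (w u v - w v u)) :
    m2 (Matrix.of fun u v => w u v - w v u : Matrix (Fin m) (Fin m) ℤ) = om (Fin m) := by
  ext u v
  simp only [m2, Matrix.map_apply, Matrix.of_apply, om]
  by_cases h : u = v
  · subst h; simp
  · rw [if_neg h, eq_intCast]
    obtain ⟨t, ht⟩ := hw u v h
    rw [ht]
    push_cast
    have : ∀ p : F2, 2 * p + 1 = 1 := by decide
    exact this _

/-- the relation for the translate, in the form of a linear part -/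
theorem rel_lin {K' : Type u} [Field K'] [Algebra k K'] {m : ℕ} (w : Fin m → Fin m → ℤ) (z q : Fin m → K'ˣ)
    (hrel : ∏ u, ∏ v, (symHom hn (rootK K' hζ) (z u) (q v) * symHom hn (rootK K' hζ) (q u) (z v)) ^ w u v = 1) :
    ∏ u, symHom hn (rootK K' hζ) (∏ v, q v ^ (w v u - w u v)) (z u) = 1 := by
  have e1 : ∀ u, symHom hn (rootK K' hζ) (∏ v, q v ^ (w v u - w u v)) (z u) =
      ∏ v, symHom hn (rootK K' hζ) (q v) (z u) ^ (w v u - w u v) := by
    intro u
    rw [map_prod, MonoidHom.finsetProd_apply]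
    exact Finset.prod_congr rfl fun v _ => by rw [map_zpow, MonoidHom.zpow_apply]
  rw [Finset.prod_congr rfl fun u _ => e1 u, ← hrel]
  have e2 : ∀ u v, (symHom hn (rootK K' hζ) (z u) (q v) * symHom hn (rootK K' hζ) (q u) (z v)) ^ w u v =
      (symHom hn (rootK K' hζ) (q v) (z u) ^ w u v)⁻¹ * symHom hn (rootK K' hζ) (q u) (z v) ^ w u v := by
    intro u v
    have h := symCl_anti hn (rootK K' hζ) (z u) (q v)
    rw [← symHom_apply, ← symHom_apply] at h
    rw [h, _root_.mul_zpow, _root_.inv_zpow]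
  simp only [e2, Finset.prod_mul_distrib]
  rw [Finset.prod_comm (f := fun u v => symHom hn (rootK K' hζ) (q u) (z v) ^ w u v), ← Finset.prod_mul_distrib]
  refine Finset.prod_congr rfl fun u _ => ?_
  rw [← Finset.prod_mul_distrib]
  refine Finset.prod_congr rfl fun v _ => ?_
  rw [_root_.zpow_sub, mul_comm]

/-- killing the linear part -/
theorem kill {K K' : Type u} [Field K] [Field K'] [Algebra K K'] {m : ℕ} (w : Fin m → Fin m → ℤ)
    (hw : ∀ u v, u ≠ v → Odd (w u v - w v u)) (q : Fin m → K'ˣ) (q5 : Fin (m + 1) → K'ˣ)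
    (hcl : ∀ u, cl (q u) = cl (q5 u.castSucc)) (h : Fin m → Kˣ) (x : Fin m → F2) (t : Kˣ)
    (ht : cl t = ∑ u, x u • cl (h u))
    (hprod : cl (∏ i ∈ supp (om (Fin m) *ᵥ x), q5 i) = cl (ι K' t)) :
    ∑ u, x u • (cl (ι K' (h u)) + cl (∏ v, q v ^ (w v u - w u v))) = 0 := by
  have e0 : ∀ u, cl (∏ v, q v ^ (w v u - w u v)) = ∑ v, om (Fin m) u v • cl (q5 v.castSucc) := by
    intro u
    rw [cl_prod]
    refine Finset.sum_congr rfl fun v _ => ?_
    rw [cl_zpow, hcl]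
    congr 1
    have := congrFun (congrFun (om_of_odd w hw) v) u
    rw [om_symm u v, ← this]
    simp [m2]
  have e1 : ∑ u, x u • (cl (ι K' (h u)) + cl (∏ v, q v ^ (w v u - w u v))) = ∑ u, x u • cl (ι K' (h u)) +
      ∑ v, (om (Fin m) *ᵥ x) v • cl (q5 v.castSucc) := by
    simp only [smul_add, Finset.sum_add_distrib, e0]
    congr 1
    simp only [Finset.smul_sum, mulVec, dotProduct, Finset.sum_smul]
    rw [Finset.sum_comm]
    refine Finset.sum_congr rfl fun v _ => Finset.sum_congr rfl fun u _ => ?_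
    rw [smul_smul, om_symm v u, mul_comm]
  have e2 : cl (ι K' t) = ∑ u, x u • cl (ι K' (h u)) := cl_comb h x t K' ht
  rw [e1, ← e2, sum_supp (om (Fin m) *ᵥ x) (fun i => cl (q5 i)), ← cl_prod, hprod, f2_add_self]

/-- the hypothesis on the points of the curve -/
def QHyp {K : Type u} [Field K] [Algebra k K] (L : IntermediateField k K) {m : ℕ} (a : Fin (m + 1) → K)
    (z : Fin m → Kˣ) (w : Fin m → Fin m → ℤ) : Prop :=
  ∀ (K' : Type u) [Field K'] [Algebra K K'] [Algebra k K'] [IsScalarTower k K K'] [FiniteDimensional K K']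
    (c y : K'), c ∈ acl L K' → y ^ 2 = ∏ i, (c - algebraMap K K' (a i)) → (∀ i, c ≠ algebraMap K K' (a i)) →
    ∃ q : Fin m → K'ˣ, (∀ u, (q u : K') ∈ acl L K') ∧
      (∀ u, ∃ t : K', (q u : K') = (c - algebraMap K K' (a u.castSucc)) * t ^ 2) ∧
      ∏ u, ∏ v, (symHom hn (rootK K' hζ) (ι K' (z u)) (q v) * symHom hn (rootK K' hζ) (q u) (ι K' (z v))) ^ w u v = 1

theorem cl_of_eq {M : Type u} [Field M] (q q5 : Mˣ) (t : M) (h : (q : M) = (q5 : M) * t ^ 2) : cl q = cl q5 := by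
  have ht : t ≠ 0 := by
    rintro rfl
    rw [zero_pow two_ne_zero, mul_zero] at h
    exact q.ne_zero h
  have h1 : q = q5 * (Units.mk0 t ht) ^ 2 := by
    ext
    rw [Units.val_mul, Units.val_pow_eq_pow_val, Units.val_mk0]
    exact h
  rw [h1, cl_mul, cl_sq, add_zero]

theorem comb_L {K : Type u} [Field K] [Algebra k K] (L : IntermediateField k K) {m : ℕ} (h : Fin m → Kˣ)
    (hh : ∀ u, (h u : K) ∈ L) (x : Fin m → F2) : ∃ t : Kˣ, (t : K) ∈ L ∧ cl t = ∑ u, x u • cl (h u) :=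
  (HL L).sum_mem fun u _ => (HL L).smul_mem _ ⟨h u, hh u, rfl⟩

theorem prod_mem_acl {K K' : Type u} [Field K] [Algebra k K] [Field K'] [Algebra K K'] [Algebra k K']
    [IsScalarTower k K K'] (L : IntermediateField k K) {m : ℕ} (q : Fin m → K'ˣ) (hq : ∀ u, (q u : K') ∈ acl L K')
    (w : Fin m → ℤ) : ((∏ v, q v ^ w v : K'ˣ) : K') ∈ acl L K' := by
  have : (∏ v, q v ^ w v : K'ˣ) ∈ HU (acl L K') := Subgroup.prod_mem _ fun v _ => Subgroup.zpow_mem _ (hq v) _
  exact this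

/-- genus two -/
theorem HM_two {K : Type u} [Field K] [Algebra k K] (h2 : (2 : K) ≠ 0) (L : IntermediateField k K)
    (hL : Algebra.trdeg k L ≤ 1) (a : Fin 5 → K) (ha : Function.Injective a) (haL : ∀ i, a i ∈ L)
    (z : Fin 4 → Kˣ) (w : Fin 4 → Fin 4 → ℤ) (hw : ∀ u v, u ≠ v → Odd (w u v - w v u))
    (hQ : QHyp hn hζ L a z w) (h : Fin 4 → Kˣ) (hh : ∀ u, (h u : K) ∈ L) (m m' : Fin 4 → F2)
    (hmm : m ⬝ᵥ (om (Fin 4) *ᵥ m') = 1) :
    ∃ (K' : Type u) (_ : Field K') (_ : Algebra K K') (_ : Algebra k K') (_ : IsScalarTower k K K')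
      (_ : FiniteDimensional K K') (o : ℕ), Odd o ∧ Module.finrank K K' ∣ 2 * o ∧ ∃ q : Fin 4 → K'ˣ,
        (∀ u, (q u : K') ∈ acl L K') ∧
        (∏ u, symHom hn (rootK K' hζ) (q u) (ι K' (z u)) = 1) ∧
        (∑ u, m u • (cl (ι K' (h u)) + cl (q u)) = 0) ∧ (∑ u, m' u • (cl (ι K' (h u)) + cl (q u)) = 0) := by
  obtain ⟨e1, he1, hce1⟩ := comb_L L h hh m
  obtain ⟨e2, he2, hce2⟩ := comb_L L h hh m'
  obtain ⟨K', _, _, _, _, _, hfin, q5, c, y, hqL, hqc, hy, hv1, hv2⟩ :=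
    match_two K L hL h2 a ha haL (supp (om (Fin 4) *ᵥ m)) (supp (om (Fin 4) *ᵥ m'))
      (par_odd _ _ (odd_supp (g := 2) m m' hmm)) e1 e2 he1 he2
  have hcL : c ∈ L := by
    have h1 := L.add_mem (hqL 0) (haL 0)
    rw [hqc, sub_add_cancel] at h1
    exact h1
  obtain ⟨q, hq1, hq2, hq3⟩ := hQ K' (algebraMap K K' c) y (map_mem_acl L K' _ hcL) hy (fun i h0 => by
    have h1 := (algebraMap K K').injective h0
    have h3 := hqc i
    rw [h1, sub_self] at h3
    exact (q5 i).ne_zero h3)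
  have hcl : ∀ u, cl (q u) = cl (ι K' (q5 u.castSucc)) := by
    intro u
    obtain ⟨t, ht⟩ := hq2 u
    refine cl_of_eq _ _ t ?_
    rw [ht]
    congr 1
    change _ = algebraMap K K' (q5 u.castSucc : K)
    rw [hqc, map_sub]
  refine ⟨K', inferInstance, inferInstance, inferInstance, inferInstance, inferInstance, 1, odd_one,
    by rw [mul_one]; exact hfin, fun u => ∏ v, q v ^ (w v u - w u v), fun u => prod_mem_acl L q hq1 _,
    rel_lin hn hζ w (fun u => ι K' (z u)) q hq3, ?_, ?_⟩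
  · refine kill w hw q (fun i => ι K' (q5 i)) hcl h m e1 hce1 ?_
    rw [← map_prod]; exact hv1
  · refine kill w hw q (fun i => ι K' (q5 i)) hcl h m' e2 hce2 ?_
    rw [← map_prod]; exact hv2

/-- constant branch points -/
theorem HM_const {K : Type u} [Field K] [Algebra k K] (h2 : (2 : K) ≠ 0) (L : IntermediateField k K)
    (hL : Algebra.trdeg k L ≤ 1) (g : ℕ) (a : Fin (2 * g + 1) → k) (ha : Function.Injective a)
    (z : Fin (2 * g) → Kˣ) (w : Fin (2 * g) → Fin (2 * g) → ℤ) (hw : ∀ u v, u ≠ v → Odd (w u v - w v u))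
    (hQ : QHyp hn hζ L (fun i => algebraMap k K (a i)) z w) (h : Fin (2 * g) → Kˣ) (hh : ∀ u, (h u : K) ∈ L)
    (m m' : Fin (2 * g) → F2) (hmm : m ⬝ᵥ (om (Fin (2 * g)) *ᵥ m') = 1) :
    ∃ (K' : Type u) (_ : Field K') (_ : Algebra K K') (_ : Algebra k K') (_ : IsScalarTower k K K')
      (_ : FiniteDimensional K K') (o : ℕ), Odd o ∧ Module.finrank K K' ∣ 2 * o ∧ ∃ q : Fin (2 * g) → K'ˣ,
        (∀ u, (q u : K') ∈ acl L K') ∧
        (∏ u, symHom hn (rootK K' hζ) (q u) (ι K' (z u)) = 1) ∧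
        (∑ u, m u • (cl (ι K' (h u)) + cl (q u)) = 0) ∧ (∑ u, m' u • (cl (ι K' (h u)) + cl (q u)) = 0) := by
  obtain ⟨e1, he1, hce1⟩ := comb_L L h hh m
  obtain ⟨e2, he2, hce2⟩ := comb_L L h hh m'
  by_cases hns : (∃ x : K, x ^ 2 = (e1 : K)) ∧ (∃ x : K, x ^ 2 = (e2 : K))
  · have hz0 : ∀ t : Kˣ, (∃ x : K, x ^ 2 = (t : K)) → cl t = 0 := by
      rintro t ⟨x, hx⟩
      rw [cl_eq_zero]
      have hx0 : x ≠ 0 := by
        rintro rfl
        rw [zero_pow two_ne_zero] at hx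
        exact t.ne_zero hx.symm
      exact ⟨Units.mk0 x hx0, by ext; rw [Units.val_pow_eq_pow_val, Units.val_mk0, hx]⟩
    have hιK : ∀ x : Kˣ, ι K x = x := fun x => by ext; rfl
    refine ⟨K, inferInstance, inferInstance, inferInstance, inferInstance, inferInstance, 1, odd_one,
      by rw [Module.finrank_self]; exact one_dvd _, fun _ => 1, fun _ => ?_, ?_, ?_, ?_⟩
    · exact (HU (acl L K)).one_mem
    · refine Finset.prod_eq_one fun u _ => ?_
      rw [map_one, MonoidHom.one_apply]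
    · simp only [hιK, cl_one, add_zero]
      rw [← hce1, hz0 _ hns.1]
    · simp only [hιK, cl_one, add_zero]
      rw [← hce2, hz0 _ hns.2]
  · obtain ⟨K', _, _, _, _, _, o, ho, hfin, c, y, l1, l2, hcr, hca, hy, hl1, hl2, hv1, hv2⟩ :=
      matching h2 L hL ha (supp (om (Fin (2 * g)) *ᵥ m)) (supp (om (Fin (2 * g)) *ᵥ m')) (odd_supp m m' hmm) e1 e2
        he1 he2 e1.ne_zero e2.ne_zero hns
    have hq0 : ∀ i, c - algebraMap k K' (a i) ≠ 0 := fun i h0 => hcr ⟨a i, (sub_eq_zero.1 h0).symm⟩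
    let q5 : Fin (2 * g + 1) → K'ˣ := fun i => Units.mk0 _ (hq0 i)
    have haa : ∀ i, algebraMap K K' (algebraMap k K (a i)) = algebraMap k K' (a i) := fun i =>
      (IsScalarTower.algebraMap_apply k K K' (a i)).symm
    obtain ⟨q, hq1, hq2, hq3⟩ := hQ K' c y hca (by simp only [haa]; exact hy) (fun i h0 => by
      rw [haa] at h0
      exact hq0 i (sub_eq_zero.2 h0))
    have hcl : ∀ u, cl (q u) = cl (q5 u.castSucc) := by
      intro u
      obtain ⟨t, ht⟩ := hq2 u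
      refine cl_of_eq _ _ t ?_
      rw [ht, haa]
      rfl
    have hprod : ∀ (x : Fin (2 * g) → F2) (t : Kˣ) (l : K'), l ≠ 0 →
        ∏ i ∈ supp (om (Fin (2 * g)) *ᵥ x), (c - algebraMap k K' (a i)) = algebraMap K K' t * l ^ 2 →
        cl (∏ i ∈ supp (om (Fin (2 * g)) *ᵥ x), q5 i) = cl (ι K' t) := by
      intro x t l hl h1
      have e3 : ∏ i ∈ supp (om (Fin (2 * g)) *ᵥ x), q5 i = ι K' t * (Units.mk0 l hl) ^ 2 := by
        ext
        rw [Units.coe_prod, Units.val_mul, Units.val_pow_eq_pow_val, Units.val_mk0]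
        exact h1
      rw [e3, cl_mul, cl_sq, add_zero]
    exact ⟨K', inferInstance, inferInstance, inferInstance, inferInstance, inferInstance, o, ho, hfin,
      fun u => ∏ v, q v ^ (w v u - w u v), fun u => prod_mem_acl L q hq1 _,
      rel_lin hn hζ w (fun u => ι K' (z u)) q hq3, kill w hw q q5 hcl h m e1 hce1 (hprod m e1 l1 hl1 hv1),
      kill w hw q q5 hcl h m' e2 hce2 (hprod m' e2 l2 hl2 hv2)⟩

end Pool.Agent.HX84.PI
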