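import Mathlib
import Pool.Agent.HX84.PI.Main6

/-! The index bound for classes of any period, with the predicate for symbols. -/

set_option autoImplicit false
set_option linter.all false

open scoped TensorProduct
open Matrix

namespace Pool.Agent.HX84.PI

open Pool.Agent.Helper346.Bra Pool.Agent.Helper18.Br Pool.Agent.H552R3.SymBr Pool.Agent.H552R3.SymPred
  Pool.Agent.H552R3.Tsen Pool.Agent.Y109.PI

universe u

/-- The bound without pairs. -/
theorem base_all {k K : Type u} [Field k] [IsAlgClosed k] [Field K] [Algebra k K] (n : ℕ) (hn : 0 < n)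
    (ζ : K) (hζ : IsPrimitiveRoot ζ n) (L : IntermediateField k K) (hL : Algebra.trdeg k L ≤ 1)
    (g : ℕ) (a : Fin (2 * g + 1) → K) (ha : Function.Injective a)
    (hcase : (g = 2 ∧ ∀ i, a i ∈ L) ∨ (g = 3 ∧ ¬ 3 ∣ n ∧ ∀ i, a i ∈ Set.range (algebraMap k K)))
    (z : Fin (2 * g) → Kˣ) (w : Fin (2 * g) → Fin (2 * g) → ℤ)
    (hdet : IsCoprime (Matrix.of fun u v => w u v - w v u : Matrix (Fin (2 * g)) (Fin (2 * g)) ℤ).det (n : ℤ))
    (hodd : 2 ∣ n → ∀ u v, u ≠ v → Odd (w u v - w v u))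
    (θ : Fin (2 * g) → Fin (2 * g) → BrauerGroup.{u, u} K) (hθ : ∀ u v, IsSym n ζ (z u) (z v) (θ u v))
    (hP : ∏ u, ∏ v, θ u v ^ w u v ∈ Subgroup.closure {γ | ∃ b c : Kˣ, (b : K) ∈ L ∧
      ((c : K) ∈ L ∨ c ∈ Set.range z) ∧ IsSym n ζ b c γ})
    (hQ : 2 ∣ n → ∀ (M : Type u) [Field M] [Algebra K M] [FiniteDimensional K M] (c y : M),
      IsAlgebraic L c → y ^ 2 = ∏ i, (c - algebraMap K M (a i)) → (∀ i, c ≠ algebraMap K M (a i)) →
      ∃ (q : Fin (2 * g) → Mˣ) (σ τ : Fin (2 * g) → Fin (2 * g) → BrauerGroup.{u, u} M),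
        (∀ u, IsAlgebraic L (q u : M)) ∧ (∀ u, ∃ t : M, (q u : M) = (c - algebraMap K M (a u.castSucc)) * t ^ 2) ∧
        (∀ u v, IsSym n (algebraMap K M ζ) (Units.map (algebraMap K M).toMonoidHom (z u)) (q v) (σ u v)) ∧
        (∀ u v, IsSym n (algebraMap K M ζ) (q u) (Units.map (algebraMap K M).toMonoidHom (z v)) (τ u v)) ∧
        ∏ u, ∏ v, (σ u v * τ u v) ^ w u v = 1)
    (G : Subgroup Kˣ) (hG : G = Subgroup.closure ({x : Kˣ | (x : K) ∈ L} ∪ Set.range z))
    (α : BrauerGroup.{u, u} K) (hα : α ∈ Subgroup.closure {γ | ∃ x ∈ G, ∃ y ∈ G, IsSym n ζ x y γ}) :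
    IndDvd α (n ^ g) := by
  classical
  -- the root of unity comes from `k`
  obtain ⟨ζ, rfl⟩ : ∃ z : k, algebraMap k K z = ζ :=
    mem_range_of_alg ζ ⟨Polynomial.X ^ n - Polynomial.C 1, Polynomial.X_pow_sub_C_ne_zero hn 1, by
      simp [hζ.pow_eq_one]⟩
  have hζ0 : IsPrimitiveRoot ζ n := hζ.of_map_of_injective (algebraMap k K).injective
  have hK := rootK K hζ0
  -- the subgroup `H = Lˣ`
  let H : Subgroup Kˣ := HU L
  have hHmem : ∀ x : Kˣ, x ∈ H ↔ (x : K) ∈ L := fun _ => Iff.rfl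
  have hGH : G = H ⊔ Subgroup.closure (Set.range z) := by
    rw [hG, Subgroup.closure_union]
    congr 1
    exact Subgroup.closure_eq H
  have hα' : α ∈ Subgroup.closure {γ | ∃ a ∈ H ⊔ Subgroup.closure (Set.range z),
      ∃ b ∈ H ⊔ Subgroup.closure (Set.range z), γ = symHom hn hK a b} := by
    have : {γ | ∃ a ∈ G, ∃ b ∈ G, IsSym n (algebraMap k K ζ) a b γ} =
        {γ | ∃ a ∈ H ⊔ Subgroup.closure (Set.range z),
      ∃ b ∈ H ⊔ Subgroup.closure (Set.range z), γ = symHom hn hK a b} := by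
      ext γ
      simp only [Set.mem_setOf_eq, isSym_iff hn hK, hGH, symHom_apply]
    rw [← this]; exact hα
  have hrel : Q (symHom hn hK) z w ∈ low (symHom hn hK) H (VL hn hζ0 K L) z := by
    have h1 : Q (symHom hn hK) z w = ∏ u, ∏ v, θ u v ^ w u v := by
      rw [Q, Fintype.prod_prod_type]
      refine Finset.prod_congr rfl fun u _ => Finset.prod_congr rfl fun v _ => ?_
      rw [(isSym_iff hn hK (z u) (z v) (θ u v)).1 (hθ u v)]
      rfl
    rw [h1]
    refine (Subgroup.closure_le (low (symHom hn hK) H (VL hn hζ0 K L) z)).2 ?_ hP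
    rintro γ ⟨b, c, hb, hc, hbc⟩
    rw [isSym_iff hn hK] at hbc
    subst hbc
    rcases hc with hc | ⟨i, rfl⟩
    · exact low_V (symHom hn hK) (Subgroup.subset_closure ⟨b, c, hb, hc, rfl⟩)
    · exact low_sym (symHom hn hK) (V := VL hn hζ0 K L) (z := z) (H := H) hb i
  have hQH : 2 ∣ n → QHyp hn hζ0 L a z w := by
    intro h2n M _ _ _ _ _ c y hc hy hca
    obtain ⟨q, σ, τ, h1, h2, h3, h4, h5⟩ := hQ h2n M c y ((mem_acl L M c).1 hc) hy hca
    refine ⟨q, fun u => (mem_acl L M _).2 (h1 u), h2, ?_⟩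
    have hζM : algebraMap K M (algebraMap k K ζ) = algebraMap k M ζ := (IsScalarTower.algebraMap_apply k K M ζ).symm
    rw [← h5]
    refine Finset.prod_congr rfl fun u _ => Finset.prod_congr rfl fun v _ => ?_
    have e1 := h3 u v
    have e2 := h4 u v
    rw [hζM] at e1 e2
    rw [(isSym_iff hn (rootK M hζ0) _ _ _).1 e1, (isSym_iff hn (rootK M hζ0) _ _ _).1 e2]
    rfl
  have h2K : 2 ∣ n → (2 : K) ≠ 0 := by
    rintro ⟨m, hm⟩ h0
    apply n_ne_zero hn hK
    rw [hm]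
    push_cast
    rw [h0, zero_mul]
  rcases hcase with ⟨rfl, haL⟩ | ⟨rfl, h3, hak⟩
  · refine key hn hζ0 L hL H hHmem z 2 rfl (by simp) (fun p hp _ hp2 => ?_) w hrel
      (fun h2n => om_of_odd w (hodd h2n)) hdet (fun h2n h hh m m' hmm => ?_) α hα'
    · have := hp.two_le
      omega
    · exact HM_two hn hζ0 (h2K h2n) L hL a ha haL z w (hodd h2n) (hQH h2n) h hh m m' hmm
  · choose a0 ha0 using hak
    have ha0' : (fun i => algebraMap k K (a0 i)) = a := funext ha0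
    have ha0i : Function.Injective a0 := fun i j hij => ha (by rw [← ha0 i, ← ha0 j, hij])
    refine key hn hζ0 L hL H hHmem z 3 rfl (by simp) (fun p hp hpn hp2 => ?_) w hrel
      (fun h2n => om_of_odd w (hodd h2n)) hdet (fun h2n h hh m m' hmm => ?_) α hα'
    · have h1 := hp.two_le
      by_contra h4
      have h5 : p = 3 := by omega
      subst h5
      exact h3 hpn
    · refine HM_const hn hζ0 (h2K h2n) L hL 3 a0 ha0i z w (hodd h2n) ?_ h hh m m' hmm
      rw [ha0']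
      exact hQH h2n

end Pool.Agent.HX84.PI
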