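import Mathlib
import Pool.Agent.H552R3.SymPred
import Pool.Agent.H552R3.Tsen.Tower

/-! Adding pairs to a bound for the index. -/

set_option autoImplicit false
set_option linter.all false

open scoped TensorProduct

namespace Pool.Agent.HX84.PI

open Pool.Agent.Helper18.Br Pool.Agent.H552R3.SymBr Pool.Agent.H552R3.SymPred Pool.Agent.H552R3.Tsen

universe u

/-- If all classes generated by the symbols with entries in the group `G0`, generated by `Lˣ` and a set `Z`, have
index dividing `N`, then the classes generated by the symbols with entries in the group generated by `G0` and `r`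
pairs `e_i, f_i` have index dividing `n ^ r N`, if every pair is algebraically dependent or on a line over `L`. -/
theorem with_pairs {k K : Type u} [Field k] [IsAlgClosed k] [Field K] [Algebra k K] (n : ℕ) (hn : 0 < n)
    (ζ : K) (hζ : IsPrimitiveRoot ζ n)
    (L : IntermediateField k K) (Z : Set Kˣ) (N : ℕ) (hN : 0 < N)
    (hbase : ∀ α : BrauerGroup.{u, u} K,
      α ∈ Subgroup.closure {γ | ∃ x ∈ Subgroup.closure ({x : Kˣ | (x : K) ∈ L} ∪ Z),
        ∃ y ∈ Subgroup.closure ({x : Kˣ | (x : K) ∈ L} ∪ Z), IsSym n ζ x y γ} → IndDvd α N)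
    (r : ℕ) (e f : Fin r → Kˣ)
    (hef : ∀ i, ¬ AlgebraicIndependent k ![(e i : K), (f i : K)] ∨
      (∃ c ∈ L, ∃ d ∈ L, c ≠ 0 ∧ d ≠ 0 ∧ c * e i + d * f i = 1))
    (G : Subgroup Kˣ) (hG : G = Subgroup.closure ({x : Kˣ | (x : K) ∈ L} ∪ Z ∪ Set.range e ∪ Set.range f))
    (α : BrauerGroup.{u, u} K)
    (hα : α ∈ Subgroup.closure {γ | ∃ x ∈ G, ∃ y ∈ G, IsSym n ζ x y γ}) :
    IndDvd α (n ^ r * N) := by
  -- the root of unity comes from `k`
  obtain ⟨z, rfl⟩ : ∃ z : k, algebraMap k K z = ζ :=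
    mem_range_of_alg ζ ⟨Polynomial.X ^ n - Polynomial.C 1, Polynomial.X_pow_sub_C_ne_zero hn 1, by
      simp [hζ.pow_eq_one]⟩
  have hz : IsPrimitiveRoot z n := hζ.of_map_of_injective (algebraMap k K).injective
  have hneg : (-1 : Kˣ) ∈ Subgroup.closure ({x : Kˣ | (x : K) ∈ L} ∪ Z) := by
    apply Subgroup.subset_closure
    left
    change ((-1 : Kˣ) : K) ∈ L
    rw [Units.val_neg, Units.val_one]
    exact L.neg_mem L.one_mem
  have hS : ∀ G : Subgroup Kˣ, {γ | ∃ x ∈ G, ∃ y ∈ G, IsSym n (algebraMap k K z) x y γ} =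
      symSet hn (rootK K hz) G := by
    intro G
    ext γ
    constructor
    · rintro ⟨x, hx, y, hy, h⟩
      exact ⟨x, hx, y, hy, (isSym_iff hn (rootK K hz) x y γ).1 h⟩
    · rintro ⟨x, hx, y, hy, h⟩
      exact ⟨x, hx, y, hy, (isSym_iff hn (rootK K hz) x y γ).2 h⟩
  rw [hS] at hbase hα
  refine main_index hn (rootK K hz) r
    (Subgroup.closure (symSet hn (rootK K hz) (Subgroup.closure ({x : Kˣ | (x : K) ∈ L} ∪ Z))))
    (Subgroup.closure ({x : Kˣ | (x : K) ∈ L} ∪ Z)) hneg Subgroup.subset_closure N hN hbase e f ?_ α ?_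
  · intro i
    rcases hef i with h | ⟨c, hc, d, hd, hc0, hd0, h⟩
    · exact ⟨1, Subgroup.one_mem _, 1, Subgroup.one_mem _, 1, Subgroup.one_mem _, by
        rw [tsen hn hz _ _ h, symCl_one_right, symCl_one_right, mul_one, mul_one]⟩
    · exact pairRel_of_linear hn (rootK K hz) _ _ Subgroup.subset_closure (e i) (f i) (Units.mk0 c hc0)
        (Units.mk0 d hd0) (Subgroup.subset_closure (Or.inl hc)) (Subgroup.subset_closure (Or.inl hd)) h
  · have hGH : G = Subgroup.closure ({x : Kˣ | (x : K) ∈ L} ∪ Z) ⊔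
        Subgroup.closure (Set.range e ∪ Set.range f) := by
      rw [hG, Set.union_assoc, Subgroup.closure_union]
    rw [hGH] at hα
    exact (le_sup_right : _ ≤ Subgroup.closure (symSet hn (rootK K hz)
      (Subgroup.closure ({x : Kˣ | (x : K) ∈ L} ∪ Z))) ⊔ _) hα

end Pool.Agent.HX84.PI
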